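import Pool.Agent.H80.ORC.Lip

/-!
# Lipschitz harmonic functions attain their Lipschitz constant at every vertex
-/

set_option autoImplicit false
set_option linter.unusedSectionVars false

namespace Pool.Agent.H80.ORC

open Finset Filter Topology

variable {V : Type*} {G : SimpleGraph V} [G.LocallyFinite] {D : ℕ}

lemma isClosed_harm : IsClosed {H : V → ℝ | IsHarm G D H} := by
  unfold IsHarm
  rw [Set.ofPred_forall]
  refine isClosed_iInter fun x => ?_
  refine isClosed_eq ?_ (continuous_apply x)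
  unfold avg
  exact (continuous_finsetSum _ fun y _ => continuous_apply y).div_const _

lemma isClosed_lip (L : ℝ) : IsClosed {H : V → ℝ | IsLip G L H} := by
  unfold IsLip
  simp only [Set.ofPred_forall]
  refine isClosed_iInter fun x => isClosed_iInter fun y => isClosed_iInter fun _ => ?_
  exact isClosed_le ((continuous_apply x).sub (continuous_apply y)).abs continuous_const

/-- compactness of the set of `L`-Lipschitz functions in `HarmLip` -/
lemma isCompact_lip (h : Nice G D) (o : V) (L : ℝ) :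
    IsCompact {H : HarmLip G D o | IsLip G L H.1} := by
  rw [Topology.IsInducing.subtypeVal.isCompact_iff]
  have e : Subtype.val '' {H : HarmLip G D o | IsLip G L H.1} =
      {H : V → ℝ | IsHarm G D H} ∩ {H : V → ℝ | IsLip G L H} ∩ {H : V → ℝ | H o = 0} := by
    ext H
    constructor
    · rintro ⟨H', h1, rfl⟩
      exact ⟨⟨H'.2.1, h1⟩, H'.2.2.2⟩
    · rintro ⟨⟨h1, h2⟩, h3⟩
      exact ⟨⟨H, h1, ⟨L, h2⟩, h3⟩, h2, rfl⟩
  suffices hgoal : IsCompact (Subtype.val '' {H : HarmLip G D o | IsLip G L H.1}) from hgoal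
  rw [e]
  have hK : IsCompact (Set.pi Set.univ fun x : V =>
      Set.Icc (-(L * (G.dist x o : ℝ))) (L * (G.dist x o : ℝ))) :=
    isCompact_univ_pi fun x => isCompact_Icc
  refine hK.of_isClosed_subset ?_ ?_
  · exact (isClosed_harm.inter (isClosed_lip L)).inter
      (isClosed_eq (continuous_apply o) continuous_const)
  · rintro H ⟨⟨_, h2⟩, h3⟩ x _
    have := h2.dist_le h.conn x o
    have h3' : H o = 0 := h3
    rw [h3', sub_zero] at this
    exact abs_le.1 this

/-- in `HarmLip`, pointwise convergence implies convergence in Lipschitz norm -/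
lemma uniform_close (h : Nice G D) (ht : Trans G) (o : V) {ι : Type*} (U : Filter ι)
    (T : ι → HarmLip G D o) (T0 : HarmLip G D o) (hT : Tendsto T U (𝓝 T0)) (ε : ℝ) (hε : 0 < ε) :
    ∀ᶠ n in U, IsLip G ε (fun z => (T n).1 z - T0.1 z) := by
  have := finiteDimensional h ht o
  obtain ⟨d, b⟩ : ∃ d : ℕ, Nonempty (Module.Basis (Fin d) ℝ (HarmLip G D o)) :=
    ⟨_, ⟨Module.finBasis ℝ (HarmLip G D o)⟩⟩
  obtain ⟨b⟩ := b
  choose M hM using fun i => (b i).2.2.1
  have hcoord : ∀ i, Tendsto (fun n => b.coord i (T n)) U (𝓝 (b.coord i T0)) := by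
    intro i
    have hc : Continuous (b.coord i) := LinearMap.continuous_of_finiteDimensional _
    exact (hc.tendsto T0).comp hT
  have hsum : Tendsto (fun n => ∑ i, |b.coord i (T n) - b.coord i T0| * M i) U
      (𝓝 (∑ i, |b.coord i T0 - b.coord i T0| * M i)) := by
    apply tendsto_finsetSum
    intro i _
    exact (((hcoord i).sub_const _).abs).mul_const _
  have h0 : ∑ i, |b.coord i T0 - b.coord i T0| * M i = 0 := by simp
  rw [h0] at hsum
  refine (hsum.eventually (gt_mem_nhds hε)).mono fun n hn => ?_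
  intro x y hxy
  refine le_trans ?_ hn.le
  have hrep : ∀ (H : HarmLip G D o) (z : V), H.1 z = ∑ i, b.coord i H * (b i).1 z := by
    intro H z
    have e : (∑ i, b.coord i H • b i : HarmLip G D o) = H := b.sum_repr H
    have e2 : (∑ i, b.coord i H • b i : HarmLip G D o).1 z = ∑ i, b.coord i H * (b i).1 z := by
      rw [AddSubmonoidClass.coe_finsetSum, Finset.sum_apply]
      rfl
    rw [← e2, e]
  change |((T n).1 x - T0.1 x) - ((T n).1 y - T0.1 y)| ≤ _
  have e1 : ((T n).1 x - T0.1 x) - ((T n).1 y - T0.1 y) =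
      ∑ i, (b.coord i (T n) - b.coord i T0) * ((b i).1 x - (b i).1 y) := by
    rw [hrep (T n) x, hrep T0 x, hrep (T n) y, hrep T0 y, ← Finset.sum_sub_distrib,
      ← Finset.sum_sub_distrib, ← Finset.sum_sub_distrib]
    exact Finset.sum_congr rfl fun i _ => by ring
  rw [e1]
  refine (Finset.abs_sum_le_sum_abs _ _).trans (Finset.sum_le_sum fun i _ => ?_)
  rw [abs_mul]
  exact mul_le_mul_of_nonneg_left (hM i x y hxy) (abs_nonneg _)

lemma harm_iso (g : G ≃g G) {H : V → ℝ} (hH : IsHarm G D H) : IsHarm G D (fun z => H (g z)) := by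
  intro x
  rw [← avg_iso, hH]

lemma lip_iso (g : G ≃g G) {H : V → ℝ} {L : ℝ} (hH : IsLip G L H) :
    IsLip G L (fun z => H (g z)) :=
  fun x y hxy => hH _ _ (g.map_adj_iff.2 hxy)

lemma harm_sub_const (h : Nice G D) {H : V → ℝ} (hH : IsHarm G D H) (c : ℝ) :
    IsHarm G D (fun z => H z - c) := by
  intro x
  rw [avg_sub, hH, avg_const h]

lemma lip_sub_const {H : V → ℝ} {L : ℝ} (hH : IsLip G L H) (c : ℝ) :
    IsLip G L (fun z => H z - c) := by
  intro x y hxy
  change |H x - c - (H y - c)| ≤ L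
  have : H x - c - (H y - c) = H x - H y := by ring
  rw [this]
  exact hH x y hxy

/-- translate of a Lipschitz harmonic function, normalised at `o` -/
def trn (h : Nice G D) (o : V) (g : G ≃g G) {H : V → ℝ} {L : ℝ} (hH : IsHarm G D H)
    (hL : IsLip G L H) : HarmLip G D o :=
  ⟨fun z => H (g z) - H (g o), harm_sub_const h (harm_iso g hH) _,
    ⟨L, lip_sub_const (lip_iso g hL) _⟩, by simp⟩

lemma exists_nbr (h : Nice G D) (x : V) : ∃ y, G.Adj x y := by
  have : (G.neighborFinset x).Nonempty := by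
    rw [← Finset.card_pos, h.deg x]; exact h.pos
  obtain ⟨y, hy⟩ := this
  exact ⟨y, by simpa using hy⟩

/-- **Lemma A.** -/
theorem attains (h : Nice G D) (ht : Trans G) {H : V → ℝ} {L₀ : ℝ} (hH : IsHarm G D H)
    (hL₀ : IsLip G L₀ H) : ∃ L, 0 ≤ L ∧ IsLip G L H ∧ ∀ x, Out G L H x := by
  obtain ⟨o⟩ := h.conn.nonempty
  set S : Set ℝ := {r | ∃ x y, G.Adj x y ∧ r = H y - H x} with hS
  obtain ⟨o', ho'⟩ := exists_nbr h o
  have hne : S.Nonempty := ⟨_, o, o', ho', rfl⟩
  have hbdd : BddAbove S := by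
    refine ⟨L₀, ?_⟩
    rintro r ⟨x, y, hxy, rfl⟩
    exact (le_abs_self _).trans (hL₀ y x hxy.symm)
  set L := sSup S with hLdef
  have hLip : IsLip G L H := by
    intro x y hxy
    rw [abs_le]
    constructor
    · have : H y - H x ≤ L := le_csSup hbdd ⟨x, y, hxy, rfl⟩
      linarith
    · exact le_csSup hbdd ⟨y, x, hxy.symm, rfl⟩
  have hL0 : 0 ≤ L := (abs_nonneg _).trans (hLip o o' ho')
  refine ⟨L, hL0, hLip, ?_⟩
  rcases hL0.eq_or_lt with hLz | hLpos
  · intro x
    obtain ⟨y, hy⟩ := exists_nbr h x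
    refine ⟨y, hy, ?_⟩
    have := hLip y x hy.symm
    rw [← hLz] at this ⊢
    exact abs_eq_zero.1 (le_antisymm this (abs_nonneg _))
  -- near-maximal edges
  have hex : ∀ n : ℕ, ∃ x y, G.Adj x y ∧ L - 1 / ((n : ℝ) + 1) < H y - H x := by
    intro n
    obtain ⟨r, ⟨x, y, hxy, rfl⟩, hr⟩ := exists_lt_of_lt_csSup hne
      (show L - 1 / ((n : ℝ) + 1) < sSup S by
        have : (0 : ℝ) < 1 / ((n : ℝ) + 1) := by positivity
        linarith)
    exact ⟨x, y, hxy, hr⟩
  choose x y hxy hlt using hex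
  choose g hg using fun n => ht o (x n)
  set T : ℕ → HarmLip G D o := fun n => trn h o (g n) hH hLip with hT
  set U : Ultrafilter ℕ := Ultrafilter.of atTop with hU
  have hUle : (U : Filter ℕ) ≤ atTop := Ultrafilter.of_le atTop
  obtain ⟨T0, hT0, hlim⟩ := (isCompact_lip h o L).ultrafilter_le_nhds (U.map T) (by
    rw [le_principal_iff, Ultrafilter.coe_map, Filter.mem_map]
    exact Filter.Eventually.of_forall fun n => lip_sub_const (lip_iso (g n) hLip) _)
  have hlim' : Tendsto T (U : Filter ℕ) (𝓝 T0) := hlim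
  have hpt : ∀ z, Tendsto (fun n => H (g n z) - H (x n)) (U : Filter ℕ) (𝓝 (T0.1 z)) := by
    intro z
    have h1 : Tendsto (fun n => (T n).1 z) (U : Filter ℕ) (𝓝 (T0.1 z)) :=
      ((continuous_apply z).comp continuous_subtype_val).continuousAt.tendsto.comp hlim'
    refine h1.congr fun n => ?_
    change H (g n z) - H (g n o) = _
    rw [hg]
  -- the neighbour of `o` is eventually constant
  have hy' : ∀ n, (g n).symm (y n) ∈ G.neighborFinset o := by
    intro n
    have h1 : G.Adj (g n o) (y n) := by rw [hg]; exact hxy n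
    have h2 : G.Adj o ((g n).symm (y n)) := by
      rw [← (g n).map_adj_iff]; simpa using h1
    simpa using h2
  have hb : ∃ b : {b // b ∈ G.neighborFinset o}, ∀ᶠ n in (U : Filter ℕ), (g n).symm (y n) = b.1 := by
    rw [← Ultrafilter.eventually_exists_iff]
    exact Filter.Eventually.of_forall fun n => ⟨⟨_, hy' n⟩, rfl⟩
  obtain ⟨⟨b, hbo⟩, hbev⟩ := hb
  have hob : G.Adj o b := by simpa using hbo
  have hT0o : T0.1 o = 0 := T0.2.2.2
  have hge : L ≤ T0.1 b := by
    have h1 : Tendsto (fun n : ℕ => L - 1 / ((n : ℝ) + 1)) (U : Filter ℕ) (𝓝 (L - 0)) :=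
      (tendsto_const_nhds.sub (tendsto_one_div_add_atTop_nhds_zero_nat)).mono_left hUle
    rw [sub_zero] at h1
    refine le_of_tendsto_of_tendsto h1 (hpt b) (hbev.mono fun n hn => ?_)
    have hn' : (g n).symm (y n) = b := hn
    have h2 : g n b = y n := by rw [← hn']; simp
    change L - 1 / ((n : ℝ) + 1) ≤ H (g n b) - H (x n)
    rw [h2]
    exact (hlt n).le
  have hout : Out G L T0.1 o := by
    refine ⟨b, hob, le_antisymm ?_ ?_⟩
    · exact (le_abs_self _).trans (hT0 b o hob.symm)
    · rw [hT0o, sub_zero]; exact hge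
  have hall := all_out h T0.2.1 hT0 hLpos hout
  -- approximate attainment
  have happ : ∀ ε : ℝ, 0 < ε → ∀ z, ∃ w, G.Adj z w ∧ L - ε ≤ H w - H z := by
    intro ε hε z
    obtain ⟨n, hn⟩ := (uniform_close h ht o (U : Filter ℕ) T T0 hlim' ε hε).exists
    obtain ⟨w, hw, hs⟩ := hall ((g n).symm z)
    have h1 := hn _ _ hw
    change |(H (g n ((g n).symm z)) - H (g n o) - T0.1 ((g n).symm z)) -
      (H (g n w) - H (g n o) - T0.1 w)| ≤ ε at h1
    have h2 : g n ((g n).symm z) = z := by simp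
    rw [h2] at h1
    refine ⟨g n w, ?_, ?_⟩
    · have := (g n).map_adj_iff.2 hw
      rwa [h2] at this
    · have := (abs_le.1 h1).2
      linarith
  -- finiteness of degree
  intro z
  obtain ⟨w, hw, hmax⟩ := Finset.exists_max_image (G.neighborFinset z) (fun w => H w - H z) (by
    obtain ⟨w, hw⟩ := exists_nbr h z
    exact ⟨w, by simpa using hw⟩)
  have hzw : G.Adj z w := by simpa using hw
  refine ⟨w, hzw, le_antisymm ?_ ?_⟩
  · exact (le_abs_self _).trans (hLip w z hzw.symm)
  · apply le_of_forall_pos_le_add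
    intro ε hε
    obtain ⟨w', hw', hs⟩ := happ ε hε z
    have := hmax w' (by simpa using hw')
    linarith

end Pool.Agent.H80.ORC
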