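import Mathlib

/-!
# Basic setting: regular graphs with tight matchings along edges
-/

set_option autoImplicit false

namespace Pool.Agent.H80.ORC

open Finset

/-- Connected `D`-regular graphs with a matching of cost at most `D` along every edge. -/
structure Nice {V : Type*} (G : SimpleGraph V) [G.LocallyFinite] (D : ℕ) : Prop where
  conn : G.Connected
  deg : ∀ x, (G.neighborFinset x).card = D
  pos : 0 < D
  matching : ∀ x y, G.Adj x y → ∃ σ : V → V,
    Set.BijOn σ (G.neighborFinset x) (G.neighborFinset y) ∧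
      ∑ a ∈ G.neighborFinset x, G.dist a (σ a) ≤ D

variable {V : Type*} {G : SimpleGraph V} [G.LocallyFinite] {D : ℕ}

lemma sum_bijOn {M : Type*} [AddCommMonoid M] {s t : Finset V} {σ : V → V}
    (h : Set.BijOn σ s t) (f : V → M) : ∑ b ∈ t, f b = ∑ a ∈ s, f (σ a) := by
  symm
  refine Finset.sum_bij (fun a _ => σ a) ?_ ?_ ?_ ?_
  · intro a ha; exact h.mapsTo ha
  · intro a ha b hb hab; exact h.injOn ha hb hab
  · intro b hb
    obtain ⟨a, ha, hab⟩ := h.surjOn hb
    exact ⟨a, ha, hab⟩
  · intro a _; rfl

lemma Nice.dist_triangle (h : Nice G D) (x y z : V) : G.dist x z ≤ G.dist x y + G.dist y z :=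
  h.conn.dist_triangle

lemma dist_of_mem {x a : V} (ha : a ∈ G.neighborFinset x) : G.dist x a = 1 := by
  rw [SimpleGraph.dist_eq_one_iff_adj]; simpa using ha

lemma dist_of_mem' {x a : V} (ha : a ∈ G.neighborFinset x) : G.dist a x = 1 := by
  rw [SimpleGraph.dist_comm]; exact dist_of_mem ha

/-- a first step of a geodesic -/
lemma exists_first_step (h : G.Connected) {x z : V} {n : ℕ} (hn : G.dist x z = n + 1) :
    ∃ a ∈ G.neighborFinset x, G.dist a z = n := by
  obtain ⟨p, hp⟩ := h.exists_walk_length_eq_dist x z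
  cases p with
  | nil => simp at hn
  | cons hadj q =>
    rename_i a
    refine ⟨a, by simpa using hadj, ?_⟩
    rw [SimpleGraph.Walk.length_cons, hn] at hp
    have h1 : G.dist a z ≤ n := by
      have := SimpleGraph.dist_le q
      omega
    have h2 : G.dist x z ≤ G.dist x a + G.dist a z := h.dist_triangle
    have h3 : G.dist x a = 1 := SimpleGraph.dist_eq_one_iff_adj.2 hadj
    omega

end Pool.Agent.H80.ORC
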