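import Pool.Agent.H80.ORC.Attain

/-!
# Chains of edges of a given type, and extreme points
-/

set_option autoImplicit false
set_option linter.unusedSectionVars false

namespace Pool.Agent.H80.ORC

open Finset Filter Topology Pointwise

/-- `Chain T n x y`: there is a `T`-path with `n` steps from `x` to `y`. -/
def Chain {V : Type*} (T : V → V → Prop) : ℕ → V → V → Prop
  | 0, x, y => x = y
  | n + 1, x, y => ∃ z, T x z ∧ Chain T n z y

variable {V : Type*} {G : SimpleGraph V} [G.LocallyFinite] {D : ℕ}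

lemma Chain.trans {T : V → V → Prop} {m n : ℕ} {x y z : V} (h1 : Chain T m x y)
    (h2 : Chain T n y z) : Chain T (m + n) x z := by
  induction m generalizing x with
  | zero =>
    have h1' : x = y := h1
    subst h1'
    rwa [zero_add]
  | succ m ih =>
    obtain ⟨w, hw, hc⟩ := h1
    rw [Nat.add_right_comm]
    exact ⟨w, hw, ih hc⟩

lemma Chain.split {T : V → V → Prop} {m n : ℕ} {x z : V} (h1 : Chain T (m + n) x z) :
    ∃ y, Chain T m x y ∧ Chain T n y z := by
  induction m generalizing x with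
  | zero =>
    rw [zero_add] at h1
    exact ⟨x, rfl, h1⟩
  | succ m ih =>
    rw [Nat.add_right_comm] at h1
    obtain ⟨w, hw, hc⟩ := h1
    obtain ⟨y, hy1, hy2⟩ := ih hc
    exact ⟨y, ⟨w, hw, hy1⟩, hy2⟩

lemma Chain.single {T : V → V → Prop} {x y : V} (h : T x y) : Chain T 1 x y := ⟨y, h, rfl⟩

lemma Chain.dist_le {T : V → V → Prop} (hc : G.Connected) (hT : ∀ x y, T x y → G.Adj x y) {n : ℕ}
    {x y : V} (h : Chain T n x y) : G.dist x y ≤ n := by
  induction n generalizing x with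
  | zero =>
    have h' : x = y := h
    subst h'
    simp
  | succ n ih =>
    obtain ⟨z, hz, hc'⟩ := h
    have h1 := ih hc'
    have h2 : G.dist x y ≤ G.dist x z + G.dist z y := hc.dist_triangle
    have h3 : G.dist x z = 1 := SimpleGraph.dist_eq_one_iff_adj.2 (hT _ _ hz)
    omega

lemma Chain.exists {T : V → V → Prop} (hT : ∀ x, ∃ y, T x y) (n : ℕ) (x : V) :
    ∃ y, Chain T n x y := by
  induction n generalizing x with
  | zero => exact ⟨x, rfl⟩
  | succ n ih =>
    obtain ⟨z, hz⟩ := hT x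
    obtain ⟨y, hy⟩ := ih z
    exact ⟨y, z, hz, hy⟩

lemma Chain.inc {T : V → V → Prop} {F : V → ℝ} {c : ℝ} (hT : ∀ x y, T x y → F y - F x = c) {n : ℕ}
    {x y : V} (h : Chain T n x y) : F y - F x = n * c := by
  induction n generalizing x with
  | zero =>
    have h' : x = y := h
    subst h'
    simp
  | succ n ih =>
    obtain ⟨z, hz, hc'⟩ := h
    have h1 := ih hc'
    have h2 := hT _ _ hz
    push_cast
    linarith

/-! ### Extreme points and sums -/

section Extreme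

variable {E : Type*} [AddCommGroup E] [Module ℝ E]

lemma ext_split {K : Set E} {v : E} (hv : v ∈ K.extremePoints ℝ) (n1 n2 : ℕ)
    {w1 w2 : E} (h1 : w1 ∈ (n1 : ℝ) • K) (h2 : w2 ∈ (n2 : ℝ) • K)
    (hs : w1 + w2 = ((n1 + n2 : ℕ) : ℝ) • v) : w1 = (n1 : ℝ) • v ∧ w2 = (n2 : ℝ) • v := by
  obtain ⟨p1, hp1, rfl⟩ := Set.mem_smul_set.1 h1
  obtain ⟨p2, hp2, rfl⟩ := Set.mem_smul_set.1 h2
  rcases Nat.eq_zero_or_pos n1 with h0 | h0
  · subst h0
    simp only [Nat.cast_zero, zero_smul, zero_add] at hs ⊢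
    exact ⟨trivial, hs⟩
  rcases Nat.eq_zero_or_pos n2 with h0' | h0'
  · subst h0'
    simp only [Nat.cast_zero, zero_smul, add_zero] at hs ⊢
    exact ⟨hs, trivial⟩
  have e1 : (0 : ℝ) < n1 := by exact_mod_cast h0
  have e2 : (0 : ℝ) < n2 := by exact_mod_cast h0'
  have hne : ((n1 + n2 : ℕ) : ℝ) ≠ 0 := by positivity
  have hseg : v ∈ openSegment ℝ p1 p2 := by
    refine ⟨n1 / (n1 + n2 : ℕ), n2 / (n1 + n2 : ℕ), by positivity, by positivity, ?_, ?_⟩
    · push_cast at hne ⊢; field_simp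
    · have : v = ((n1 + n2 : ℕ) : ℝ)⁻¹ • (((n1 + n2 : ℕ) : ℝ) • v) := by
        rw [smul_smul, inv_mul_cancel₀ hne, one_smul]
      rw [this, ← hs, smul_add, smul_smul, smul_smul]
      congr 2 <;> · rw [div_eq_inv_mul]
  obtain ⟨e3, e4⟩ := (mem_extremePoints.1 hv).2 p1 hp1 p2 hp2 hseg
  rw [e3, e4]
  exact ⟨rfl, rfl⟩

lemma sum_mem_smul {K : Set E} (hK : Convex ℝ K) (hne : K.Nonempty) {ι : Type*}
    (s : Finset ι) (n : ι → ℕ) (w : ι → E) (hw : ∀ a ∈ s, w a ∈ (n a : ℝ) • K) :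
    ∑ a ∈ s, w a ∈ ((∑ a ∈ s, n a : ℕ) : ℝ) • K := by
  classical
  induction s using Finset.induction_on with
  | empty =>
    obtain ⟨p, hp⟩ := hne
    simp only [Finset.sum_empty, Nat.cast_zero]
    exact Set.mem_smul_set.2 ⟨p, hp, zero_smul _ _⟩
  | insert a s ha ih =>
    rw [Finset.sum_insert ha, Finset.sum_insert ha, Nat.cast_add,
      hK.add_smul (Nat.cast_nonneg _) (Nat.cast_nonneg _)]
    exact Set.add_mem_add (hw a (Finset.mem_insert_self _ _))
      (ih fun b hb => hw b (Finset.mem_insert_of_mem hb))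

lemma sum_split {K : Set E} (hK : Convex ℝ K) {v : E} (hv : v ∈ K.extremePoints ℝ)
    {ι : Type*} (s : Finset ι) (n : ι → ℕ) (w : ι → E) (hw : ∀ a ∈ s, w a ∈ (n a : ℝ) • K)
    (hs : ∑ a ∈ s, w a = ((∑ a ∈ s, n a : ℕ) : ℝ) • v) : ∀ a ∈ s, w a = (n a : ℝ) • v := by
  classical
  intro a ha
  have hne : K.Nonempty := ⟨v, hv.1⟩
  have h1 := sum_mem_smul hK hne (s.erase a) n w (fun b hb => hw b (Finset.mem_of_mem_erase hb))
  rw [← Finset.add_sum_erase _ _ ha, ← Finset.add_sum_erase _ _ ha] at hs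
  exact (ext_split hv (n a) _ (hw a ha) h1 hs).1

end Extreme

end Pool.Agent.H80.ORC
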