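import Mathlib

/-!
# Ollivier-Ricci curvature of locally finite graphs: definitions
-/

set_option autoImplicit false

namespace Pool.Agent.H80.ORC

/-- `π` is a coupling of the mass functions `μ` and `ν` on `V`: a nonnegative function on `V × V`
whose first marginal is `μ` and whose second marginal is `ν`. -/
def IsCoupling {V : Type*} (μ ν : V → ℝ) (π : V × V → ℝ) : Prop :=
  (∀ p, 0 ≤ π p) ∧ (∀ a, HasSum (fun b => π (a, b)) (μ a)) ∧
    (∀ b, HasSum (fun a => π (a, b)) (ν b))

/-- The `L¹`-Wasserstein (transport) distance, with respect to the graph metric of `G`, between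
the mass functions `μ` and `ν`: the infimum over all couplings of the expected graph distance. -/
noncomputable def W1 {V : Type*} (G : SimpleGraph V) (μ ν : V → ℝ) : ℝ :=
  sInf {c : ℝ | ∃ π : V × V → ℝ, IsCoupling μ ν π ∧
    HasSum (fun p : V × V => π p * (G.dist p.1 p.2 : ℝ)) c}

open Classical in
/-- The one-step law of the (non-lazy) simple random walk started at `x`: the uniform
probability mass function on the neighbours of `x`. -/
noncomputable def stepLaw {V : Type*} (G : SimpleGraph V) [G.LocallyFinite] (x : V) : V → ℝ :=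
  fun y => if G.Adj x y then 1 / (G.degree x : ℝ) else 0

/-- The Ollivier-Ricci curvature `κ(x,y) = 1 - W₁(μ_x, μ_y)`. -/
noncomputable def curvature {V : Type*} (G : SimpleGraph V) [G.LocallyFinite] (x y : V) : ℝ :=
  1 - W1 G (stepLaw G x) (stepLaw G y)

/-- `f` is a quasi-isometry from `X` with distance function `dX` to `Y` with distance
function `dY`. -/
def IsQuasiIsometry {X Y : Type*} (dX : X → X → ℝ) (dY : Y → Y → ℝ) (f : X → Y) : Prop :=
  ∃ A B : ℝ, 1 ≤ A ∧ 0 ≤ B ∧
    (∀ x x', dX x x' / A - B ≤ dY (f x) (f x') ∧ dY (f x) (f x') ≤ A * dX x x' + B) ∧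
    (∀ y, ∃ x, dY (f x) y ≤ B)

end Pool.Agent.H80.ORC
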