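import Pool.Agent.H80.ORC.Liouville

/-!
# Finite dimensionality of the space of Lipschitz harmonic functions
-/

set_option autoImplicit false
set_option linter.unusedSectionVars false

namespace Pool.Agent.H80.ORC

open Finset Filter Topology

variable {V : Type*} {G : SimpleGraph V} [G.LocallyFinite] {D : ℕ}

def IsHarm (G : SimpleGraph V) [G.LocallyFinite] (D : ℕ) (H : V → ℝ) : Prop :=
  ∀ x, avg G D H x = H x

def IsLip (G : SimpleGraph V) (L : ℝ) (H : V → ℝ) : Prop :=
  ∀ x y, G.Adj x y → |H x - H y| ≤ L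

lemma IsHarm.add {H H' : V → ℝ} (h1 : IsHarm G D H) (h2 : IsHarm G D H') :
    IsHarm G D (fun z => H z + H' z) := by
  intro x; rw [avg_add, h1, h2]

lemma IsHarm.smul {H : V → ℝ} (c : ℝ) (h1 : IsHarm G D H) : IsHarm G D (fun z => c * H z) := by
  intro x; rw [avg_mul_left, h1]

lemma IsLip.add {H H' : V → ℝ} {L L' : ℝ} (h1 : IsLip G L H) (h2 : IsLip G L' H') :
    IsLip G (L + L') (fun z => H z + H' z) := by
  intro x y hxy
  have e1 := h1 x y hxy
  have e2 := h2 x y hxy
  have : H x + H' x - (H y + H' y) = (H x - H y) + (H' x - H' y) := by ring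
  rw [this]
  exact (abs_add_le _ _).trans (add_le_add e1 e2)

lemma IsLip.smul {H : V → ℝ} {L : ℝ} (c : ℝ) (h1 : IsLip G L H) :
    IsLip G (|c| * L) (fun z => c * H z) := by
  intro x y hxy
  rw [← mul_sub, abs_mul]
  exact mul_le_mul_of_nonneg_left (h1 x y hxy) (abs_nonneg c)

/-- Lipschitz harmonic functions vanishing at `o`. -/
def HarmLip (G : SimpleGraph V) [G.LocallyFinite] (D : ℕ) (o : V) : Submodule ℝ (V → ℝ) where
  carrier := {H | IsHarm G D H ∧ (∃ L, IsLip G L H) ∧ H o = 0}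
  zero_mem' := by
    refine ⟨?_, ⟨0, ?_⟩, rfl⟩
    · intro x; unfold avg; simp
    · intro x y _; simp
  add_mem' := by
    rintro H H' ⟨h1, ⟨L, hL⟩, h3⟩ ⟨h1', ⟨L', hL'⟩, h3'⟩
    exact ⟨h1.add h1', ⟨L + L', hL.add hL'⟩, by simp [h3, h3']⟩
  smul_mem' := by
    rintro c H ⟨h1, ⟨L, hL⟩, h3⟩
    exact ⟨h1.smul c, ⟨|c| * L, hL.smul c⟩, by simp [h3]⟩

/-- gradient inner product -/
noncomputable def gi (G : SimpleGraph V) [G.LocallyFinite] (D : ℕ) (H H' : V → ℝ) (x : V) : ℝ :=
  (∑ y ∈ G.neighborFinset x, (H y - H x) * (H' y - H' x)) / D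

lemma gi_self (H : V → ℝ) : gi G D H H = grad2 G D H := by
  funext x
  unfold gi grad2
  congr 1
  exact Finset.sum_congr rfl fun y _ => by ring

lemma gi_bound (h : Nice G D) {H H' : V → ℝ} {L L' : ℝ} (hL : IsLip G L H) (hL' : IsLip G L' H')
    (x : V) : |gi G D H H' x| ≤ L * L' := by
  have hD : (0 : ℝ) < D := by exact_mod_cast h.pos
  unfold gi
  rw [abs_div, abs_of_pos hD, div_le_iff₀ hD]
  refine (Finset.abs_sum_le_sum_abs _ _).trans ?_
  have : ∀ y ∈ G.neighborFinset x, |(H y - H x) * (H' y - H' x)| ≤ L * L' := by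
    intro y hy
    have hadj : G.Adj x y := by simpa using hy
    rw [abs_mul]
    have e1 := hL y x hadj.symm
    have e2 := hL' y x hadj.symm
    exact mul_le_mul e1 e2 (abs_nonneg _) ((abs_nonneg _).trans e1)
  refine (Finset.sum_le_sum this).trans ?_
  rw [Finset.sum_const, h.deg x, nsmul_eq_mul]
  linarith

lemma mn_add (h : Nice G D) (U : Ultrafilter ℕ) {F F' : V → ℝ} {C C' : ℝ} (hF : ∀ z, |F z| ≤ C)
    (hF' : ∀ z, |F' z| ≤ C') (x : V) :
    mn G D U (fun z => F z + F' z) x = mn G D U F x + mn G D U F' x := by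
  have h1 := (mn_tendsto h U F C hF x).add (mn_tendsto h U F' C' hF' x)
  have h2 := mn_tendsto h U (fun z => F z + F' z) (C + C')
    (fun z => (abs_add_le _ _).trans (add_le_add (hF z) (hF' z))) x
  refine tendsto_nhds_unique h2 ?_
  refine h1.congr fun k => ?_
  rw [ces_add]

lemma mn_smul (h : Nice G D) (U : Ultrafilter ℕ) (c : ℝ) {F : V → ℝ} {C : ℝ} (hF : ∀ z, |F z| ≤ C)
    (x : V) : mn G D U (fun z => c * F z) x = c * mn G D U F x := by
  have h1 := (mn_tendsto h U F C hF x).const_mul c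
  have h2 := mn_tendsto h U (fun z => c * F z) (|c| * C)
    (fun z => by rw [abs_mul]; exact mul_le_mul_of_nonneg_left (hF z) (abs_nonneg c)) x
  refine tendsto_nhds_unique h2 ?_
  refine h1.congr fun k => ?_
  rw [ces_mul_left]

/-- the bilinear form -/
noncomputable def Bf (h : Nice G D) (U : Ultrafilter ℕ) (o : V) :
    LinearMap.BilinForm ℝ (HarmLip G D o) :=
  LinearMap.mk₂ ℝ (fun H H' => mn G D U (gi G D H.1 H'.1) o)
    (by
      rintro ⟨H, hH1, ⟨L, hL⟩, hH3⟩ ⟨H', hH1', ⟨L', hL'⟩, hH3'⟩ ⟨K, hK1, ⟨M, hM⟩, hK3⟩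
      change mn G D U (gi G D (fun z => H z + H' z) K) o = mn G D U (gi G D H K) o +
        mn G D U (gi G D H' K) o
      rw [← mn_add h U (gi_bound h hL hM) (gi_bound h hL' hM)]
      congr 1
      funext x
      unfold gi
      rw [← add_div, ← Finset.sum_add_distrib]
      congr 1
      exact Finset.sum_congr rfl fun y _ => by ring)
    (by
      rintro c ⟨H, hH1, ⟨L, hL⟩, hH3⟩ ⟨K, hK1, ⟨M, hM⟩, hK3⟩
      change mn G D U (gi G D (fun z => c * H z) K) o = c * mn G D U (gi G D H K) o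
      rw [← mn_smul h U c (gi_bound h hL hM)]
      congr 1
      funext x
      unfold gi
      rw [← mul_div_assoc, Finset.mul_sum]
      congr 1
      exact Finset.sum_congr rfl fun y _ => by ring)
    (by
      rintro ⟨K, hK1, ⟨M, hM⟩, hK3⟩ ⟨H, hH1, ⟨L, hL⟩, hH3⟩ ⟨H', hH1', ⟨L', hL'⟩, hH3'⟩
      change mn G D U (gi G D K (fun z => H z + H' z)) o = mn G D U (gi G D K H) o +
        mn G D U (gi G D K H') o
      rw [← mn_add h U (gi_bound h hM hL) (gi_bound h hM hL')]
      congr 1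
      funext x
      unfold gi
      rw [← add_div, ← Finset.sum_add_distrib]
      congr 1
      exact Finset.sum_congr rfl fun y _ => by ring)
    (by
      rintro c ⟨K, hK1, ⟨M, hM⟩, hK3⟩ ⟨H, hH1, ⟨L, hL⟩, hH3⟩
      change mn G D U (gi G D K (fun z => c * H z)) o = c * mn G D U (gi G D K H) o
      rw [← mn_smul h U c (gi_bound h hM hL)]
      congr 1
      funext x
      unfold gi
      rw [← mul_div_assoc, Finset.mul_sum]
      congr 1
      exact Finset.sum_congr rfl fun y _ => by ring)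

lemma Bf_apply (h : Nice G D) (U : Ultrafilter ℕ) (o : V) (H H' : HarmLip G D o) :
    Bf h U o H H' = mn G D U (gi G D H.1 H'.1) o := rfl

/-- the constant -/
def cst (D : ℕ) : ℕ := 2 * (D + 1) * (2 * D + 2)

lemma grad2_le_Bf (h : Nice G D) (ht : Trans G) (o : V) (H : HarmLip G D o) (x : V) :
    grad2 G D H.1 x ≤ cst D * Bf h (uf h o) o H H := by
  obtain ⟨H, hH1, ⟨L, hL⟩, hH3⟩ := H
  rw [Bf_apply, gi_self]
  have hb : ∀ z, |grad2 G D H z| ≤ L * L := by
    intro z; rw [← gi_self]; exact gi_bound h hL hL z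
  have h1 := mn_const_pt h ht (uf h o) (uf_le_atTop h o) (grad2 G D H) _ hb o x
  rw [h1]
  have h2 := (mn_tendsto h (uf h o) (grad2 G D H) _ hb x).const_mul ((cst D : ℕ) : ℝ)
  refine ge_of_tendsto h2 ((uf_good h o).mono fun k hk => ?_)
  have h3 := good_estimate h ht o H hH1 k hk x
  have h4 : ((cst D : ℕ) : ℝ) = 2 * (D + 1) * (2 * D + 2) := by unfold cst; push_cast; ring
  rw [h4]
  exact h3

lemma Bf_nonneg (h : Nice G D) (U : Ultrafilter ℕ) (o : V) (H : HarmLip G D o) :
    0 ≤ Bf h U o H H := by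
  obtain ⟨H, hH1, ⟨L, hL⟩, hH3⟩ := H
  rw [Bf_apply, gi_self]
  have hb : ∀ z, |grad2 G D H z| ≤ L * L := by
    intro z; rw [← gi_self]; exact gi_bound h hL hL z
  refine ge_of_tendsto (mn_tendsto h U (grad2 G D H) _ hb o) (Eventually.of_forall fun k => ?_)
  have := ces_mono (G := G) (D := D) k (fun _ => 0) (grad2 G D H) (fun z => grad2_nonneg _ _) o
  rwa [ces_const h] at this

lemma Bf_pos (h : Nice G D) (ht : Trans G) (o : V) (H : HarmLip G D o) (hne : H ≠ 0) :
    0 < Bf h (uf h o) o H H := by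
  refine lt_of_le_of_ne (Bf_nonneg h _ o H) fun h0 => hne ?_
  have hz : ∀ x, grad2 G D H.1 x = 0 := by
    intro x
    have := grad2_le_Bf h ht o H x
    rw [← h0, mul_zero] at this
    exact le_antisymm this (grad2_nonneg _ _)
  apply Subtype.ext
  funext x
  rw [eq_of_grad2_zero h H.1 hz x o]
  exact H.2.2.2

lemma diff_sq_le (h : Nice G D) (H : V → ℝ) (x y : V) (hy : y ∈ G.neighborFinset x) :
    (H y - H x) ^ 2 ≤ D * grad2 G D H x := by
  have hD : (0 : ℝ) < D := by exact_mod_cast h.pos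
  unfold grad2
  rw [mul_div_cancel₀ _ hD.ne']
  exact Finset.single_le_sum (f := fun y => (H y - H x) ^ 2) (fun i _ => sq_nonneg _) hy

/-- Orthogonal bases for positive definite forms. -/
lemma exists_ortho {E : Type*} [AddCommGroup E] [Module ℝ E] [FiniteDimensional ℝ E]
    (B : LinearMap.BilinForm ℝ E) (hs : ∀ a b, B a b = B b a) :
    ∃ v : Module.Basis (Fin (Module.finrank ℝ E)) ℝ E, ∀ i j, i ≠ j → B (v i) (v j) = 0 := by
  have hinv : Invertible (2 : ℝ) := invertibleOfNonzero two_ne_zero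
  have hsymm : LinearMap.IsSymm B := ⟨fun a b => hs a b⟩
  obtain ⟨v, hv⟩ := LinearMap.BilinForm.exists_orthogonal_basis (K := ℝ) (V := E) (B := B) hsymm
  exact ⟨v, fun i j hij => hv hij⟩

lemma quad_sum {E : Type*} [AddCommGroup E] [Module ℝ E] (B : LinearMap.BilinForm ℝ E) {n : ℕ}
    (v : Fin n → E) (hort : ∀ i j, i ≠ j → B (v i) (v j) = 0) (c : Fin n → ℝ) :
    B (∑ i, c i • v i) (∑ i, c i • v i) = ∑ i, c i ^ 2 * B (v i) (v i) := by
  rw [LinearMap.BilinForm.sum_left]
  refine Finset.sum_congr rfl fun i _ => ?_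
  rw [LinearMap.BilinForm.sum_right, Finset.sum_eq_single i]
  · rw [LinearMap.BilinForm.smul_left, LinearMap.BilinForm.smul_right]
    ring
  · intro j _ hji
    rw [LinearMap.BilinForm.smul_left, LinearMap.BilinForm.smul_right, hort i j hji.symm]
    ring
  · intro hi; exact absurd (Finset.mem_univ i) hi

theorem card_bound (h : Nice G D) (ht : Trans G) (o : V) (n : ℕ) (v : Fin n → HarmLip G D o)
    (hort : ∀ i j, i ≠ j → Bf h (uf h o) o (v i) (v j) = 0) (hne : ∀ i, v i ≠ 0) :
    n ≤ D * cst D := by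
  have hD : (0 : ℝ) < D := by exact_mod_cast h.pos
  obtain ⟨β, hβdef⟩ : ∃ β : Fin n → ℝ, ∀ i, β i = Bf h (uf h o) o (v i) (v i) :=
    ⟨_, fun i => rfl⟩
  have hβ : ∀ i, 0 < β i := fun i => by
    rw [hβdef]; exact Bf_pos h ht o (v i) (hne i)
  -- the pointwise bound
  have hpt : ∀ x, ∀ y ∈ G.neighborFinset x,
      ∑ i, ((v i).1 y - (v i).1 x) ^ 2 / β i ≤ D * cst D := by
    intro x y hy
    obtain ⟨a, ha⟩ : ∃ a : Fin n → ℝ, ∀ i, a i = (v i).1 y - (v i).1 x := ⟨_, fun i => rfl⟩
    obtain ⟨Hh, hHh⟩ : ∃ Hh : HarmLip G D o, Hh = ∑ i, (a i / β i) • v i := ⟨_, rfl⟩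
    obtain ⟨s, hs⟩ : ∃ s : ℝ, s = ∑ i, a i ^ 2 / β i := ⟨_, rfl⟩
    have hev : ∀ z, Hh.1 z = ∑ i, (a i / β i) * (v i).1 z := by
      intro z
      rw [hHh, AddSubmonoidClass.coe_finsetSum, Finset.sum_apply]
      rfl
    have hdiff : Hh.1 y - Hh.1 x = s := by
      rw [hev, hev, hs, ← Finset.sum_sub_distrib]
      refine Finset.sum_congr rfl fun i _ => ?_
      rw [ha]
      ring
    have hBB : Bf h (uf h o) o Hh Hh = s := by
      rw [hHh, quad_sum _ v hort, hs]
      refine Finset.sum_congr rfl fun i _ => ?_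
      rw [← hβdef]
      have := (hβ i).ne'
      field_simp
    have h1 := diff_sq_le h Hh.1 x y hy
    have h2 := grad2_le_Bf h ht o Hh x
    rw [hdiff] at h1
    rw [hBB] at h2
    have hs0 : 0 ≤ s := by
      rw [hs]; exact Finset.sum_nonneg fun i _ => div_nonneg (sq_nonneg _) (hβ i).le
    have h4 : s ^ 2 ≤ D * (cst D * s) := h1.trans (mul_le_mul_of_nonneg_left h2 hD.le)
    have e0 : ∑ i, ((v i).1 y - (v i).1 x) ^ 2 / β i = s := by
      rw [hs]; exact Finset.sum_congr rfl fun i _ => by rw [ha]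
    rw [e0]
    rcases hs0.eq_or_lt with h5 | h5
    · rw [← h5]; positivity
    · have : s * s ≤ (D * cst D) * s := by nlinarith
      exact le_of_mul_le_mul_right this h5
  have hgr : ∀ x, ∑ i, grad2 G D (v i).1 x / β i ≤ D * cst D := by
    intro x
    have e1 : ∑ i, grad2 G D (v i).1 x / β i =
        (∑ y ∈ G.neighborFinset x, ∑ i, ((v i).1 y - (v i).1 x) ^ 2 / β i) / D := by
      rw [Finset.sum_comm, Finset.sum_div]
      refine Finset.sum_congr rfl fun i _ => ?_
      unfold grad2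
      rw [← Finset.sum_div]
      ring
    rw [e1, div_le_iff₀ hD]
    refine (Finset.sum_le_sum (hpt x)).trans ?_
    rw [Finset.sum_const, h.deg x, nsmul_eq_mul]
    linarith
  -- take the mean
  have hten : Tendsto (fun k => ∑ i, ces G D k (grad2 G D (v i).1) o / β i)
      (uf h o : Filter ℕ) (𝓝 (∑ i, β i / β i)) := by
    apply tendsto_finsetSum
    intro i _
    apply Tendsto.div_const
    obtain ⟨L, hL⟩ := (v i).2.2.1
    have hb : ∀ z, |grad2 G D (v i).1 z| ≤ L * L := by
      intro z; rw [← gi_self]; exact gi_bound h hL hL z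
    have := mn_tendsto h (uf h o) (grad2 G D (v i).1) _ hb o
    rw [hβdef, Bf_apply, gi_self]
    exact this
  have hle : ∑ i, β i / β i ≤ D * cst D := by
    refine le_of_tendsto hten (Eventually.of_forall fun k => ?_)
    have e1 : ∑ i, ces G D k (grad2 G D (v i).1) o / β i =
        ces G D k (fun z => ∑ i, grad2 G D (v i).1 z / β i) o := by
      unfold ces
      rw [eq_div_iff (by positivity), Finset.sum_mul]
      have e2 : ∀ j ∈ Finset.range (k + 1), avgI G D j (fun z => ∑ i, grad2 G D (v i).1 z / β i) o =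
          ∑ i, avgI G D j (grad2 G D (v i).1) o / β i := by
        intro j _
        rw [← sum_ker h j _ o (bl h o j) (fun z hz => (mem_bl h o z j).2 hz)]
        simp_rw [Finset.mul_sum]
        rw [Finset.sum_comm]
        refine Finset.sum_congr rfl fun i _ => ?_
        rw [← sum_ker h j _ o (bl h o j) (fun z hz => (mem_bl h o z j).2 hz), Finset.sum_div]
        exact Finset.sum_congr rfl fun z _ => by ring
      rw [Finset.sum_congr rfl e2, Finset.sum_comm]
      refine Finset.sum_congr rfl fun i _ => ?_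
      rw [← Finset.sum_div]
      have : (k : ℝ) + 1 ≠ 0 := by positivity
      field_simp
    rw [e1]
    have := ces_mono (G := G) (D := D) k _ (fun _ => (D : ℝ) * cst D) hgr o
    rwa [ces_const h] at this
  have hsum : ∑ i, β i / β i = n := by
    have : ∀ i ∈ (Finset.univ : Finset (Fin n)), β i / β i = 1 := by
      intro i _
      exact div_self (hβ i).ne'
    rw [Finset.sum_congr rfl this]
    simp
  rw [hsum] at hle
  exact_mod_cast hle

lemma Bf_symm (h : Nice G D) (U : Ultrafilter ℕ) (o : V) (H H' : HarmLip G D o) :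
    Bf h U o H H' = Bf h U o H' H := by
  rw [Bf_apply, Bf_apply]
  congr 1
  funext x
  unfold gi
  congr 1
  exact Finset.sum_congr rfl fun y _ => by ring

theorem finrank_bound (h : Nice G D) (ht : Trans G) (o : V) (F : Submodule ℝ (HarmLip G D o))
    [FiniteDimensional ℝ F] : Module.finrank ℝ F ≤ D * cst D := by
  obtain ⟨v, hv⟩ := exists_ortho ((Bf h (uf h o) o).restrict F)
    (fun (a b : F) => Bf_symm h _ o a.1 b.1)
  refine card_bound h ht o _ (fun i => (v i).1) (fun i j hij => hv i j hij) (fun i h0 => ?_)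
  exact v.ne_zero i (Subtype.ext h0)

theorem finiteDimensional (h : Nice G D) (ht : Trans G) (o : V) :
    FiniteDimensional ℝ (HarmLip G D o) := by
  rw [FiniteDimensional, ← Module.rank_lt_aleph0_iff]
  refine lt_of_le_of_lt (rank_le (n := D * cst D) ?_) (Cardinal.natCast_lt_aleph0)
  intro s hs
  have h1 := finrank_span_finset_eq_card (R := ℝ) (s := s) hs
  rw [← h1]
  exact finrank_bound h ht o (Submodule.span ℝ (s : Set (HarmLip G D o)))

end Pool.Agent.H80.ORC
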