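import Pool.Agent.H80.ORC.Defs

/-!
# From non-negative curvature to perfect matchings
-/

set_option autoImplicit false

namespace Pool.Agent.H80.ORC

open Finset

variable {V : Type*} (G : SimpleGraph V) [G.LocallyFinite]

lemma stepLaw_nonneg (x y : V) : 0 ≤ stepLaw G x y := by
  unfold stepLaw
  split_ifs <;> positivity

lemma stepLaw_of_notMem {x y : V} (h : y ∉ G.neighborFinset x) : stepLaw G x y = 0 := by
  unfold stepLaw
  rw [if_neg]
  simpa using h

lemma stepLaw_of_mem {D : ℕ} {x y : V} (hD : G.degree x = D) (h : y ∈ G.neighborFinset x) :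
    stepLaw G x y = 1 / (D : ℝ) := by
  unfold stepLaw
  rw [if_pos (by simpa using h), hD]

lemma hasSum_stepLaw {D : ℕ} (hpos : 0 < D) {x : V} (hD : G.degree x = D) :
    HasSum (stepLaw G x) 1 := by
  have h1 : HasSum (stepLaw G x) (∑ y ∈ G.neighborFinset x, stepLaw G x y) :=
    hasSum_sum_of_ne_finset_zero fun y hy => stepLaw_of_notMem G hy
  have h2 : ∑ y ∈ G.neighborFinset x, stepLaw G x y = 1 := by
    rw [Finset.sum_congr rfl (fun y hy => stepLaw_of_mem G hD hy), Finset.sum_const,
      SimpleGraph.card_neighborFinset_eq_degree, hD]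
    have : (D : ℝ) ≠ 0 := by positivity
    simp [this]
  rwa [h2] at h1

lemma exists_coupling {D : ℕ} (hpos : 0 < D) (x y : V) (hx : G.degree x = D) (hy : G.degree y = D) :
    ∃ c : ℝ, ∃ π : V × V → ℝ, IsCoupling (stepLaw G x) (stepLaw G y) π ∧
      HasSum (fun p : V × V => π p * (G.dist p.1 p.2 : ℝ)) c := by
  refine ⟨∑ p ∈ G.neighborFinset x ×ˢ G.neighborFinset y,
    stepLaw G x p.1 * stepLaw G y p.2 * (G.dist p.1 p.2 : ℝ),
    fun p => stepLaw G x p.1 * stepLaw G y p.2, ⟨?_, ?_, ?_⟩, ?_⟩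
  · exact fun p => mul_nonneg (stepLaw_nonneg G _ _) (stepLaw_nonneg G _ _)
  · intro a
    have := (hasSum_stepLaw G hpos hy).mul_left (stepLaw G x a)
    simpa using this
  · intro b
    have := (hasSum_stepLaw G hpos hx).mul_right (stepLaw G y b)
    simpa using this
  · apply hasSum_sum_of_ne_finset_zero (s := G.neighborFinset x ×ˢ G.neighborFinset y)
    intro p hp
    rw [Finset.mem_product, not_and_or] at hp
    rcases hp with hp | hp
    · simp only [stepLaw_of_notMem G hp, zero_mul]
    · simp only [stepLaw_of_notMem G hp, mul_zero, zero_mul]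

lemma matching_of_coupling {D : ℕ} (hpos : 0 < D) (x y : V) (hx : G.degree x = D)
    (hy : G.degree y = D) (c : ℝ) (π : V × V → ℝ) (hπ : IsCoupling (stepLaw G x) (stepLaw G y) π)
    (hc : HasSum (fun p : V × V => π p * (G.dist p.1 p.2 : ℝ)) c) :
    ∃ σ : V → V, Set.BijOn σ (G.neighborFinset x) (G.neighborFinset y) ∧
      ((∑ a ∈ G.neighborFinset x, G.dist a (σ a) : ℕ) : ℝ) ≤ D * c := by
  classical
  obtain ⟨h0, hrow, hcol⟩ := hπ
  have hDR : (D : ℝ) ≠ 0 := by positivity
  -- vanishing outside the neighbourhoods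
  have hz1 : ∀ a b, a ∉ G.neighborFinset x → π (a, b) = 0 := by
    intro a b ha
    have h1 := hrow a
    rw [stepLaw_of_notMem G ha] at h1
    have := (hasSum_zero_iff_of_nonneg (fun b => h0 (a, b))).1 h1
    exact congrFun this b
  have hz2 : ∀ a b, b ∉ G.neighborFinset y → π (a, b) = 0 := by
    intro a b hb
    have h1 := hcol b
    rw [stepLaw_of_notMem G hb] at h1
    have := (hasSum_zero_iff_of_nonneg (fun a => h0 (a, b))).1 h1
    exact congrFun this a
  have hcard : (G.neighborFinset x).card = (G.neighborFinset y).card := by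
    rw [SimpleGraph.card_neighborFinset_eq_degree, SimpleGraph.card_neighborFinset_eq_degree, hx, hy]
  let e : {a // a ∈ G.neighborFinset x} ≃ {b // b ∈ G.neighborFinset y} :=
    Finset.equivOfCardEq hcard
  let M : Matrix {a // a ∈ G.neighborFinset x} {a // a ∈ G.neighborFinset x} ℝ :=
    fun a a' => D * π (a.1, (e a').1)
  have hsumrow : ∀ a ∈ G.neighborFinset x, ∑ b ∈ G.neighborFinset y, π (a, b) = 1 / D := by
    intro a ha
    have h1 : HasSum (fun b => π (a, b)) (∑ b ∈ G.neighborFinset y, π (a, b)) :=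
      hasSum_sum_of_ne_finset_zero fun b hb => hz2 a b hb
    rw [h1.unique (hrow a), stepLaw_of_mem G hx ha]
  have hsumcol : ∀ b ∈ G.neighborFinset y, ∑ a ∈ G.neighborFinset x, π (a, b) = 1 / D := by
    intro b hb
    have h1 : HasSum (fun a => π (a, b)) (∑ a ∈ G.neighborFinset x, π (a, b)) :=
      hasSum_sum_of_ne_finset_zero fun a ha => hz1 a b ha
    rw [h1.unique (hcol b), stepLaw_of_mem G hy hb]
  have hM : M ∈ doublyStochastic ℝ {a // a ∈ G.neighborFinset x} := by
    rw [mem_doublyStochastic_iff_sum]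
    refine ⟨?_, ?_, ?_⟩
    · intro a a'
      exact mul_nonneg (by positivity) (h0 _)
    · intro a
      have h1 : ∑ a', M a a' = D * ∑ b : {b // b ∈ G.neighborFinset y}, π (a.1, b.1) := by
        rw [Finset.mul_sum]
        exact Fintype.sum_equiv e _ _ (fun a' => rfl)
      rw [h1, Finset.sum_coe_sort (G.neighborFinset y) (fun b => π (a.1, b)), hsumrow a.1 a.2]
      field_simp
    · intro a'
      have h1 : ∑ a, M a a' = D * ∑ a : {a // a ∈ G.neighborFinset x}, π (a.1, (e a').1) := by
        rw [Finset.mul_sum]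
      rw [h1, Finset.sum_coe_sort (G.neighborFinset x) (fun a => π (a, (e a').1)),
        hsumcol _ (e a').2]
      field_simp
  obtain ⟨w, hw0, hw1, hwM⟩ := exists_eq_sum_perm_of_mem_doublyStochastic hM
  -- cost
  let cost : {a // a ∈ G.neighborFinset x} → {a // a ∈ G.neighborFinset x} → ℝ :=
    fun a a' => (G.dist a.1 (e a').1 : ℝ)
  have hcost : ∑ a, ∑ a', M a a' * cost a a' = D * c := by
    have h1 : HasSum (fun p : V × V => π p * (G.dist p.1 p.2 : ℝ))
        (∑ p ∈ G.neighborFinset x ×ˢ G.neighborFinset y, π p * (G.dist p.1 p.2 : ℝ)) := by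
      apply hasSum_sum_of_ne_finset_zero
      intro p hp
      rw [Finset.mem_product, not_and_or] at hp
      rcases hp with hp | hp
      · rw [show π p = 0 from hz1 p.1 p.2 hp]; simp
      · rw [show π p = 0 from hz2 p.1 p.2 hp]; simp
    rw [hc.unique h1, Finset.sum_product, Finset.mul_sum]
    rw [← Finset.sum_coe_sort (G.neighborFinset x)]
    refine Finset.sum_congr rfl fun a _ => ?_
    rw [Finset.mul_sum, ← Finset.sum_coe_sort (G.neighborFinset y)]
    refine Fintype.sum_equiv e _ _ (fun a' => ?_)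
    simp only [M, cost]
    ring
  have hperm : ∑ τ : Equiv.Perm {a // a ∈ G.neighborFinset x}, w τ * (∑ a, cost a (τ a)) = D * c := by
    rw [← hcost]
    have : ∀ a a', M a a' = ∑ τ : Equiv.Perm {a // a ∈ G.neighborFinset x},
        w τ * (if τ a = a' then 1 else 0) := by
      intro a a'
      rw [← hwM, Matrix.sum_apply]
      refine Finset.sum_congr rfl fun τ _ => ?_
      rw [Matrix.smul_apply, smul_eq_mul]
      congr 1
      simp [Equiv.toPEquiv_apply]
    simp_rw [this, Finset.sum_mul]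
    have h2 : ∀ a, ∑ a', ∑ τ : Equiv.Perm {a // a ∈ G.neighborFinset x},
        w τ * (if τ a = a' then 1 else 0) * cost a a' =
        ∑ τ : Equiv.Perm {a // a ∈ G.neighborFinset x}, w τ * cost a (τ a) := by
      intro a
      rw [Finset.sum_comm]
      refine Finset.sum_congr rfl fun τ _ => ?_
      simp
    simp_rw [h2, Finset.mul_sum]
    rw [Finset.sum_comm]
  -- some permutation has cost at most the average
  obtain ⟨τ, hτ⟩ : ∃ τ : Equiv.Perm {a // a ∈ G.neighborFinset x}, ∑ a, cost a (τ a) ≤ D * c := by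
    by_contra hcon
    push Not at hcon
    have h1 : ∑ τ : Equiv.Perm {a // a ∈ G.neighborFinset x}, w τ * (D * c) <
        ∑ τ : Equiv.Perm {a // a ∈ G.neighborFinset x}, w τ * (∑ a, cost a (τ a)) := by
      apply Finset.sum_lt_sum
      · intro τ _
        exact mul_le_mul_of_nonneg_left (hcon τ).le (hw0 τ)
      · have : ∃ τ, 0 < w τ := by
          by_contra h
          push Not at h
          have : ∑ τ, w τ ≤ 0 := Finset.sum_nonpos fun τ _ => h τ
          rw [hw1] at this
          linarith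
        obtain ⟨τ, hτ⟩ := this
        exact ⟨τ, Finset.mem_univ _, mul_lt_mul_of_pos_left (hcon τ) hτ⟩
    rw [hperm, ← Finset.sum_mul, hw1, one_mul] at h1
    exact lt_irrefl _ h1
  -- build σ
  refine ⟨fun a => if h : a ∈ G.neighborFinset x then (e (τ ⟨a, h⟩)).1 else a, ?_, ?_⟩
  · refine ⟨?_, ?_, ?_⟩
    · intro a ha
      have ha' : a ∈ G.neighborFinset x := ha
      simp only [dif_pos ha']
      exact (e (τ ⟨a, ha'⟩)).2
    · intro a ha a' ha' h
      have h1 : a ∈ G.neighborFinset x := ha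
      have h2 : a' ∈ G.neighborFinset x := ha'
      simp only [dif_pos h1, dif_pos h2] at h
      have h3 := τ.injective (e.injective (Subtype.ext h))
      exact congrArg Subtype.val h3
    · intro b hb
      have hb' : b ∈ G.neighborFinset y := hb
      refine ⟨(τ.symm (e.symm ⟨b, hb'⟩)).1, (τ.symm (e.symm ⟨b, hb'⟩)).2, ?_⟩
      have h1 : (τ.symm (e.symm ⟨b, hb'⟩)).1 ∈ G.neighborFinset x := (τ.symm (e.symm ⟨b, hb'⟩)).2
      simp only [dif_pos h1]
      simp
  · push_cast
    refine le_trans (le_of_eq ?_) hτ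
    rw [← Finset.sum_coe_sort (G.neighborFinset x)]
    refine Finset.sum_congr rfl fun a _ => ?_
    simp only [cost, dif_pos a.2, Subtype.coe_eta]

theorem exists_matching {D : ℕ} (hpos : 0 < D) (x y : V) (hx : G.degree x = D)
    (hy : G.degree y = D) (hκ : 0 ≤ curvature G x y) :
    ∃ σ : V → V, Set.BijOn σ (G.neighborFinset x) (G.neighborFinset y) ∧
      ∑ a ∈ G.neighborFinset x, G.dist a (σ a) ≤ D := by
  have hDR : (0 : ℝ) < D := by exact_mod_cast hpos
  have hW : W1 G (stepLaw G x) (stepLaw G y) < 1 + 1 / D := by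
    unfold curvature at hκ
    have : (0 : ℝ) < 1 / D := by positivity
    linarith
  obtain ⟨c₀, hc₀⟩ := exists_coupling G hpos x y hx hy
  obtain ⟨c, ⟨π, hπ, hc⟩, hlt⟩ := exists_lt_of_csInf_lt ⟨c₀, hc₀⟩ hW
  obtain ⟨σ, hσ, hle⟩ := matching_of_coupling G hpos x y hx hy c π hπ hc
  refine ⟨σ, hσ, ?_⟩
  have h1 : ((∑ a ∈ G.neighborFinset x, G.dist a (σ a) : ℕ) : ℝ) < D + 1 := by
    refine lt_of_le_of_lt hle ?_
    have := mul_lt_mul_of_pos_left hlt hDR
    have h2 : (D : ℝ) * (1 + 1 / D) = D + 1 := by field_simp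
    linarith
  have h3 : (∑ a ∈ G.neighborFinset x, G.dist a (σ a) : ℕ) < D + 1 := by exact_mod_cast h1
  omega

end Pool.Agent.H80.ORC
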