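import Pool.Agent.H80.ORC.Homog
import Pool.Agent.H80.ORC.Matching

/-!
# The coordinate map is a quasi-isometry
-/

set_option autoImplicit false
set_option linter.unusedSectionVars false

namespace Pool.Agent.H80.ORC

open Finset Filter Topology

variable {V : Type*} {G : SimpleGraph V} [G.LocallyFinite] {D : ℕ} {d : ℕ} {H : Fin d → V → ℝ}
  {T : Fin d → Bool → V → V → Prop}

lemma isLip_dist (h : Nice G D) (x : V) : IsLip G 1 (fun z => (G.dist x z : ℝ)) := by
  intro a b hab
  have h1 : G.dist x a ≤ G.dist x b + G.dist b a := h.conn.dist_triangle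
  have h2 : G.dist x b ≤ G.dist x a + G.dist a b := h.conn.dist_triangle
  have h3 : G.dist a b = 1 := SimpleGraph.dist_eq_one_iff_adj.2 hab
  have h4 : G.dist b a = 1 := SimpleGraph.dist_eq_one_iff_adj.2 hab.symm
  rw [h3] at h2
  rw [h4] at h1
  have h1' : (G.dist x a : ℝ) ≤ G.dist x b + 1 := by exact_mod_cast h1
  have h2' : (G.dist x b : ℝ) ≤ G.dist x a + 1 := by exact_mod_cast h2
  rw [abs_le]
  constructor <;> linarith

theorem dist_bound (h : Nice G D) (ht : Trans G) (hC : Coord G D d H T) :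
    ∃ C : ℝ, 0 ≤ C ∧ ∀ x y, (G.dist x y : ℝ) ≤ 2 * ∑ j, |H j y - H j x| + C := by
  obtain ⟨L, hL0, hL⟩ := hC.lip
  obtain ⟨R', hR'⟩ := blk_shadow h hC (List.finRange d) 1 (L + 1)
  set R := ⌈R'⌉₊ with hR
  obtain ⟨ε, hεdef⟩ : ∃ ε : ℝ, ε = 1 / (2 * (1 + 3 * d)) := ⟨_, rfl⟩
  have hε : 0 < ε := by rw [hεdef]; positivity
  have hεd : ε * (1 + 3 * d) = 1 / 2 := by rw [hεdef]; field_simp
  obtain ⟨K, hK⟩ := homog h ht ε hε (R + 1)
  refine ⟨4 * d + 4 * K, by positivity, fun x y => ?_⟩
  set F : V → ℝ := fun z => (G.dist x z : ℝ) with hFdef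
  have hF : IsLip G 1 F := isLip_dist h x
  obtain ⟨A, hA⟩ : ∃ A : V → ℝ, A = ces G D K F := ⟨_, rfl⟩
  have hAL : IsLip G 1 A := by rw [hA]; exact hF.ces h zero_le_one K
  have hAF : ∀ z, |A z - F z| ≤ K := by
    intro z; rw [hA]
    have := hF.ces_sub h zero_le_one K z
    rwa [one_mul] at this
  choose Hz hz1 hz2 hz3 using hK F hF
  rw [← hA] at hz3
  choose a ha using fun z => hC.rep (Hz z) (hz1 z) ⟨1, hz2 z⟩
  -- following a type `j` edge
  have hedge : ∀ z z' z'' j, T j true z' z'' → Hz z z'' - Hz z z' = a z j := by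
    intro z z' z'' j hT
    rw [ha z z' z'']
    rw [Finset.sum_eq_single j]
    · rw [hC.inc j true z' z'' hT j]; simp
    · intro i _ hij
      rw [hC.inc j true z' z'' hT i, if_neg hij, mul_zero]
    · intro hj; exact absurd (Finset.mem_univ j) hj
  have ha1 : ∀ z j, |a z j| ≤ 1 := by
    intro z j
    obtain ⟨z', hz'⟩ := hC.out j true z
    rw [← hedge z z z' j hz']
    exact hz2 z z' z (hC.adj j true z z' hz').symm
  have hslope : ∀ z z' j, G.dist z z' ≤ R → |a z j - a z' j| ≤ 3 * ε := by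
    intro z z' j hzz
    obtain ⟨z'', hT⟩ := hC.out j true z'
    have e1 := hedge z z' z'' j hT
    have e2 := hedge z' z' z'' j hT
    have hadj : G.dist z' z'' = 1 := SimpleGraph.dist_eq_one_iff_adj.2 (hC.adj j true z' z'' hT)
    have hd : G.dist z z'' ≤ G.dist z z' + G.dist z' z'' := h.conn.dist_triangle
    have f1 := abs_le.1 (hz3 z z'' (by omega))
    have f2 := abs_le.1 (hz3 z z' (by omega))
    have f3 := abs_le.1 (hz3 z' z'' (by omega))
    rw [abs_le]
    constructor <;> linarith [f1.1, f1.2, f2.1, f2.2, f3.1, f3.2]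
  obtain ⟨Φ, hΦ⟩ : ∃ Φ : V → ℝ, ∀ z, Φ z = A z - ∑ j, a z j * (H j z - H j x) := ⟨_, fun z => rfl⟩
  have hΦstep : ∀ z z', G.dist z z' ≤ R → (∀ j, |H j z' - H j x| ≤ 1) → |Φ z' - Φ z| ≤ 1 / 2 := by
    intro z z' hzz hb
    have e1 : Φ z' - Φ z = (A z' - A z - (Hz z z' - Hz z z)) +
        ∑ j, (a z j - a z' j) * (H j z' - H j x) := by
      rw [hΦ, hΦ, ha z z z']
      have : ∑ j, a z' j * (H j z' - H j x) = ∑ j, a z j * (H j z - H j x) +
          ∑ j, a z j * (H j z' - H j z) - ∑ j, (a z j - a z' j) * (H j z' - H j x) := by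
        rw [← Finset.sum_add_distrib, ← Finset.sum_sub_distrib]
        exact Finset.sum_congr rfl fun j _ => by ring
      rw [this]
      ring
    have e2 : |∑ j, (a z j - a z' j) * (H j z' - H j x)| ≤ d * (3 * ε) := by
      refine (Finset.abs_sum_le_sum_abs _ _).trans ?_
      have : ∀ j ∈ (Finset.univ : Finset (Fin d)), |(a z j - a z' j) * (H j z' - H j x)| ≤ 3 * ε := by
        intro j _
        rw [abs_mul]
        have := mul_le_mul (hslope z z' j hzz) (hb j) (abs_nonneg _) (by positivity)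
        linarith
      refine (Finset.sum_le_sum this).trans ?_
      rw [Finset.sum_const, Finset.card_univ, Fintype.card_fin, nsmul_eq_mul]
    have e3 := hz3 z z' (by omega)
    rw [e1, ← hεd]
    refine (abs_add_le _ _).trans ?_
    linarith
  -- the inductive construction
  have key : ∀ (n : ℕ) (z : V), G.dist x z = n → ∃ r,
      Blk T (fun j => round (H j x - H j z)) (List.finRange d) z r ∧ |Φ r - Φ x| ≤ n / 2 := by
    intro n
    induction n with
    | zero =>
      intro z hz
      have : x = z := (h.conn.dist_eq_zero_iff).1 hz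
      subst this
      refine ⟨x, ?_, by simp⟩
      have e : (fun j => round (H j x - H j x)) = fun _ : Fin d => (0 : ℤ) := by
        funext j; simp
      rw [e]
      exact blk_zero _ x
    | succ n ih =>
      intro z hz
      rw [SimpleGraph.dist_comm] at hz
      obtain ⟨w, hw, hwx⟩ := exists_first_step h.conn hz
      rw [SimpleGraph.dist_comm] at hwx
      have hzw : G.Adj z w := by simpa using hw
      obtain ⟨r, hr, hΦr⟩ := ih w hwx
      obtain ⟨r', hr', hd⟩ := hR' (fun j => round (H j x - H j w)) (fun j => round (H j x - H j z))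
        (by
          intro j
          have e1 := abs_le.1 (abs_sub_round (H j x - H j w))
          have e2 := abs_le.1 (abs_sub_round (H j x - H j z))
          have e3 := abs_le.1 (hL j z w hzw)
          rw [abs_le]
          constructor <;> linarith [e1.1, e1.2, e2.1, e2.2, e3.1, e3.2]) w z r
        (by rw [dist_of_mem' hw]; simp) hr
      refine ⟨r', hr', ?_⟩
      have e1 : G.dist r r' ≤ R := by
        have : (G.dist r r' : ℝ) ≤ R := hd.trans (Nat.le_ceil R')
        exact_mod_cast this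
      have e2 : ∀ j, |H j r' - H j x| ≤ 1 := by
        intro j
        have f1 := blk_inc' hC hr' j
        have f2 := abs_le.1 (abs_sub_round (H j x - H j z))
        rw [abs_le]
        constructor <;> linarith [f2.1, f2.2]
      have e3 := hΦstep r r' e1 e2
      have e4 : Φ r' - Φ x = (Φ r' - Φ r) + (Φ r - Φ x) := by ring
      rw [e4]
      refine (abs_add_le _ _).trans ?_
      push_cast
      linarith
  obtain ⟨r, hr, hΦr⟩ := key _ y rfl
  have e1 : ∀ j, |H j r - H j x| ≤ 1 := by
    intro j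
    have f1 := blk_inc' hC hr j
    have f2 := abs_le.1 (abs_sub_round (H j x - H j y))
    rw [abs_le]
    constructor <;> linarith [f2.1, f2.2]
  have e2 : |∑ j, a r j * (H j r - H j x)| ≤ d := by
    refine (Finset.abs_sum_le_sum_abs _ _).trans ?_
    have : ∀ j ∈ (Finset.univ : Finset (Fin d)), |a r j * (H j r - H j x)| ≤ 1 := by
      intro j _
      rw [abs_mul]
      have := mul_le_mul (ha1 r j) (e1 j) (abs_nonneg _) zero_le_one
      linarith
    refine (Finset.sum_le_sum this).trans ?_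
    rw [Finset.sum_const, Finset.card_univ, Fintype.card_fin, nsmul_eq_mul, mul_one]
  have e3 : Φ x = A x := by
    rw [hΦ]; simp
  have e4 : (G.dist y r : ℝ) ≤ ∑ j, |H j y - H j x| + d := by
    refine (blk_dist' h hC hr).trans ?_
    have : ∀ j ∈ (Finset.univ : Finset (Fin d)), |((round (H j x - H j y) : ℤ) : ℝ)| ≤
        |H j y - H j x| + 1 := by
      intro j _
      have f1 := abs_sub_round (H j x - H j y)
      have f2 : ((round (H j x - H j y) : ℤ) : ℝ) =
        (H j x - H j y) - (H j x - H j y - round (H j x - H j y)) := by ring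
      rw [f2]
      refine (abs_sub _ _).trans ?_
      rw [abs_sub_comm (H j x) (H j y)]
      linarith
    refine (Finset.sum_le_sum this).trans ?_
    rw [Finset.sum_add_distrib, Finset.sum_const, Finset.card_univ, Fintype.card_fin, nsmul_eq_mul,
      mul_one]
  have e5 := hAL.dist_le h.conn y r
  rw [one_mul] at e5
  have e6 := abs_le.1 (hAF x)
  have e7 := abs_le.1 (hAF y)
  have e8 := abs_le.1 e5
  have e9 := abs_le.1 hΦr
  have e10 := abs_le.1 e2
  have e11 := hΦ r
  have hFx : F x = 0 := by simp [hFdef]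
  have hFy : F y = G.dist x y := rfl
  rw [e3] at e9
  rw [hFx] at e6
  rw [hFy] at e7
  linarith [e6.1, e6.2, e7.1, e7.2, e8.1, e8.2, e9.1, e9.2, e10.1, e10.2]

theorem quasi (h : Nice G D) (ht : Trans G) :
    ∃ d : ℕ, ∃ f : V → (Fin d → ℤ),
      IsQuasiIsometry (fun x y => (G.dist x y : ℝ)) (fun a b => ∑ i, |(a i : ℝ) - b i|) f := by
  obtain ⟨d, H, T, hC⟩ := exists_coord h ht
  obtain ⟨L, hL0, hL⟩ := hC.lip
  obtain ⟨C, hC0, hdist⟩ := dist_bound h ht hC
  refine ⟨d, fun x j => ⌊H j x⌋, 2 + d * L, C + d, ?_, by positivity, ?_, ?_⟩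
  · have : (0 : ℝ) ≤ d * L := by positivity
    linarith
  · intro x x'
    have hfl : ∀ j, |H j x' - H j x| - 1 ≤ |((⌊H j x⌋ : ℤ) : ℝ) - (⌊H j x'⌋ : ℤ)| ∧
        |((⌊H j x⌋ : ℤ) : ℝ) - (⌊H j x'⌋ : ℤ)| ≤ |H j x' - H j x| + 1 := by
      intro j
      have f1 := Int.floor_le (H j x)
      have f2 := Int.lt_floor_add_one (H j x)
      have f3 := Int.floor_le (H j x')
      have f4 := Int.lt_floor_add_one (H j x')
      constructor
      · rw [sub_le_iff_le_add]
        rw [abs_le]
        have g1 := le_abs_self (((⌊H j x⌋ : ℤ) : ℝ) - (⌊H j x'⌋ : ℤ))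
        have g2 := neg_abs_le (((⌊H j x⌋ : ℤ) : ℝ) - (⌊H j x'⌋ : ℤ))
        constructor <;> linarith
      · rw [abs_le]
        have g1 := le_abs_self (H j x' - H j x)
        have g2 := neg_abs_le (H j x' - H j x)
        constructor <;> linarith
    have hLd : ∀ j, |H j x' - H j x| ≤ L * G.dist x x' := by
      intro j
      rw [abs_sub_comm]
      exact (hL j).dist_le h.conn x x'
    have h1 := hdist x x'
    have h2 : ∑ j, |H j x' - H j x| - d ≤ ∑ j, |((⌊H j x⌋ : ℤ) : ℝ) - (⌊H j x'⌋ : ℤ)| := by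
      have := Finset.sum_le_sum (s := Finset.univ) fun j _ => (hfl j).1
      rw [Finset.sum_sub_distrib, Finset.sum_const, Finset.card_univ, Fintype.card_fin,
        nsmul_eq_mul, mul_one] at this
      exact this
    have h3 : ∑ j, |((⌊H j x⌋ : ℤ) : ℝ) - (⌊H j x'⌋ : ℤ)| ≤ d * (L * G.dist x x') + d := by
      have := Finset.sum_le_sum (s := Finset.univ) fun j _ =>
        (hfl j).2.trans (add_le_add_left (hLd j) 1)
      refine this.trans ?_
      rw [Finset.sum_add_distrib, Finset.sum_const, Finset.sum_const, Finset.card_univ,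
        Fintype.card_fin, nsmul_eq_mul, nsmul_eq_mul, mul_one]
    have hd0 : (0 : ℝ) ≤ G.dist x x' := Nat.cast_nonneg _
    have hdL : (0 : ℝ) ≤ d * L := by positivity
    constructor
    · have h4 : (G.dist x x' : ℝ) / (2 + d * L) ≤ G.dist x x' / 2 :=
        div_le_div_of_nonneg_left hd0 (by norm_num) (by linarith)
      have hd0' : (0 : ℝ) ≤ d := Nat.cast_nonneg _
      change (G.dist x x' : ℝ) / (2 + d * L) - (C + d) ≤ ∑ j, |((⌊H j x⌋ : ℤ) : ℝ) - (⌊H j x'⌋ : ℤ)|
      linarith
    · change ∑ j, |((⌊H j x⌋ : ℤ) : ℝ) - (⌊H j x'⌋ : ℤ)| ≤ (2 + d * L) * G.dist x x' + (C + d)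
      nlinarith
  · intro y
    obtain ⟨o⟩ := h.conn.nonempty
    obtain ⟨r, hr⟩ := blk_exists hC (fun j => y j - ⌊H j o⌋) (List.finRange d) o
    refine ⟨r, ?_⟩
    have h1 : ∀ j, ⌊H j r⌋ = y j := by
      intro j
      have f1 := blk_inc' hC hr j
      have f2 : H j r = H j o + ((y j - ⌊H j o⌋ : ℤ) : ℝ) := by linarith
      rw [f2, Int.floor_add_intCast]
      ring
    have h2 : ∑ j, |((⌊H j r⌋ : ℤ) : ℝ) - (y j : ℝ)| = 0 := by
      apply Finset.sum_eq_zero
      intro j _
      rw [h1 j]; simp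
    change ∑ j, |((⌊H j r⌋ : ℤ) : ℝ) - (y j : ℝ)| ≤ C + d
    rw [h2]
    positivity

lemma nice_of (hconn : G.Connected) (ht : Trans G)
    (hκ : ∀ x y, G.Adj x y → 0 ≤ curvature G x y) (o : V) (hpos : 0 < G.degree o) :
    Nice G (G.degree o) := by
  have hdeg : ∀ x, G.degree x = G.degree o := by
    intro x
    obtain ⟨g, rfl⟩ := ht o x
    rw [← SimpleGraph.card_neighborFinset_eq_degree, ← SimpleGraph.card_neighborFinset_eq_degree]
    have hb := bijOn_iso g o
    have h1 := sum_bijOn hb (fun _ => (1 : ℕ))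
    rw [← Finset.card_eq_sum_ones, ← Finset.card_eq_sum_ones] at h1
    exact h1
  refine ⟨hconn, fun x => by rw [SimpleGraph.card_neighborFinset_eq_degree]; exact hdeg x, hpos, ?_⟩
  intro x y hxy
  exact exists_matching G hpos x y (hdeg x) (hdeg y) (hκ x y hxy)

/-- **Discrete Cheeger–Gromoll splitting at the level of coarse geometry.** -/
theorem main {V : Type*} (G : SimpleGraph V) [G.LocallyFinite] (hconn : G.Connected)
    (htrans : ∀ x y : V, ∃ g : G ≃g G, g x = y)
    (hκ : ∀ x y, G.Adj x y → 0 ≤ curvature G x y) :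
    ∃ d : ℕ, ∃ f : V → (Fin d → ℤ),
      IsQuasiIsometry (fun x y => (G.dist x y : ℝ)) (fun a b => ∑ i, |(a i : ℝ) - b i|) f := by
  obtain ⟨o⟩ := hconn.nonempty
  rcases Nat.eq_zero_or_pos (G.degree o) with h0 | h0
  · -- a single vertex
    have hall : ∀ x, x = o := by
      intro x
      by_contra hne
      have hd : G.dist o x ≠ 0 := by
        intro h1; exact hne ((hconn.dist_eq_zero_iff).1 h1).symm
      obtain ⟨n, hn⟩ := Nat.exists_eq_succ_of_ne_zero hd
      obtain ⟨a, ha, _⟩ := exists_first_step hconn hn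
      rw [← SimpleGraph.card_neighborFinset_eq_degree, Finset.card_eq_zero] at h0
      rw [h0] at ha
      simp at ha
    refine ⟨0, fun _ => Fin.elim0, 1, 0, le_refl _, le_refl _, ?_, ?_⟩
    · intro x x'
      rw [hall x, hall x']
      simp
    · intro y
      exact ⟨o, by simp⟩
  · exact quasi (nice_of hconn htrans hκ o h0) htrans

end Pool.Agent.H80.ORC
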