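import Pool.Agent.H80.ORC.Basic

/-!
# Polynomial growth
-/

set_option autoImplicit false

namespace Pool.Agent.H80.ORC

open Finset

variable {V : Type*} {G : SimpleGraph V} [G.LocallyFinite] {D : ℕ}

/-- targets `z` at distance `n` from `x` with profile `η` -/
def Tgt (G : SimpleGraph V) [G.LocallyFinite] (x : V) (η : V → ℤ) (n : ℕ) : Set V :=
  {z | G.dist x z = n ∧ ∀ a ∈ G.neighborFinset x, (n : ℤ) - G.dist a z = η a}

open Classical in
/-- extension of a code to a profile -/
noncomputable def ext (G : SimpleGraph V) [G.LocallyFinite] (x : V)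
    (g : {b // b ∈ G.neighborFinset x} → Fin 3) : V → ℤ :=
  fun b => if h : b ∈ G.neighborFinset x then ((g ⟨b, h⟩ : ℕ) : ℤ) - 1 else 0

lemma exists_code (h : G.Connected) (x z : V) {n : ℕ} (hn : G.dist x z = n) :
    ∃ g : {b // b ∈ G.neighborFinset x} → Fin 3,
      ∀ b ∈ G.neighborFinset x, ext G x g b = (n : ℤ) - G.dist b z := by
  classical
  have key : ∀ b ∈ G.neighborFinset x, G.dist b z ≤ n + 1 ∧ n ≤ G.dist b z + 1 := by
    intro b hb
    have h1 := dist_of_mem hb
    have h2 := dist_of_mem' hb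
    have h3 : G.dist b z ≤ G.dist b x + G.dist x z := h.dist_triangle
    have h4 : G.dist x z ≤ G.dist x b + G.dist b z := h.dist_triangle
    omega
  refine ⟨fun b => ⟨n + 1 - G.dist b.1 z, by have := key b.1 b.2; omega⟩, ?_⟩
  intro b hb
  have := key b hb
  unfold ext
  rw [dif_pos hb]
  push_cast [Nat.cast_sub this.1]
  ring

lemma ext_bounds (x : V) (g : {b // b ∈ G.neighborFinset x} → Fin 3) (b : V)
    (hb : b ∈ G.neighborFinset x) : 0 ≤ ext G x g b + 1 ∧ ext G x g b + 1 ≤ 2 := by
  classical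
  unfold ext
  rw [dif_pos hb]
  have := (g ⟨b, hb⟩).2
  constructor
  · simp
  · have : ((g ⟨b, hb⟩ : ℕ) : ℤ) ≤ 2 := by exact_mod_cast (by omega)
    linarith

lemma growth_aux (h : Nice G D) : ∀ (n j : ℕ) (x : V) (η : V → ℤ),
    ∑ a ∈ G.neighborFinset x, (η a + 1) ≤ (j : ℤ) →
    (Tgt G x η n).Finite ∧ (Tgt G x η n).ncard ≤ (3 ^ D) ^ j * (n + 1) ^ j := by
  classical
  intro n
  induction n with
  | zero =>
    intro j x η _
    have hsub : Tgt G x η 0 ⊆ {x} := by
      intro z hz
      have := (h.conn.dist_eq_zero_iff).1 hz.1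
      exact this.symm
    refine ⟨(Set.finite_singleton x).subset hsub, ?_⟩
    refine (Set.ncard_le_ncard hsub).trans ?_
    simp [Nat.one_le_iff_ne_zero]
  | succ n ih =>
    intro j x η hη
    by_cases hex : ∃ a ∈ G.neighborFinset x, η a = 1
    swap
    · have hempty : Tgt G x η (n + 1) = ∅ := by
        rw [Set.eq_empty_iff_forall_notMem]
        intro z hz
        obtain ⟨a, ha, hd⟩ := exists_first_step h.conn hz.1
        apply hex
        refine ⟨a, ha, ?_⟩
        rw [← hz.2 a ha, hd]
        push_cast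
        ring
      rw [hempty]
      simp
    obtain ⟨x1, hx1, hηx1⟩ := hex
    have hadj : G.Adj x x1 := by simpa using hx1
    obtain ⟨σ, hσ, hσD⟩ := h.matching x x1 hadj
    -- the inverse of the matching
    have hne : Nonempty V := ⟨x⟩
    let τ : V → V := Function.invFunOn σ (G.neighborFinset x : Set V)
    have hτ : ∀ a ∈ G.neighborFinset x, τ (σ a) = a := fun a ha =>
      hσ.injOn.leftInvOn_invFunOn ha
    let η' : V → ℤ := fun b => η (τ b) - 1 + G.dist (τ b) b
    have hη' : ∀ a ∈ G.neighborFinset x, η' (σ a) = η a - 1 + G.dist a (σ a) := by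
      intro a ha
      simp only [η', hτ a ha]
    have hη'sum : ∑ b ∈ G.neighborFinset x1, (η' b + 1) ≤ (j : ℤ) := by
      rw [sum_bijOn hσ]
      have h1 : ∑ a ∈ G.neighborFinset x, (η' (σ a) + 1) =
          ∑ a ∈ G.neighborFinset x, (η a + 1) + ((∑ a ∈ G.neighborFinset x, G.dist a (σ a) : ℕ) : ℤ)
            - D := by
        rw [← h.deg x, Finset.card_eq_sum_ones]
        push_cast
        rw [← Finset.sum_add_distrib, ← Finset.sum_sub_distrib]
        refine Finset.sum_congr rfl fun a ha => ?_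
        rw [hη' a ha]
        ring
      rw [h1]
      have : ((∑ a ∈ G.neighborFinset x, G.dist a (σ a) : ℕ) : ℤ) ≤ D := by exact_mod_cast hσD
      linarith
    -- the key dichotomy
    have hdich : ∀ z ∈ Tgt G x η (n + 1), z ∈ Tgt G x1 η' n ∨
        (1 ≤ j ∧ ∃ g : {b // b ∈ G.neighborFinset x1} → Fin 3,
          ∑ b ∈ G.neighborFinset x1, (ext G x1 g b + 1) ≤ ((j - 1 : ℕ) : ℤ) ∧
            z ∈ Tgt G x1 (ext G x1 g) n) := by
      intro z hz
      have hx1z : G.dist x1 z = n := by
        have := hz.2 x1 hx1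
        rw [hηx1] at this
        have h2 : ((n + 1 : ℕ) : ℤ) - G.dist x1 z = 1 := this
        push_cast at h2
        omega
      obtain ⟨g, hg⟩ := exists_code h.conn x1 z hx1z
      have hsum1 : ∑ b ∈ G.neighborFinset x1, (ext G x1 g b + 1) =
          ∑ a ∈ G.neighborFinset x, ((n : ℤ) - G.dist (σ a) z + 1) := by
        rw [sum_bijOn hσ]
        refine Finset.sum_congr rfl fun a ha => ?_
        rw [hg _ (hσ.mapsTo ha)]
      have hsum2 : ∑ a ∈ G.neighborFinset x, (η a + 1) =
          ∑ a ∈ G.neighborFinset x, ((n : ℤ) + 2 - G.dist a z) := by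
        refine Finset.sum_congr rfl fun a ha => ?_
        rw [← hz.2 a ha]
        push_cast
        ring
      have htri : ∀ a ∈ G.neighborFinset x, (G.dist a z : ℤ) - G.dist (σ a) z ≤ G.dist a (σ a) := by
        intro a _
        have : G.dist a z ≤ G.dist a (σ a) + G.dist (σ a) z := h.conn.dist_triangle
        have : (G.dist a z : ℤ) ≤ G.dist a (σ a) + G.dist (σ a) z := by exact_mod_cast this
        linarith
      have hle : ∑ a ∈ G.neighborFinset x, ((G.dist a z : ℤ) - G.dist (σ a) z) ≤ D := by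
        refine (Finset.sum_le_sum htri).trans ?_
        exact_mod_cast hσD
      have hdiff : ∑ b ∈ G.neighborFinset x1, (ext G x1 g b + 1) =
          ∑ a ∈ G.neighborFinset x, (η a + 1) +
            (∑ a ∈ G.neighborFinset x, ((G.dist a z : ℤ) - G.dist (σ a) z) - D) := by
        rw [hsum1, hsum2]
        have hD : (D : ℤ) = ∑ a ∈ G.neighborFinset x, (1 : ℤ) := by
          rw [← h.deg x, Finset.card_eq_sum_ones]
          push_cast
          rfl
        rw [hD, ← Finset.sum_sub_distrib, ← Finset.sum_add_distrib]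
        refine Finset.sum_congr rfl fun a _ => ?_
        ring
      rcases eq_or_lt_of_le hle with heq | hlt
      · left
        refine ⟨hx1z, ?_⟩
        -- termwise equality
        have hterm : ∀ a ∈ G.neighborFinset x,
            (G.dist a z : ℤ) - G.dist (σ a) z = G.dist a (σ a) := by
          have hs : ∑ a ∈ G.neighborFinset x, ((G.dist a z : ℤ) - G.dist (σ a) z) =
              ∑ a ∈ G.neighborFinset x, (G.dist a (σ a) : ℤ) := by
            apply le_antisymm (Finset.sum_le_sum htri)
            rw [heq]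
            exact_mod_cast hσD
          exact (Finset.sum_eq_sum_iff_of_le htri).1 hs
        intro b hb
        obtain ⟨a, ha, rfl⟩ := hσ.surjOn hb
        rw [hη' a ha, ← hz.2 a ha]
        have := hterm a ha
        push_cast
        linarith
      · right
        have hnn : 0 ≤ ∑ b ∈ G.neighborFinset x1, (ext G x1 g b + 1) :=
          Finset.sum_nonneg fun b hb => (ext_bounds x1 g b hb).1
        have hj1 : ∑ b ∈ G.neighborFinset x1, (ext G x1 g b + 1) ≤ (j : ℤ) - 1 := by
          rw [hdiff]; linarith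
        have hj : 1 ≤ j := by
          have : (0 : ℤ) ≤ (j : ℤ) - 1 := hnn.trans hj1
          omega
        refine ⟨hj, g, ?_, hx1z, ?_⟩
        · push_cast [Nat.cast_sub hj]
          exact hj1
        · intro b hb
          rw [hg b hb]
    rcases Nat.eq_zero_or_pos j with hj0 | hjpos
    · subst hj0
      have hsub : Tgt G x η (n + 1) ⊆ Tgt G x1 η' n := by
        intro z hz
        rcases hdich z hz with h1 | ⟨h1, _⟩
        · exact h1
        · omega
      obtain ⟨hf, hc⟩ := ih 0 x1 η' hη'sum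
      refine ⟨hf.subset hsub, (Set.ncard_le_ncard hsub hf).trans ?_⟩
      simpa using hc
    · let Gs : Finset ({b // b ∈ G.neighborFinset x1} → Fin 3) :=
        Finset.univ.filter fun g =>
          ∑ b ∈ G.neighborFinset x1, (ext G x1 g b + 1) ≤ ((j - 1 : ℕ) : ℤ)
      have hGs : Gs.card ≤ 3 ^ D := by
        refine (Finset.card_filter_le _ _).trans ?_
        rw [Finset.card_univ, Fintype.card_fun, Fintype.card_fin, Fintype.card_coe, h.deg x1]
      have hsub : Tgt G x η (n + 1) ⊆ Tgt G x1 η' n ∪ ⋃ g ∈ Gs, Tgt G x1 (ext G x1 g) n := by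
        intro z hz
        rcases hdich z hz with h1 | ⟨_, g, hg1, hg2⟩
        · exact Or.inl h1
        · right
          simp only [Set.mem_iUnion]
          exact ⟨g, by simp [Gs, hg1], hg2⟩
      obtain ⟨hf, hc⟩ := ih j x1 η' hη'sum
      have hfG : ∀ g ∈ Gs, (Tgt G x1 (ext G x1 g) n).Finite ∧
          (Tgt G x1 (ext G x1 g) n).ncard ≤ (3 ^ D) ^ (j - 1) * (n + 1) ^ (j - 1) := by
        intro g hg
        exact ih (j - 1) x1 _ (Finset.mem_filter.1 hg).2
      have hfU : (⋃ g ∈ Gs, Tgt G x1 (ext G x1 g) n).Finite :=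
        Set.Finite.biUnion (Finset.finite_toSet Gs) fun g hg => (hfG g hg).1
      refine ⟨(hf.union hfU).subset hsub, ?_⟩
      have hcU : (⋃ g ∈ Gs, Tgt G x1 (ext G x1 g) n).ncard ≤
          3 ^ D * ((3 ^ D) ^ (j - 1) * (n + 1) ^ (j - 1)) := by
        refine (Finset.set_ncard_biUnion_le _ _).trans ?_
        refine (Finset.sum_le_sum fun g hg => (hfG g hg).2).trans ?_
        rw [Finset.sum_const, smul_eq_mul]
        exact Nat.mul_le_mul_right _ hGs
      refine (Set.ncard_le_ncard hsub (hf.union hfU)).trans ?_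
      refine (Set.ncard_union_le _ _).trans ?_
      refine (Nat.add_le_add hc hcU).trans ?_
      obtain ⟨i, rfl⟩ : ∃ i, j = i + 1 := ⟨j - 1, by omega⟩
      simp only [Nat.add_sub_cancel]
      have e1 : (3 ^ D) ^ (i + 1) * (n + 1) ^ (i + 1) + 3 ^ D * ((3 ^ D) ^ i * (n + 1) ^ i) =
          (3 ^ D) ^ (i + 1) * ((n + 1) ^ i * (n + 2)) := by ring
      rw [e1]
      apply Nat.mul_le_mul_left
      rw [pow_succ (n + 1 + 1) i]
      exact Nat.mul_le_mul (Nat.pow_le_pow_left (by omega) i) (by omega)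

theorem sphere_growth (h : Nice G D) (x : V) (n : ℕ) :
    {z | G.dist x z = n}.Finite ∧
      {z | G.dist x z = n}.ncard ≤ 3 ^ D * ((3 ^ D) ^ (2 * D) * (n + 1) ^ (2 * D)) := by
  classical
  have hsub : {z | G.dist x z = n} ⊆
      ⋃ g ∈ (Finset.univ : Finset ({b // b ∈ G.neighborFinset x} → Fin 3)),
        Tgt G x (ext G x g) n := by
    intro z hz
    obtain ⟨g, hg⟩ := exists_code h.conn x z hz
    simp only [Set.mem_iUnion]
    exact ⟨g, Finset.mem_univ _, hz, fun b hb => (hg b hb).symm⟩
  have hfG : ∀ g ∈ (Finset.univ : Finset ({b // b ∈ G.neighborFinset x} → Fin 3)),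
      (Tgt G x (ext G x g) n).Finite ∧
      (Tgt G x (ext G x g) n).ncard ≤ (3 ^ D) ^ (2 * D) * (n + 1) ^ (2 * D) := by
    intro g _
    apply growth_aux h
    refine (Finset.sum_le_sum fun b hb => (ext_bounds x g b hb).2).trans ?_
    rw [Finset.sum_const, h.deg x]
    simp [mul_comm]
  have hfU := Set.Finite.biUnion (Finset.finite_toSet
    (Finset.univ : Finset ({b // b ∈ G.neighborFinset x} → Fin 3))) fun g hg => (hfG g hg).1
  refine ⟨hfU.subset hsub, ?_⟩
  refine (Set.ncard_le_ncard hsub hfU).trans ?_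
  refine (Finset.set_ncard_biUnion_le _ _).trans ?_
  refine (Finset.sum_le_sum fun g hg => (hfG g hg).2).trans ?_
  rw [Finset.sum_const, smul_eq_mul, Finset.card_univ, Fintype.card_fun, Fintype.card_fin,
    Fintype.card_coe, h.deg x]

theorem ball_growth (h : Nice G D) (x : V) (n : ℕ) :
    {z | G.dist x z ≤ n}.Finite ∧
      {z | G.dist x z ≤ n}.ncard ≤ 3 ^ D * (3 ^ D) ^ (2 * D) * (n + 1) ^ (2 * D + 1) := by
  classical
  have hsub : {z | G.dist x z ≤ n} ⊆ ⋃ i ∈ Finset.range (n + 1), {z | G.dist x z = i} := by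
    intro z hz
    simp only [Set.mem_iUnion]
    exact ⟨G.dist x z, Finset.mem_range.2 (Nat.lt_succ_of_le hz), rfl⟩
  have hfU := Set.Finite.biUnion (Finset.finite_toSet (Finset.range (n + 1)))
    fun i _ => (sphere_growth h x i).1
  refine ⟨hfU.subset hsub, ?_⟩
  refine (Set.ncard_le_ncard hsub hfU).trans ?_
  refine (Finset.set_ncard_biUnion_le _ _).trans ?_
  have : ∀ i ∈ Finset.range (n + 1), {z | G.dist x z = i}.ncard ≤
      3 ^ D * ((3 ^ D) ^ (2 * D) * (n + 1) ^ (2 * D)) := by
    intro i hi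
    refine (sphere_growth h x i).2.trans ?_
    have : i + 1 ≤ n + 1 := Finset.mem_range.1 hi
    gcongr
  refine (Finset.sum_le_sum this).trans ?_
  rw [Finset.sum_const, Finset.card_range, smul_eq_mul]
  apply le_of_eq
  ring

end Pool.Agent.H80.ORC
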