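import Pool.Agent.H80.ORC.Shadow

/-!
# Homogenisation: Cesàro averages of Lipschitz functions are locally close to harmonic functions
-/

set_option autoImplicit false
set_option linter.unusedSectionVars false

namespace Pool.Agent.H80.ORC

open Finset Filter Topology

variable {V : Type*} {G : SimpleGraph V} [G.LocallyFinite] {D : ℕ}

lemma ces_iso (g : G ≃g G) (k : ℕ) (F : V → ℝ) (x : V) :
    ces G D k F (g x) = ces G D k (fun z => F (g z)) x := by
  unfold ces
  congr 1
  exact Finset.sum_congr rfl fun j _ => avgI_iso g j F x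

lemma tendsto_avg {ι : Type*} {U : Filter ι} {u : ι → V → ℝ} {u₀ : V → ℝ}
    (hu : ∀ z, Tendsto (fun n => u n z) U (𝓝 (u₀ z))) (x : V) :
    Tendsto (fun n => avg G D (u n) x) U (𝓝 (avg G D u₀ x)) := by
  unfold avg
  apply Tendsto.div_const
  exact tendsto_finsetSum _ fun y _ => hu y

lemma eq_of_adj_eq (hc : G.Connected) {f : V → ℝ} (hf : ∀ x y, G.Adj x y → f x = f y) (x y : V) :
    f x = f y := by
  obtain ⟨p⟩ := hc.preconnected x y
  induction p with
  | nil => rfl
  | cons hadj q ih => exact (hf _ _ hadj).trans ih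

theorem homog (h : Nice G D) (ht : Trans G) (ε : ℝ) (hε : 0 < ε) (R : ℕ) :
    ∃ K : ℕ, ∀ F, IsLip G 1 F → ∀ x, ∃ H, IsHarm G D H ∧ IsLip G 1 H ∧
      ∀ w, G.dist x w ≤ R → |ces G D K F w - ces G D K F x - (H w - H x)| ≤ ε := by
  by_contra hcon
  push Not at hcon
  choose F hF x hx using hcon
  obtain ⟨o⟩ := h.conn.nonempty
  choose g hg using fun n => ht o (x n)
  let u : ℕ → V → ℝ := fun n z => ces G D n (F n) (g n z) - ces G D n (F n) (x n)
  have hu : ∀ n z, u n z = ces G D n (F n) (g n z) - ces G D n (F n) (x n) := fun n z => rfl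
  have huL : ∀ n, IsLip G 1 (u n) := fun n =>
    lip_sub_const (lip_iso (g n) ((hF n).ces h zero_le_one n)) _
  have huo : ∀ n, u n o = 0 := by
    intro n; rw [hu, hg, sub_self]
  have hub : ∀ z n, |u n z| ≤ G.dist z o := by
    intro z n
    have := (huL n).dist_le h.conn z o
    rwa [huo, sub_zero, one_mul] at this
  set U : Ultrafilter ℕ := Ultrafilter.of atTop with hU
  have hUle : (U : Filter ℕ) ≤ atTop := Ultrafilter.of_le atTop
  choose u₀ hu₀ using fun z => exists_ulim U (fun n => u n z) _ (hub z)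
  have hu₀L : IsLip G 1 u₀ := by
    intro a b hab
    exact le_of_tendsto ((hu₀ a).sub (hu₀ b)).abs (Eventually.of_forall fun n => huL n a b hab)
  have hu₀o : u₀ o = 0 := by
    refine tendsto_nhds_unique (hu₀ o) ?_
    simp only [huo]
    exact tendsto_const_nhds
  -- the defect
  have hdef : ∀ n z, avg G D (u n) z - u n z =
      (avgI G D (n + 1) (F n) (g n z) - F n (g n z)) / (n + 1) := by
    intro n z
    rw [← avg_ces, avg_iso]
    have e : avg G D (u n) z = avg G D (fun z => ces G D n (F n) (g n z)) z -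
        ces G D n (F n) (x n) := by
      change avg G D (fun z => ces G D n (F n) (g n z) - ces G D n (F n) (x n)) z = _
      rw [avg_sub, avg_const h]
    rw [e, hu]
    ring
  have hdlim : ∀ z, Tendsto (fun n => avg G D (u n) z - u n z) (U : Filter ℕ)
      (𝓝 (avg G D u₀ z - u₀ z)) := fun z => (tendsto_avg hu₀ z).sub (hu₀ z)
  have hadj : ∀ a b, G.Adj a b → avg G D u₀ a - u₀ a = avg G D u₀ b - u₀ b := by
    intro a b hab
    have h1 : Tendsto (fun n : ℕ => 2 * (1 / ((n : ℝ) + 1))) (U : Filter ℕ) (𝓝 (2 * 0)) :=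
      (tendsto_one_div_add_atTop_nhds_zero_nat.const_mul 2).mono_left hUle
    have h2 := ((hdlim a).sub (hdlim b)).abs
    have h3 : |avg G D u₀ a - u₀ a - (avg G D u₀ b - u₀ b)| ≤ 2 * 0 := by
      refine le_of_tendsto_of_tendsto h2 h1 (Eventually.of_forall fun n => ?_)
      change |avg G D (u n) a - u n a - (avg G D (u n) b - u n b)| ≤ 2 * (1 / ((n : ℝ) + 1))
      rw [hdef, hdef, ← sub_div, abs_div, abs_of_pos (by positivity : (0 : ℝ) < (n : ℝ) + 1),
        div_le_iff₀ (by positivity)]
      have e1 := (hF n).avgI h zero_le_one (n + 1) _ _ ((g n).map_adj_iff.2 hab)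
      have e2 := hF n _ _ ((g n).map_adj_iff.2 hab)
      have e3 : 2 * (1 / ((n : ℝ) + 1)) * (n + 1) = 2 := by field_simp
      rw [e3]
      have e4 : avgI G D (n + 1) (F n) (g n a) - F n (g n a) -
          (avgI G D (n + 1) (F n) (g n b) - F n (g n b)) =
          (avgI G D (n + 1) (F n) (g n a) - avgI G D (n + 1) (F n) (g n b)) -
          (F n (g n a) - F n (g n b)) := by ring
      rw [e4]
      refine (abs_sub _ _).trans ?_
      linarith
    rw [mul_zero] at h3
    have := abs_eq_zero.1 (le_antisymm h3 (abs_nonneg _))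
    linarith
  have hconst := eq_of_adj_eq h.conn (f := fun z => avg G D u₀ z - u₀ z) hadj
  have hc0 : avg G D u₀ o - u₀ o = 0 := by
    apply c_zero h u₀ _ hu₀L _ o
    intro z
    have := hconst z o
    linarith
  have hharm : IsHarm G D u₀ := by
    intro z
    have := hconst z o
    linarith
  -- uniform closeness on the ball
  have hball : ∀ᶠ n in (U : Filter ℕ), ∀ w ∈ bl h o R, |u n w - u₀ w| < ε := by
    rw [Filter.eventually_all_finset]
    intro w _
    have h1 := ((hu₀ w).sub_const (u₀ w)).abs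
    rw [sub_self, abs_zero] at h1
    exact h1.eventually (gt_mem_nhds hε)
  obtain ⟨n, hn⟩ := hball.exists
  obtain ⟨w, hw, hlt⟩ := hx n (fun z => u₀ ((g n).symm z)) (harm_iso (g n).symm hharm)
    (lip_iso (g n).symm hu₀L)
  have h1 : (g n).symm w ∈ bl h o R := by
    rw [mem_bl]
    have := dist_iso (g n) h.conn o ((g n).symm w)
    rw [hg] at this
    simp only [RelIso.apply_symm_apply] at this
    rw [← this]
    exact hw
  have h2 := hn _ h1
  rw [hu] at h2
  simp only [RelIso.apply_symm_apply] at h2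
  have h3 : (g n).symm (x n) = o := by rw [← hg]; simp
  rw [h3, hu₀o, sub_zero] at hlt
  linarith

end Pool.Agent.H80.ORC
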