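import Pool.Agent.H80.ORC.Walk

/-!
# Transitive case: good scales, Liouville property, invariant mean
-/

set_option autoImplicit false
set_option linter.unusedSectionVars false

namespace Pool.Agent.H80.ORC

open Finset Filter Topology

variable {V : Type*} {G : SimpleGraph V} [G.LocallyFinite] {D : ℕ}

/-- vertex transitivity -/
def Trans (G : SimpleGraph V) : Prop := ∀ x y : V, ∃ g : G ≃g G, g x = y

lemma dist_iso_le (g : G ≃g G) (hc : G.Connected) (x y : V) : G.dist (g x) (g y) ≤ G.dist x y := by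
  obtain ⟨p, hp⟩ := hc.exists_walk_length_eq_dist x y
  have := SimpleGraph.dist_le (p.map g.toHom)
  rw [SimpleGraph.Walk.length_map, hp] at this
  exact this

lemma dist_iso (g : G ≃g G) (hc : G.Connected) (x y : V) : G.dist (g x) (g y) = G.dist x y := by
  apply le_antisymm (dist_iso_le g hc x y)
  have := dist_iso_le g.symm hc (g x) (g y)
  simpa using this

lemma bijOn_iso (g : G ≃g G) (x : V) :
    Set.BijOn g (G.neighborFinset x) (G.neighborFinset (g x)) := by
  refine ⟨?_, g.injective.injOn, ?_⟩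
  · intro a ha
    have h1 : G.Adj x a := by simpa using ha
    have h2 : G.Adj (g x) (g a) := g.map_adj_iff.2 h1
    simpa using h2
  · intro b hb
    have hb' : G.Adj (g x) b := by simpa using hb
    refine ⟨g.symm b, ?_, by simp⟩
    have : G.Adj (g x) (g (g.symm b)) := by simpa using hb'
    have h2 : G.Adj x (g.symm b) := g.map_adj_iff.1 this
    simpa using h2

lemma avg_iso (g : G ≃g G) (F : V → ℝ) (x : V) :
    avg G D F (g x) = avg G D (fun z => F (g z)) x := by
  unfold avg
  rw [sum_bijOn (bijOn_iso g x)]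

lemma avgI_iso (g : G ≃g G) (k : ℕ) (F : V → ℝ) (x : V) :
    avgI G D k F (g x) = avgI G D k (fun z => F (g z)) x := by
  induction k generalizing x with
  | zero => rfl
  | succ k ih =>
    rw [avgI_succ, avgI_succ, avg_iso]
    congr 1
    funext z
    exact ih z

lemma ker_iso (g : G ≃g G) (k : ℕ) (x z : V) : ker G D k (g x) (g z) = ker G D k x z := by
  classical
  induction k generalizing x with
  | zero =>
    unfold ker
    simp
  | succ k ih =>
    unfold ker
    rw [avg_iso]
    congr 1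
    funext y
    exact ih y

lemma ent_iso (g : G ≃g G) (k : ℕ) (x : V) : ent G D k (g x) = ent G D k x := by
  unfold ent
  rw [← finsum_comp_equiv g.toEquiv]
  apply finsum_congr
  intro z
  change Real.negMulLog (ker G D k (g x) (g z)) = _
  rw [ker_iso]

lemma ent_const (ht : Trans G) (k : ℕ) (x y : V) : ent G D k x = ent G D k y := by
  obtain ⟨g, rfl⟩ := ht x y
  rw [ent_iso]

lemma avg_ent (h : Nice G D) (ht : Trans G) (k : ℕ) (x : V) : avg G D (ent G D k) x = ent G D k x := by
  have : ent G D k = fun _ => ent G D k x := by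
    funext y; exact ent_const ht k y x
  rw [this]
  rw [avg_const h]

/-- the exponent in the growth bound -/
def expo (D : ℕ) : ℕ := 2 * D + 1

/-- there are arbitrarily large good scales -/
lemma exists_good (h : Nice G D) (o : V) (N : ℕ) :
    ∃ k, N ≤ k ∧ ((k : ℝ) + 1) * (ent G D (k + 1) o - ent G D k o) ≤ 2 * D + 2 := by
  by_contra hcon
  push Not at hcon
  have hinc : ∀ k, N ≤ k → (2 * D + 2 : ℝ) / (k + 1) ≤ ent G D (k + 1) o - ent G D k o := by
    intro k hk
    have hpos : (0 : ℝ) < (k : ℝ) + 1 := by positivity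
    rw [div_le_iff₀ hpos]
    have := hcon k hk
    linarith
  have hlow : ∀ M, N ≤ M → ent G D N o + (2 * D + 2) * (Real.log (M + 1) - Real.log (N + 1)) ≤
      ent G D M o := by
    intro M hM
    induction M, hM using Nat.le_induction with
    | base => simp
    | succ M hM ih =>
      have h1 := hinc M hM
      have hpos : (0 : ℝ) < (M : ℝ) + 1 := by positivity
      have h2 : Real.log ((M : ℝ) + 1 + 1) - Real.log ((M : ℝ) + 1) ≤ 1 / ((M : ℝ) + 1) := by
        rw [← Real.log_div (by positivity) (by positivity)]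
        have h3 : ((M : ℝ) + 1 + 1) / ((M : ℝ) + 1) = 1 + 1 / ((M : ℝ) + 1) := by field_simp
        rw [h3]
        have := Real.log_le_sub_one_of_pos (x := 1 + 1 / ((M : ℝ) + 1)) (by positivity)
        linarith
      have h4 : (2 * (D : ℝ) + 2) * (Real.log ((M : ℝ) + 1 + 1) - Real.log ((M : ℝ) + 1)) ≤
          (2 * D + 2) * (1 / ((M : ℝ) + 1)) := mul_le_mul_of_nonneg_left h2 (by positivity)
      have h5 : (2 * (D : ℝ) + 2) * (1 / ((M : ℝ) + 1)) = (2 * D + 2) / (M + 1) := by ring
      push_cast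
      rw [h5] at h4
      nlinarith
  have hup : ∀ M, ent G D M o ≤ Real.log (3 ^ D * (3 ^ D) ^ (2 * D)) + (2 * D + 1) * Real.log (M + 1) := by
    intro M
    refine (ent_le h M o).trans ?_
    have h1 : ((bl h o M).card : ℝ) ≤ 3 ^ D * (3 ^ D) ^ (2 * D) * (M + 1) ^ (2 * D + 1) := by
      exact_mod_cast card_bl h o M
    have hx : o ∈ bl h o M := (mem_bl h o o M).2 (by simp)
    have hpos : (0 : ℝ) < (bl h o M).card := by
      have : 0 < (bl h o M).card := Finset.card_pos.2 ⟨o, hx⟩
      exact_mod_cast this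
    refine (Real.log_le_log hpos h1).trans (le_of_eq ?_)
    rw [Real.log_mul (by positivity) (by positivity), Real.log_pow]
    push_cast
    ring
  have hall : ∀ M : ℕ, N ≤ M → Real.log (M + 1) ≤ Real.log (3 ^ D * (3 ^ D) ^ (2 * D)) - ent G D N o +
      (2 * D + 2) * Real.log (N + 1) := by
    intro M hM
    have h1 := hlow M hM
    have h2 := hup M
    nlinarith
  have htend : Tendsto (fun M : ℕ => Real.log ((M : ℝ) + 1)) atTop atTop :=
    Real.tendsto_log_atTop.comp (tendsto_atTop_add_const_right _ _ tendsto_natCast_atTop_atTop)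
  obtain ⟨M, hM1, hM2⟩ := ((htend.eventually_gt_atTop
    (Real.log (3 ^ D * (3 ^ D) ^ (2 * D)) - ent G D N o + (2 * D + 2) * Real.log (N + 1))).and
      (eventually_ge_atTop N)).exists
  exact absurd (hall M hM2) (not_le.2 hM1)

/-- the set of good scales -/
def good (G : SimpleGraph V) [G.LocallyFinite] (D : ℕ) (o : V) : Set ℕ :=
  {k | ((k : ℝ) + 1) * (ent G D (k + 1) o - ent G D k o) ≤ 2 * D + 2}

lemma good_neBot (h : Nice G D) (o : V) : (atTop ⊓ 𝓟 (good G D o)).NeBot := by
  rw [← frequently_mem_iff_neBot, frequently_atTop]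
  intro N
  obtain ⟨k, hk, hg⟩ := exists_good h o N
  exact ⟨k, hk, hg⟩

/-- a nonprincipal ultrafilter concentrated on the good scales -/
noncomputable def uf (h : Nice G D) (o : V) : Ultrafilter ℕ :=
  @Ultrafilter.of ℕ (atTop ⊓ 𝓟 (good G D o)) (good_neBot h o)

lemma uf_le_atTop (h : Nice G D) (o : V) : (uf h o : Filter ℕ) ≤ atTop :=
  (@Ultrafilter.of_le ℕ _ (good_neBot h o)).trans inf_le_left

lemma uf_good (h : Nice G D) (o : V) : ∀ᶠ k in (uf h o : Filter ℕ), k ∈ good G D o :=
  (@Ultrafilter.of_le ℕ _ (good_neBot h o)).trans inf_le_right (mem_principal_self _)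

/-- entropy estimate at good scales -/
lemma good_estimate (h : Nice G D) (ht : Trans G) (o : V) (H : V → ℝ) (hH : ∀ x, avg G D H x = H x)
    (k : ℕ) (hk : k ∈ good G D o) (x : V) :
    grad2 G D H x ≤ (2 * (D + 1) * (2 * D + 2)) *
      ((∑ j ∈ Finset.range (k + 1), avgI G D j (grad2 G D H) x) / (k + 1)) := by
  have h1 := entropy_estimate h H hH k x
  rw [avg_ent h ht, ent_const ht (k + 1) x o, ent_const ht k x o] at h1
  refine h1.trans ?_
  have hpos : (0 : ℝ) < (k : ℝ) + 1 := by positivity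
  set T := ∑ j ∈ Finset.range (k + 1), avgI G D j (grad2 G D H) x with hT
  have hT0 : 0 ≤ T := by
    apply Finset.sum_nonneg
    intro j _
    have := avgI_mono (G := G) (D := D) j (fun _ => 0) (grad2 G D H) (fun z => grad2_nonneg H z) x
    rwa [avgI_const h] at this
  have h2 : ent G D (k + 1) o - ent G D k o ≤ (2 * D + 2) / (k + 1) := by
    rw [le_div_iff₀ hpos]
    have : ((k : ℝ) + 1) * (ent G D (k + 1) o - ent G D k o) ≤ 2 * D + 2 := hk
    linarith
  have h3 : 2 * ((D : ℝ) + 1) * (ent G D (k + 1) o - ent G D k o) * T ≤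
      2 * (D + 1) * ((2 * D + 2) / (k + 1)) * T := by
    apply mul_le_mul_of_nonneg_right _ hT0
    apply mul_le_mul_of_nonneg_left h2 (by positivity)
  refine h3.trans (le_of_eq ?_)
  field_simp

lemma eq_of_grad2_zero (h : Nice G D) (H : V → ℝ) (hg : ∀ x, grad2 G D H x = 0) (x y : V) :
    H x = H y := by
  have hD : (D : ℝ) ≠ 0 := by exact_mod_cast h.pos.ne'
  have hadj : ∀ a b, G.Adj a b → H a = H b := by
    intro a b hab
    have h1 := hg a
    unfold grad2 at h1
    rw [div_eq_zero_iff] at h1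
    rcases h1 with h1 | h1
    · rw [Finset.sum_eq_zero_iff_of_nonneg (fun y _ => sq_nonneg _)] at h1
      have := h1 b (by simpa using hab)
      have h2 : H b - H a = 0 := by
        exact pow_eq_zero_iff (two_ne_zero) |>.1 this
      linarith
    · exact absurd h1 hD
  obtain ⟨p⟩ := h.conn.preconnected x y
  induction p with
  | nil => rfl
  | cons hab _ ih => exact (hadj _ _ hab).trans ih

/-- **Liouville property** -/
theorem liouville (h : Nice G D) (ht : Trans G) (u : V → ℝ) (hu : ∀ x, avg G D u x = u x)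
    (C : ℝ) (hC : ∀ x, |u x| ≤ C) (x y : V) : u x = u y := by
  apply eq_of_grad2_zero h
  intro z
  apply le_antisymm _ (grad2_nonneg _ _)
  have hC0 : 0 ≤ C := (abs_nonneg _).trans (hC x)
  have hbd : ∀ k ∈ good G D z, grad2 G D u z ≤
      (2 * (D + 1) * (2 * D + 2)) * (C ^ 2 / ((k : ℝ) + 1)) := by
    intro k hk
    refine (good_estimate h ht z u hu k hk z).trans ?_
    apply mul_le_mul_of_nonneg_left _ (by positivity)
    apply div_le_div_of_nonneg_right _ (by positivity)
    rw [← avgI_sq h u hu]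
    have h1 : avgI G D (k + 1) (fun z => u z ^ 2) z ≤ C ^ 2 := by
      have := avgI_mono (G := G) (D := D) (k + 1) (fun z => u z ^ 2) (fun _ => C ^ 2)
        (fun z => by
          have := hC z
          rw [← sq_abs]
          exact pow_le_pow_left₀ (abs_nonneg _) this 2) z
      rwa [avgI_const h] at this
    have h2 : 0 ≤ u z ^ 2 := sq_nonneg _
    linarith
  have ht0 : Tendsto (fun k : ℕ => (2 * ((D : ℝ) + 1) * (2 * D + 2)) * (C ^ 2 / ((k : ℝ) + 1)))
      (uf h z : Filter ℕ) (𝓝 ((2 * ((D : ℝ) + 1) * (2 * D + 2)) * 0)) := by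
    apply Tendsto.const_mul
    apply Tendsto.mono_left _ (uf_le_atTop h z)
    apply Tendsto.div_atTop tendsto_const_nhds
    exact tendsto_atTop_add_const_right _ _ tendsto_natCast_atTop_atTop
  rw [mul_zero] at ht0
  exact ge_of_tendsto ht0 ((uf_good h z).mono fun k hk => hbd k hk)

/-- Cesaro averages -/
noncomputable def ces (G : SimpleGraph V) [G.LocallyFinite] (D : ℕ) (k : ℕ) (F : V → ℝ) (x : V) : ℝ :=
  (∑ j ∈ Finset.range (k + 1), avgI G D j F x) / (k + 1)

lemma ces_bound (h : Nice G D) (k : ℕ) (F : V → ℝ) (C : ℝ) (hF : ∀ z, |F z| ≤ C) (x : V) :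
    |ces G D k F x| ≤ C := by
  unfold ces
  rw [abs_div, abs_of_pos (by positivity : (0 : ℝ) < (k : ℝ) + 1), div_le_iff₀ (by positivity)]
  refine (Finset.abs_sum_le_sum_abs _ _).trans ?_
  refine (Finset.sum_le_sum fun j _ => avgI_bound h j F C hF x).trans ?_
  rw [Finset.sum_const, Finset.card_range, nsmul_eq_mul]
  push_cast
  linarith

lemma ces_mono (k : ℕ) (F F' : V → ℝ) (hF : ∀ z, F z ≤ F' z) (x : V) :
    ces G D k F x ≤ ces G D k F' x := by
  unfold ces
  apply div_le_div_of_nonneg_right _ (by positivity)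
  exact Finset.sum_le_sum fun j _ => avgI_mono j F F' hF x

lemma ces_add (k : ℕ) (F F' : V → ℝ) (x : V) :
    ces G D k (fun z => F z + F' z) x = ces G D k F x + ces G D k F' x := by
  unfold ces
  rw [← add_div, ← Finset.sum_add_distrib]
  congr 1
  exact Finset.sum_congr rfl fun j _ => avgI_add j F F' x

lemma ces_mul_left (k : ℕ) (c : ℝ) (F : V → ℝ) (x : V) :
    ces G D k (fun z => c * F z) x = c * ces G D k F x := by
  unfold ces
  rw [← mul_div_assoc, Finset.mul_sum]
  congr 1
  exact Finset.sum_congr rfl fun j _ => avgI_mul_left j c F x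

lemma ces_const (h : Nice G D) (k : ℕ) (c : ℝ) (x : V) : ces G D k (fun _ => c) x = c := by
  unfold ces
  have : ∀ j ∈ Finset.range (k + 1), avgI G D j (fun _ => c) x = c := fun j _ => avgI_const h j c x
  rw [Finset.sum_congr rfl this, Finset.sum_const, Finset.card_range, nsmul_eq_mul]
  push_cast
  field_simp

lemma avg_ces (k : ℕ) (F : V → ℝ) (x : V) :
    avg G D (ces G D k F) x - ces G D k F x = (avgI G D (k + 1) F x - F x) / (k + 1) := by
  have h1 : avg G D (ces G D k F) x = (∑ j ∈ Finset.range (k + 1), avgI G D (j + 1) F x) / (k + 1) := by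
    have : ces G D k F = fun z => (1 / ((k : ℝ) + 1)) * ∑ j ∈ Finset.range (k + 1), avgI G D j F z := by
      funext z; unfold ces; ring
    rw [this, avg_mul_left, avg_sum]
    have : ∀ j ∈ Finset.range (k + 1), avg G D (avgI G D j F) x = avgI G D (j + 1) F x := by
      intro j _; rw [avgI_succ]
    rw [Finset.sum_congr rfl this]
    ring
  rw [h1]
  unfold ces
  rw [← sub_div, ← Finset.sum_sub_distrib, Finset.sum_range_sub (fun j => avgI G D j F x)]
  rfl

/-- ultrafilter limits of bounded sequences -/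
lemma exists_ulim (U : Ultrafilter ℕ) (u : ℕ → ℝ) (C : ℝ) (hu : ∀ n, |u n| ≤ C) :
    ∃ L, Tendsto u (U : Filter ℕ) (𝓝 L) := by
  obtain ⟨L, _, hL⟩ := (isCompact_Icc (a := -C) (b := C)).ultrafilter_le_nhds (U.map u) (by
    rw [le_principal_iff, Ultrafilter.coe_map, Filter.mem_map]
    exact Filter.Eventually.of_forall fun n => abs_le.1 (hu n))
  exact ⟨L, hL⟩

/-- the mean -/
noncomputable def mn (G : SimpleGraph V) [G.LocallyFinite] (D : ℕ) (U : Ultrafilter ℕ) (F : V → ℝ)
    (x : V) : ℝ := limUnder (U : Filter ℕ) fun k => ces G D k F x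

lemma mn_tendsto (h : Nice G D) (U : Ultrafilter ℕ) (F : V → ℝ) (C : ℝ) (hF : ∀ z, |F z| ≤ C)
    (x : V) : Tendsto (fun k => ces G D k F x) (U : Filter ℕ) (𝓝 (mn G D U F x)) :=
  tendsto_nhds_limUnder (exists_ulim U _ C fun k => ces_bound h k F C hF x)

lemma mn_bound (h : Nice G D) (U : Ultrafilter ℕ) (F : V → ℝ) (C : ℝ) (hF : ∀ z, |F z| ≤ C)
    (x : V) : |mn G D U F x| ≤ C := by
  have h1 := (mn_tendsto h U F C hF x).abs
  exact le_of_tendsto h1 (Eventually.of_forall fun k => ces_bound h k F C hF x)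

lemma mn_harm (h : Nice G D) (U : Ultrafilter ℕ) (hU : (U : Filter ℕ) ≤ atTop) (F : V → ℝ) (C : ℝ)
    (hF : ∀ z, |F z| ≤ C) (x : V) : avg G D (mn G D U F) x = mn G D U F x := by
  have h1 : Tendsto (fun k => avg G D (ces G D k F) x) (U : Filter ℕ)
      (𝓝 (avg G D (mn G D U F) x)) := by
    unfold avg
    apply Tendsto.div_const
    exact tendsto_finsetSum _ fun y _ => mn_tendsto h U F C hF y
  have h2 : Tendsto (fun k => avg G D (ces G D k F) x - ces G D k F x) (U : Filter ℕ) (𝓝 0) := by
    apply Tendsto.mono_left _ hU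
    have hC0 : 0 ≤ C := (abs_nonneg _).trans (hF x)
    have h3 : Tendsto (fun k : ℕ => (2 * C) / ((k : ℝ) + 1)) atTop (𝓝 0) := by
      apply Tendsto.div_atTop tendsto_const_nhds
      exact tendsto_atTop_add_const_right _ _ tendsto_natCast_atTop_atTop
    apply squeeze_zero_norm _ h3
    intro k
    rw [avg_ces, Real.norm_eq_abs, abs_div, abs_of_pos (by positivity : (0 : ℝ) < (k : ℝ) + 1)]
    apply div_le_div_of_nonneg_right _ (by positivity)
    have e1 := avgI_bound h (k + 1) F C hF x
    have e2 := hF x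
    have e3 := abs_sub (avgI G D (k + 1) F x) (F x)
    linarith
  have h4 := h1.sub h2
  simp only [sub_sub_cancel, sub_zero] at h4
  exact tendsto_nhds_unique h4 (mn_tendsto h U F C hF x)

lemma mn_const_pt (h : Nice G D) (ht : Trans G) (U : Ultrafilter ℕ) (hU : (U : Filter ℕ) ≤ atTop)
    (F : V → ℝ) (C : ℝ) (hF : ∀ z, |F z| ≤ C) (x y : V) : mn G D U F x = mn G D U F y :=
  liouville h ht _ (mn_harm h U hU F C hF) C (mn_bound h U F C hF) x y

end Pool.Agent.H80.ORC
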