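import Pool.Agent.H80.ORC.FinDim

/-!
# Lipschitz functions, the averaging operator, and slopes of harmonic functions
-/

set_option autoImplicit false
set_option linter.unusedSectionVars false

namespace Pool.Agent.H80.ORC

open Finset Filter Topology

variable {V : Type*} {G : SimpleGraph V} [G.LocallyFinite] {D : ℕ}

lemma IsLip.dist_le (hc : G.Connected) {L : ℝ} {F : V → ℝ} (hF : IsLip G L F) (x y : V) :
    |F x - F y| ≤ L * G.dist x y := by
  obtain ⟨p, hp⟩ := hc.exists_walk_length_eq_dist x y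
  rw [← hp]
  clear hp
  induction p with
  | nil => simp
  | cons hadj q ih =>
    rename_i u v w
    rw [SimpleGraph.Walk.length_cons]
    push_cast
    have h1 := hF u v hadj
    have h2 : F u - F w = (F u - F v) + (F v - F w) := by ring
    rw [h2]
    refine (abs_add_le _ _).trans ?_
    linarith

lemma IsLip.mono {L L' : ℝ} (hLL : L ≤ L') {F : V → ℝ} (hF : IsLip G L F) : IsLip G L' F :=
  fun x y hxy => (hF x y hxy).trans hLL

lemma IsLip.avg (h : Nice G D) {L : ℝ} {F : V → ℝ} (hL : 0 ≤ L) (hF : IsLip G L F) :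
    IsLip G L (avg G D F) := by
  intro x y hxy
  have hD : (0 : ℝ) < D := by exact_mod_cast h.pos
  obtain ⟨σ, hσ, hs⟩ := h.matching x y hxy
  unfold ORC.avg
  rw [sum_bijOn hσ, ← sub_div, ← Finset.sum_sub_distrib, abs_div, abs_of_pos hD, div_le_iff₀ hD]
  refine (Finset.abs_sum_le_sum_abs _ _).trans ?_
  refine (Finset.sum_le_sum fun a _ => hF.dist_le h.conn a (σ a)).trans ?_
  rw [← Finset.mul_sum]
  apply mul_le_mul_of_nonneg_left _ hL
  exact_mod_cast hs

lemma IsLip.avgI (h : Nice G D) {L : ℝ} {F : V → ℝ} (hL : 0 ≤ L) (hF : IsLip G L F) (k : ℕ) :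
    IsLip G L (avgI G D k F) := by
  induction k with
  | zero => exact hF
  | succ k ih => rw [avgI_succ]; exact ih.avg h hL

lemma IsLip.ces (h : Nice G D) {L : ℝ} {F : V → ℝ} (hL : 0 ≤ L) (hF : IsLip G L F) (k : ℕ) :
    IsLip G L (ces G D k F) := by
  intro x y hxy
  unfold ORC.ces
  have hk : (0 : ℝ) < (k : ℝ) + 1 := by positivity
  rw [← sub_div, ← Finset.sum_sub_distrib, abs_div, abs_of_pos hk, div_le_iff₀ hk]
  refine (Finset.abs_sum_le_sum_abs _ _).trans ?_
  refine (Finset.sum_le_sum fun j _ => hF.avgI h hL j x y hxy).trans ?_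
  rw [Finset.sum_const, Finset.card_range, nsmul_eq_mul]
  push_cast
  linarith

lemma IsLip.avg_sub (h : Nice G D) {L : ℝ} {F : V → ℝ} (hF : IsLip G L F)
    (x : V) : |ORC.avg G D F x - F x| ≤ L := by
  have hD : (0 : ℝ) < D := by exact_mod_cast h.pos
  unfold ORC.avg
  have e : (∑ y ∈ G.neighborFinset x, F y) / D - F x =
      (∑ y ∈ G.neighborFinset x, (F y - F x)) / D := by
    rw [Finset.sum_sub_distrib, Finset.sum_const, h.deg x, nsmul_eq_mul]
    field_simp
  rw [e, abs_div, abs_of_pos hD, div_le_iff₀ hD]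
  refine (Finset.abs_sum_le_sum_abs _ _).trans ?_
  have : ∀ y ∈ G.neighborFinset x, |F y - F x| ≤ L := by
    intro y hy
    have hadj : G.Adj x y := by simpa using hy
    exact hF y x hadj.symm
  refine (Finset.sum_le_sum this).trans ?_
  rw [Finset.sum_const, h.deg x, nsmul_eq_mul]
  linarith

lemma IsLip.avgI_sub (h : Nice G D) {L : ℝ} {F : V → ℝ} (hL : 0 ≤ L) (hF : IsLip G L F) (k : ℕ)
    (x : V) : |ORC.avgI G D k F x - F x| ≤ L * k := by
  induction k with
  | zero => simp [avgI_zero]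
  | succ k ih =>
    rw [avgI_succ]
    have h1 := (hF.avgI h hL k).avg_sub h x
    push_cast
    have h2 : ORC.avg G D (ORC.avgI G D k F) x - F x =
      (ORC.avg G D (ORC.avgI G D k F) x - ORC.avgI G D k F x) + (ORC.avgI G D k F x - F x) := by ring
    rw [h2]
    refine (abs_add_le _ _).trans ?_
    linarith

lemma IsLip.ces_sub (h : Nice G D) {L : ℝ} {F : V → ℝ} (hL : 0 ≤ L) (hF : IsLip G L F) (k : ℕ)
    (x : V) : |ORC.ces G D k F x - F x| ≤ L * k := by
  unfold ORC.ces
  have hk : (0 : ℝ) < (k : ℝ) + 1 := by positivity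
  have e : (∑ j ∈ Finset.range (k + 1), ORC.avgI G D j F x) / ((k : ℝ) + 1) - F x =
      (∑ j ∈ Finset.range (k + 1), (ORC.avgI G D j F x - F x)) / ((k : ℝ) + 1) := by
    rw [Finset.sum_sub_distrib, Finset.sum_const, Finset.card_range, nsmul_eq_mul]
    push_cast
    field_simp
  rw [e, abs_div, abs_of_pos hk, div_le_iff₀ hk]
  refine (Finset.abs_sum_le_sum_abs _ _).trans ?_
  have : ∀ j ∈ Finset.range (k + 1), |ORC.avgI G D j F x - F x| ≤ L * k := by
    intro j hj
    refine (hF.avgI_sub h hL j x).trans ?_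
    apply mul_le_mul_of_nonneg_left _ hL
    have := Finset.mem_range.1 hj
    exact_mod_cast (by omega : j ≤ k)
  refine (Finset.sum_le_sum this).trans ?_
  rw [Finset.sum_const, Finset.card_range, nsmul_eq_mul]
  push_cast
  linarith

/-- the boundary estimate -/
lemma boundary_estimate (h : Nice G D) (H : V → ℝ) (c : ℝ) (hL : IsLip G 1 H)
    (hc : ∀ x, avg G D H x = H x + c) (o : V) (n : ℕ) :
    |c| * (bl h o (n + 1)).card ≤ (bl h o (n + 1)).card - (bl h o n).card := by
  classical
  have hD : (0 : ℝ) < D := by exact_mod_cast h.pos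
  set B := bl h o (n + 1) with hB
  set B' := bl h o n with hB'
  have hsub : B' ⊆ B := by
    intro z hz
    rw [hB, mem_bl]
    rw [hB', mem_bl] at hz
    omega
  have h1 : ∀ x, ∑ y ∈ G.neighborFinset x, (H y - H x) = D * c := by
    intro x
    have := hc x
    unfold avg at this
    rw [div_eq_iff hD.ne'] at this
    rw [Finset.sum_sub_distrib, this, Finset.sum_const, h.deg x, nsmul_eq_mul]
    ring
  have h2 : ∑ x ∈ B, ∑ y ∈ G.neighborFinset x, (H y - H x) = D * c * B.card := by
    rw [Finset.sum_congr rfl fun x _ => h1 x, Finset.sum_const, nsmul_eq_mul]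
    ring
  have h3 : ∀ x ∈ B, ∑ y ∈ G.neighborFinset x, (H y - H x) =
      ∑ y ∈ B, (if G.Adj x y then (H y - H x) else 0) +
      ∑ y ∈ (G.neighborFinset x).filter (fun y => y ∉ B), (H y - H x) := by
    intro x _
    rw [← Finset.sum_filter_add_sum_filter_not (G.neighborFinset x) (fun y => y ∈ B)]
    congr 1
    rw [← Finset.sum_filter]
    apply Finset.sum_congr _ fun _ _ => rfl
    ext y
    simp [and_comm]
  have h4 : ∑ x ∈ B, ∑ y ∈ B, (if G.Adj x y then (H y - H x) else 0) = 0 := by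
    have e1 : ∑ x ∈ B, ∑ y ∈ B, (if G.Adj x y then (H y - H x) else 0) =
        ∑ x ∈ B, ∑ y ∈ B, (if G.Adj x y then (H x - H y) else 0) := by
      rw [Finset.sum_comm]
      refine Finset.sum_congr rfl fun x _ => Finset.sum_congr rfl fun y _ => ?_
      by_cases hxy : G.Adj x y
      · rw [if_pos hxy, if_pos hxy.symm]
      · rw [if_neg hxy, if_neg (fun h' => hxy h'.symm)]
    have e2 : ∑ x ∈ B, ∑ y ∈ B, (if G.Adj x y then (H x - H y) else 0) =
        - ∑ x ∈ B, ∑ y ∈ B, (if G.Adj x y then (H y - H x) else 0) := by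
      rw [← Finset.sum_neg_distrib]
      refine Finset.sum_congr rfl fun x _ => ?_
      rw [← Finset.sum_neg_distrib]
      refine Finset.sum_congr rfl fun y _ => ?_
      split_ifs
      · ring
      · ring
    linarith
  have h5 : D * c * B.card =
      ∑ x ∈ B, ∑ y ∈ (G.neighborFinset x).filter (fun y => y ∉ B), (H y - H x) := by
    rw [← h2, Finset.sum_congr rfl h3, Finset.sum_add_distrib, h4, zero_add]
  have h6 : |∑ x ∈ B, ∑ y ∈ (G.neighborFinset x).filter (fun y => y ∉ B), (H y - H x)| ≤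
      ∑ x ∈ B \ B', (D : ℝ) := by
    rw [← Finset.sum_sdiff hsub]
    have e0 : ∑ x ∈ B', ∑ y ∈ (G.neighborFinset x).filter (fun y => y ∉ B), (H y - H x) = 0 := by
      refine Finset.sum_eq_zero fun x hx => ?_
      rw [Finset.filter_false_of_mem, Finset.sum_empty]
      intro y hy hyB
      apply hyB
      rw [hB, mem_bl]
      rw [hB', mem_bl] at hx
      have := h.dist_triangle o x y
      have h1 := dist_of_mem hy
      omega
    rw [e0, add_zero]
    refine (Finset.abs_sum_le_sum_abs _ _).trans (Finset.sum_le_sum fun x _ => ?_)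
    refine (Finset.abs_sum_le_sum_abs _ _).trans ?_
    have : ∀ y ∈ (G.neighborFinset x).filter (fun y => y ∉ B), |H y - H x| ≤ 1 := by
      intro y hy
      have hadj : G.Adj x y := by simpa using (Finset.mem_filter.1 hy).1
      exact hL y x hadj.symm
    refine (Finset.sum_le_sum this).trans ?_
    rw [Finset.sum_const, nsmul_eq_mul, mul_one, ← h.deg x]
    exact_mod_cast Finset.card_filter_le _ _
  rw [← h5, Finset.sum_const, nsmul_eq_mul, Finset.card_sdiff_of_subset hsub,
    Nat.cast_sub (Finset.card_le_card hsub)] at h6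
  have h7 : |D * c * (B.card : ℝ)| = D * (|c| * B.card) := by
    rw [abs_mul, abs_mul, abs_of_pos hD, abs_of_nonneg (by positivity : (0 : ℝ) ≤ (B.card : ℝ))]
    ring
  rw [h7] at h6
  have h8 : D * (|c| * B.card) ≤ D * ((B.card : ℝ) - B'.card) := by linarith
  exact le_of_mul_le_mul_left h8 hD

/-- A Lipschitz function with constant Laplacian is harmonic. -/
theorem c_zero (h : Nice G D) (H : V → ℝ) (c : ℝ) (hL : IsLip G 1 H)
    (hc : ∀ x, avg G D H x = H x + c) (o : V) : c = 0 := by
  by_contra hne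
  have hcpos : 0 < |c| := abs_pos.2 hne
  have hb : ∀ n, (1 : ℝ) ≤ (bl h o n).card := by
    intro n
    have : 0 < (bl h o n).card := Finset.card_pos.2 ⟨o, (mem_bl h o o n).2 (by simp)⟩
    exact_mod_cast this
  have hstep : ∀ n, ((bl h o n).card : ℝ) ≤ (1 - |c|) * (bl h o (n + 1)).card := by
    intro n
    have := boundary_estimate h H c hL hc o n
    linarith
  have hq : 0 < 1 - |c| := by
    have h1 := hstep 0
    have h2 := hb 0
    have h3 := hb 1
    by_contra hcon
    push Not at hcon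
    nlinarith
  have hpow : ∀ n, (1 : ℝ) ≤ (1 - |c|) ^ n * (bl h o n).card := by
    intro n
    induction n with
    | zero => simpa using hb 0
    | succ n ih =>
      refine ih.trans ?_
      rw [pow_succ, mul_assoc]
      exact mul_le_mul_of_nonneg_left (hstep n) (by positivity)
  have hten := tendsto_pow_const_mul_const_pow_of_abs_lt_one (2 * D + 1)
    (r := 1 - |c|) (by rw [abs_of_pos hq]; linarith)
  have hten2 := (hten.comp (tendsto_add_atTop_nat 1)).const_mul
    ((3 ^ D * (3 ^ D) ^ (2 * D) : ℝ) / (1 - |c|))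
  rw [mul_zero] at hten2
  have hev := hten2.eventually (gt_mem_nhds (show (0 : ℝ) < 1 by norm_num))
  obtain ⟨n, hn⟩ := hev.exists
  have h1 := hpow n
  have h2 : ((bl h o n).card : ℝ) ≤ 3 ^ D * (3 ^ D) ^ (2 * D) * (n + 1) ^ (2 * D + 1) := by
    exact_mod_cast card_bl h o n
  have h3 : (1 : ℝ) ≤ (1 - |c|) ^ n * (3 ^ D * (3 ^ D) ^ (2 * D) * (n + 1) ^ (2 * D + 1)) :=
    h1.trans (mul_le_mul_of_nonneg_left h2 (by positivity))
  simp only [Function.comp] at hn
  have h4 : (3 ^ D * (3 ^ D) ^ (2 * D) : ℝ) / (1 - |c|) *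
      (((n + 1 : ℕ) : ℝ) ^ (2 * D + 1) * (1 - |c|) ^ (n + 1)) =
      (1 - |c|) ^ n * (3 ^ D * (3 ^ D) ^ (2 * D) * (n + 1) ^ (2 * D + 1)) := by
    push_cast
    field_simp
    ring
  rw [h4] at hn
  linarith

/-- `x` has an outgoing edge of slope exactly `L` -/
def Out (G : SimpleGraph V) (L : ℝ) (H : V → ℝ) (x : V) : Prop := ∃ y, G.Adj x y ∧ H y - H x = L

lemma tight (h : Nice G D) {H : V → ℝ} {L : ℝ} (hH : IsHarm G D H) (hL : IsLip G L H) {x y : V}
    (hxy : G.Adj x y) (hs : H y - H x = L) (hpos : 0 ≤ L) : ∃ σ : V → V,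
    Set.BijOn σ (G.neighborFinset x) (G.neighborFinset y) ∧
      ∀ a ∈ G.neighborFinset x, H (σ a) - H a = L * G.dist a (σ a) := by
  have hD : (0 : ℝ) < D := by exact_mod_cast h.pos
  obtain ⟨σ, hσ, hsum⟩ := h.matching x y hxy
  refine ⟨σ, hσ, ?_⟩
  have h1 : ∑ a ∈ G.neighborFinset x, (H (σ a) - H a) = D * L := by
    have e1 := hH x
    have e2 := hH y
    unfold avg at e1 e2
    rw [div_eq_iff hD.ne'] at e1 e2
    rw [Finset.sum_sub_distrib, ← sum_bijOn hσ H, e1, e2, ← hs]
    ring
  have h2 : ∀ a ∈ G.neighborFinset x, H (σ a) - H a ≤ L * G.dist a (σ a) := by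
    intro a _
    have := hL.dist_le h.conn (σ a) a
    rw [SimpleGraph.dist_comm] at this
    exact (le_abs_self _).trans this
  have h3 : ∑ a ∈ G.neighborFinset x, L * (G.dist a (σ a) : ℝ) ≤ D * L := by
    rw [← Finset.mul_sum, mul_comm]
    apply mul_le_mul_of_nonneg_right _ hpos
    exact_mod_cast hsum
  have h4 : ∑ a ∈ G.neighborFinset x, (H (σ a) - H a) = ∑ a ∈ G.neighborFinset x, L * (G.dist a (σ a) : ℝ) :=
    le_antisymm (Finset.sum_le_sum h2) (h3.trans h1.ge)
  intro a ha
  exact (Finset.sum_eq_sum_iff_of_le h2).1 h4 a ha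

lemma out_of_tight (h : Nice G D) {H : V → ℝ} {L : ℝ} (hL : IsLip G L H) {a b : V}
    (hab : a ≠ b) (hs : H b - H a = L * G.dist a b) : Out G L H a := by
  have hd : G.dist a b ≠ 0 := by
    intro h0
    exact hab ((h.conn.dist_eq_zero_iff).1 h0)
  obtain ⟨n, hn⟩ := Nat.exists_eq_succ_of_ne_zero hd
  obtain ⟨c, hc, hcb⟩ := exists_first_step h.conn hn
  have hadj : G.Adj a c := by simpa using hc
  refine ⟨c, hadj, ?_⟩
  have h1 := hL.dist_le h.conn b c
  rw [SimpleGraph.dist_comm, hcb] at h1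
  have h2 := hL c a hadj.symm
  have h3 := (abs_le.1 h1).2
  have h4 := (abs_le.1 h2).2
  rw [hn] at hs
  push_cast at hs
  linarith

/-- The `U = V` lemma. -/
theorem all_out (h : Nice G D) {H : V → ℝ} {L : ℝ} (hH : IsHarm G D H) (hL : IsLip G L H)
    (hpos : 0 < L) {x₀ : V} (hx₀ : Out G L H x₀) (x : V) : Out G L H x := by
  -- slope edges propagate forward
  have fwd : ∀ x y, G.Adj x y → H y - H x = L → ∃ z, G.Adj y z ∧ H z - H y = L := by
    intro x y hxy hs
    obtain ⟨σ, hσ, ht⟩ := tight h hH hL hxy hs hpos.le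
    have hy : y ∈ G.neighborFinset x := by simpa using hxy
    have h1 : σ y ∈ G.neighborFinset y := hσ.mapsTo hy
    have h2 : G.Adj y (σ y) := by simpa using h1
    refine ⟨σ y, h2, ?_⟩
    rw [ht y hy, dist_of_mem h1]
    simp
  -- either out or common neighbour
  have step : ∀ x y a, G.Adj x y → H y - H x = L → G.Adj x a → Out G L H a ∨ G.Adj y a := by
    intro x y a hxy hs hxa
    obtain ⟨σ, hσ, ht⟩ := tight h hH hL hxy hs hpos.le
    have ha : a ∈ G.neighborFinset x := by simpa using hxa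
    by_cases hfix : σ a = a
    · right
      have h1 : σ a ∈ G.neighborFinset y := hσ.mapsTo ha
      rw [hfix] at h1
      simpa using h1
    · left
      exact out_of_tight h hL (fun h' => hfix h'.symm) (ht a ha)
  have key : ∀ x a, Out G L H x → G.Adj x a → Out G L H a := by
    rintro x a ⟨y, hxy, hs⟩ hxa
    obtain ⟨y2, hy2, hs2⟩ := fwd x y hxy hs
    obtain ⟨y3, hy3, hs3⟩ := fwd y y2 hy2 hs2
    rcases step x y a hxy hs hxa with h1 | h1
    · exact h1
    rcases step y y2 a hy2 hs2 h1 with h2 | h2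
    · exact h2
    rcases step y2 y3 a hy3 hs3 h2 with h3 | h3
    · exact h3
    exfalso
    have e1 := (abs_le.1 (hL a x hxa.symm)).2
    have e2 := (abs_le.1 (hL y3 a h3)).2
    linarith
  obtain ⟨p⟩ := h.conn.preconnected x₀ x
  induction p with
  | nil => exact hx₀
  | cons hadj q ih => exact ih (key _ _ hx₀ hadj)

end Pool.Agent.H80.ORC
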