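import Pool.Agent.H80.ORC.Chain

/-!
# The polytope of increments, and coordinates
-/

set_option autoImplicit false
set_option linter.unusedSectionVars false

namespace Pool.Agent.H80.ORC

open Finset Filter Topology Pointwise

variable {V : Type*} {G : SimpleGraph V} [G.LocallyFinite] {D : ℕ}

/-- Data: a map `Ψ` to `ℝ^d` all of whose linear functionals are harmonic and Lipschitz, and which
captures every Lipschitz harmonic function. -/
structure Univ (G : SimpleGraph V) [G.LocallyFinite] (D : ℕ) (d : ℕ) (Ψ : V → (Fin d → ℝ)) : Prop where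
  harm : ∀ x, (∑ y ∈ G.neighborFinset x, (Ψ y - Ψ x)) = 0
  lin : ∀ f : (Fin d → ℝ) →ₗ[ℝ] ℝ, IsHarm G D (fun z => f (Ψ z)) ∧ ∃ L, IsLip G L (fun z => f (Ψ z))
  rep : ∀ H : V → ℝ, IsHarm G D H → (∃ L, IsLip G L H) → ∃ f : (Fin d → ℝ) →ₗ[ℝ] ℝ,
    ∀ z w, H w - H z = f (Ψ w - Ψ z)
  inj : ∀ f : (Fin d → ℝ) →ₗ[ℝ] ℝ, (∀ z w, f (Ψ w - Ψ z) = 0) → f = 0

lemma exists_univ (h : Nice G D) (ht : Trans G) : ∃ d Ψ, Univ G D d Ψ := by
  obtain ⟨o⟩ := h.conn.nonempty
  have hD : (D : ℝ) ≠ 0 := by exact_mod_cast h.pos.ne'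
  have := finiteDimensional h ht o
  obtain ⟨d, ⟨b⟩⟩ : ∃ d : ℕ, Nonempty (Module.Basis (Fin d) ℝ (HarmLip G D o)) :=
    ⟨_, ⟨Module.finBasis ℝ (HarmLip G D o)⟩⟩
  have hev : ∀ (f : (Fin d → ℝ) →ₗ[ℝ] ℝ) (z : V),
      f (fun i => (b i).1 z) = (∑ i, f (Pi.single i 1) • b i : HarmLip G D o).1 z := by
    intro f z
    rw [AddSubmonoidClass.coe_finsetSum, Finset.sum_apply]
    rw [LinearMap.pi_apply_eq_sum_univ f (fun i => (b i).1 z)]
    refine Finset.sum_congr rfl fun i _ => ?_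
    change (b i).1 z • f (fun j => if i = j then 1 else 0) = f (Pi.single i 1) * (b i).1 z
    rw [smul_eq_mul, mul_comm]
    congr 2
    funext j
    by_cases hij : i = j
    · subst hij; simp
    · rw [if_neg hij, Pi.single_eq_of_ne (fun h' => hij h'.symm)]
  refine ⟨d, fun z i => (b i).1 z, ?_, ?_, ?_, ?_⟩
  · intro x
    funext i
    rw [Finset.sum_apply]
    have h1 := (b i).2.1 x
    unfold avg at h1
    rw [div_eq_iff hD] at h1
    have : ∑ c ∈ G.neighborFinset x, ((fun i => (b i).1 c) - fun i => (b i).1 x : Fin d → ℝ) i =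
        ∑ c ∈ G.neighborFinset x, ((b i).1 c - (b i).1 x) := rfl
    rw [this, Finset.sum_sub_distrib, h1, Finset.sum_const, h.deg x, nsmul_eq_mul]
    simp only [Pi.zero_apply]
    ring
  · intro f
    have e : (fun z => f (fun i => (b i).1 z)) = (∑ i, f (Pi.single i 1) • b i : HarmLip G D o).1 := by
      funext z; exact hev f z
    rw [e]
    exact ⟨(∑ i, f (Pi.single i 1) • b i : HarmLip G D o).2.1,
      (∑ i, f (Pi.single i 1) • b i : HarmLip G D o).2.2.1⟩
  · intro H hH ⟨L, hL⟩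
    let H' : HarmLip G D o := ⟨fun z => H z - H o, harm_sub_const h hH _, ⟨L, lip_sub_const hL _⟩,
      by simp⟩
    refine ⟨(Fintype.linearCombination ℝ (fun i => b.coord i H')), ?_⟩
    intro z w
    have hrep : ∀ z, H z - H o = ∑ i, (b i).1 z * b.coord i H' := by
      intro z
      have e : (∑ i, b.coord i H' • b i : HarmLip G D o) = H' := b.sum_repr H'
      have e2 : (∑ i, b.coord i H' • b i : HarmLip G D o).1 z = ∑ i, b.coord i H' * (b i).1 z := by
        rw [AddSubmonoidClass.coe_finsetSum, Finset.sum_apply]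
        rfl
      have e3 : H z - H o = (∑ i, b.coord i H' • b i : HarmLip G D o).1 z := by rw [e]
      rw [e3, e2]
      exact Finset.sum_congr rfl fun i _ => mul_comm _ _
    rw [Fintype.linearCombination_apply]
    have : H w - H z = (H w - H o) - (H z - H o) := by ring
    rw [this, hrep w, hrep z, ← Finset.sum_sub_distrib]
    refine Finset.sum_congr rfl fun i _ => ?_
    change _ = ((b i).1 w - (b i).1 z) * b.coord i H'
    ring
  · intro f hf
    have h1 : ∀ z, (∑ i, f (Pi.single i 1) • b i : HarmLip G D o).1 z = 0 := by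
      intro z
      rw [← hev f z]
      have h2 := hf o z
      rw [map_sub, hev f o] at h2
      have h3 : (∑ i, f (Pi.single i 1) • b i : HarmLip G D o).1 o = 0 :=
        (∑ i, f (Pi.single i 1) • b i : HarmLip G D o).2.2.2
      rw [h3, sub_zero] at h2
      exact h2
    have h2 : (∑ i, f (Pi.single i 1) • b i : HarmLip G D o) = 0 := by
      apply Subtype.ext
      funext z
      exact h1 z
    have h3 := Fintype.linearIndependent_iff.1 b.linearIndependent (fun i => f (Pi.single i 1)) h2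
    apply LinearMap.pi_ext'
    intro i
    apply LinearMap.ext_ring
    exact h3 i

variable {d : ℕ} {Ψ : V → (Fin d → ℝ)}

/-- increments at `x` -/
def Inc (G : SimpleGraph V) (Ψ : V → (Fin d → ℝ)) (x : V) : Set (Fin d → ℝ) :=
  {w | ∃ y, G.Adj x y ∧ w = Ψ y - Ψ x}

lemma inc_finite (x : V) : (Inc G Ψ x).Finite := by
  have : Inc G Ψ x ⊆ (fun y => Ψ y - Ψ x) '' (G.neighborFinset x : Set V) := by
    rintro w ⟨y, hy, rfl⟩
    exact ⟨y, by simpa using hy, rfl⟩
  exact ((G.neighborFinset x).finite_toSet.image _).subset this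

/-- the polytope at `x` -/
def Pol (G : SimpleGraph V) (Ψ : V → (Fin d → ℝ)) (x : V) : Set (Fin d → ℝ) :=
  convexHull ℝ (Inc G Ψ x)

lemma pol_compact (x : V) : IsCompact (Pol G Ψ x) := (inc_finite x).isCompact_convexHull ℝ

lemma pol_subset (h : Nice G D) (ht : Trans G) (hU : Univ G D d Ψ) (x x' : V) :
    Pol G Ψ x ⊆ Pol G Ψ x' := by
  apply convexHull_min _ (convex_convexHull ℝ _)
  rintro w ⟨y, hxy, rfl⟩
  by_contra hw
  obtain ⟨f, u, hf1, hf2⟩ := geometric_hahn_banach_closed_point (convex_convexHull ℝ (Inc G Ψ x'))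
    (pol_compact (G := G) (Ψ := Ψ) x').isClosed hw
  obtain ⟨h1, L₀, h2⟩ := hU.lin f.toLinearMap
  obtain ⟨L, hL0, hL, hout⟩ := attains h ht h1 h2
  obtain ⟨y', hy', hs⟩ := hout x'
  have e1 : f (Ψ y' - Ψ x') < u := hf1 _ (subset_convexHull ℝ _ ⟨y', hy', rfl⟩)
  have e2 : f (Ψ y - Ψ x) ≤ L := by
    have := hL y x hxy.symm
    rw [map_sub]
    exact (le_abs_self _).trans this
  rw [map_sub] at e1
  have e3 : f (Ψ y') - f (Ψ x') = L := hs
  linarith

lemma pol_eq (h : Nice G D) (ht : Trans G) (hU : Univ G D d Ψ) (x x' : V) :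
    Pol G Ψ x = Pol G Ψ x' :=
  (pol_subset h ht hU x x').antisymm (pol_subset h ht hU x' x)

lemma ext_mem_inc (h : Nice G D) (ht : Trans G) (hU : Univ G D d Ψ) (o : V) {v : Fin d → ℝ}
    (hv : v ∈ (Pol G Ψ o).extremePoints ℝ) (x : V) : v ∈ Inc G Ψ x := by
  rw [pol_eq h ht hU o x] at hv
  exact extremePoints_convexHull_subset hv

lemma neg_mem_pol (h : Nice G D) (ht : Trans G) (hU : Univ G D d Ψ) (o : V) {v : Fin d → ℝ}
    (hv : v ∈ Pol G Ψ o) : -v ∈ Pol G Ψ o := by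
  have hsub : Inc G Ψ o ⊆ -(Pol G Ψ o) := by
    rintro w ⟨y, hy, rfl⟩
    rw [Set.mem_neg, neg_sub, pol_eq h ht hU o y]
    exact subset_convexHull ℝ _ ⟨o, hy.symm, rfl⟩
  have := convexHull_min hsub (convex_convexHull ℝ (Inc G Ψ o)).neg hv
  simpa using this

lemma neg_mem_ext (h : Nice G D) (ht : Trans G) (hU : Univ G D d Ψ) (o : V) {v : Fin d → ℝ}
    (hv : v ∈ (Pol G Ψ o).extremePoints ℝ) : -v ∈ (Pol G Ψ o).extremePoints ℝ := by
  rw [mem_extremePoints] at hv ⊢
  refine ⟨neg_mem_pol h ht hU o hv.1, ?_⟩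
  intro p hp q hq hpq
  have h1 : v ∈ openSegment ℝ (-p) (-q) := by
    obtain ⟨a, b, ha, hb, hab, hv'⟩ := hpq
    refine ⟨a, b, ha, hb, hab, ?_⟩
    rw [smul_neg, smul_neg, ← neg_add, hv', neg_neg]
  obtain ⟨e1, e2⟩ := hv.2 (-p) (neg_mem_pol h ht hU o hp) (-q) (neg_mem_pol h ht hU o hq) h1
  constructor
  · rw [← e1, neg_neg]
  · rw [← e2, neg_neg]

/-- edges of type `v` -/
def Ty (G : SimpleGraph V) (Ψ : V → (Fin d → ℝ)) (v : Fin d → ℝ) (x y : V) : Prop :=
  G.Adj x y ∧ Ψ y - Ψ x = v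

lemma zero_mem_pol (h : Nice G D) (hU : Univ G D d Ψ) (o : V) :
    (0 : Fin d → ℝ) ∈ Pol G Ψ o := by
  have hD : (D : ℝ) ≠ 0 := by exact_mod_cast h.pos.ne'
  have h1 : ∑ y ∈ G.neighborFinset o, ((D : ℝ)⁻¹) • (Ψ y - Ψ o) ∈ Pol G Ψ o := by
    refine (convex_convexHull ℝ (Inc G Ψ o)).sum_mem (fun _ _ => by positivity) ?_ ?_
    · rw [Finset.sum_const, h.deg o, nsmul_eq_mul, mul_inv_cancel₀ hD]
    · intro y hy
      exact subset_convexHull ℝ _ ⟨y, by simpa using hy, rfl⟩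
  rwa [← Finset.smul_sum, hU.harm o, smul_zero] at h1

lemma inc_mem_smul (h : Nice G D) (ht : Trans G) (hU : Univ G D d Ψ) (o : V) :
    ∀ (n : ℕ) (x y : V), G.dist x y = n → Ψ y - Ψ x ∈ (n : ℝ) • Pol G Ψ o := by
  intro n
  induction n with
  | zero =>
    intro x y hxy
    have : x = y := (h.conn.dist_eq_zero_iff).1 hxy
    subst this
    rw [sub_self]
    refine Set.mem_smul_set.2 ⟨0, zero_mem_pol h hU o, ?_⟩
    simp
  | succ n ih =>
    intro x y hxy
    obtain ⟨a, ha, hay⟩ := exists_first_step h.conn hxy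
    have h1 := ih a y hay
    have h2 : Ψ a - Ψ x ∈ Pol G Ψ o := by
      rw [pol_eq h ht hU o x]
      exact subset_convexHull ℝ _ ⟨a, by simpa using ha, rfl⟩
    have e : Ψ y - Ψ x = (Ψ y - Ψ a) + (Ψ a - Ψ x) := by abel
    have hK : Convex ℝ (Pol G Ψ o) := convex_convexHull ℝ (Inc G Ψ o)
    rw [e, Nat.cast_succ, hK.add_smul (Nat.cast_nonneg n) zero_le_one, one_smul]
    exact Set.add_mem_add h1 h2

lemma chain_of_inc (h : Nice G D) (ht : Trans G) (hU : Univ G D d Ψ) (o : V) {v : Fin d → ℝ}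
    (hv : v ∈ (Pol G Ψ o).extremePoints ℝ) :
    ∀ (n : ℕ) (x y : V), G.dist x y = n → Ψ y - Ψ x = (n : ℝ) • v → Chain (Ty G Ψ v) n x y := by
  intro n
  induction n with
  | zero =>
    intro x y hxy _
    exact (h.conn.dist_eq_zero_iff).1 hxy
  | succ n ih =>
    intro x y hxy hs
    obtain ⟨a, ha, hay⟩ := exists_first_step h.conn hxy
    have h1 := inc_mem_smul h ht hU o n a y hay
    have h2 : Ψ a - Ψ x ∈ ((1 : ℕ) : ℝ) • Pol G Ψ o := by
      rw [pol_eq h ht hU o x, Nat.cast_one, one_smul]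
      exact subset_convexHull ℝ _ ⟨a, by simpa using ha, rfl⟩
    have e : (Ψ y - Ψ a) + (Ψ a - Ψ x) = ((n + 1 : ℕ) : ℝ) • v := by rw [← hs]; abel
    obtain ⟨e1, e2⟩ := ext_split hv n 1 h1 h2 e
    rw [Nat.cast_one, one_smul] at e2
    exact ⟨a, ⟨by simpa using ha, e2⟩, ih a y hay e1⟩

lemma ty_matching (h : Nice G D) (ht : Trans G) (hU : Univ G D d Ψ) (o : V) {v : Fin d → ℝ}
    (hv : v ∈ (Pol G Ψ o).extremePoints ℝ) {x y : V} (hxy : Ty G Ψ v x y) :
    ∃ σ : V → V, Set.BijOn σ (G.neighborFinset x) (G.neighborFinset y) ∧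
      ∀ a ∈ G.neighborFinset x, ∃ n, Chain (Ty G Ψ v) n a (σ a) := by
  obtain ⟨hadj, hinc⟩ := hxy
  obtain ⟨σ, hσ, hsum⟩ := h.matching x y hadj
  refine ⟨σ, hσ, ?_⟩
  have hK := convex_convexHull ℝ (Inc G Ψ o)
  have hz : ∀ x, ∑ a ∈ G.neighborFinset x, Ψ a = (D : ℝ) • Ψ x := by
    intro x
    have := hU.harm x
    rw [Finset.sum_sub_distrib, Finset.sum_const, h.deg x, sub_eq_zero] at this
    rw [this, ← Nat.cast_smul_eq_nsmul ℝ]
  have hw : ∑ a ∈ G.neighborFinset x, (Ψ (σ a) - Ψ a) = (D : ℝ) • v := by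
    rw [Finset.sum_sub_distrib, ← sum_bijOn hσ Ψ, hz, hz, ← smul_sub, hinc]
  have hmem : ∀ a ∈ G.neighborFinset x, Ψ (σ a) - Ψ a ∈ (G.dist a (σ a) : ℝ) • Pol G Ψ o :=
    fun a _ => inc_mem_smul h ht hU o _ a (σ a) rfl
  have hne : (Pol G Ψ o).Nonempty := ⟨0, zero_mem_pol h hU o⟩
  have hm := sum_mem_smul hK hne (G.neighborFinset x) (fun a => G.dist a (σ a))
    (fun a => Ψ (σ a) - Ψ a) hmem
  obtain ⟨r, hr⟩ := Nat.exists_eq_add_of_le hsum
  have h0 : (0 : Fin d → ℝ) ∈ (r : ℝ) • Pol G Ψ o :=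
    Set.mem_smul_set.2 ⟨0, zero_mem_pol h hU o, smul_zero _⟩
  have h1 := ext_split hv _ r hm h0 (by rw [add_zero, hw, ← hr])
  have h2 := sum_split hK hv (G.neighborFinset x) (fun a => G.dist a (σ a))
    (fun a => Ψ (σ a) - Ψ a) hmem h1.1
  intro a ha
  exact ⟨_, chain_of_inc h ht hU o hv _ a (σ a) rfl (h2 a ha)⟩

lemma span_ext (h : Nice G D) (ht : Trans G) (hU : Univ G D d Ψ) (o : V) :
    Submodule.span ℝ ((Pol G Ψ o).extremePoints ℝ) = ⊤ := by
  by_contra hne
  obtain ⟨f, hf0, hf⟩ := Submodule.exists_le_ker_of_lt_top _ (lt_top_iff_ne_top.2 hne)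
  apply hf0
  apply hU.inj
  have hcl : IsClosed (f.ker : Set (Fin d → ℝ)) := Submodule.closed_of_finiteDimensional _
  have h1 : Pol G Ψ o ⊆ (f.ker : Set (Fin d → ℝ)) := by
    rw [← closure_convexHull_extremePoints (pol_compact (G := G) (Ψ := Ψ) o)
      (convex_convexHull ℝ (Inc G Ψ o))]
    apply closure_minimal _ hcl
    apply convexHull_min _ (Submodule.convex _)
    exact Submodule.subset_span.trans hf
  intro z w
  obtain ⟨p⟩ := h.conn.preconnected z w
  induction p with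
  | nil => simp
  | cons hadj q ih =>
    rename_i u v' w'
    have h2 : Ψ v' - Ψ u ∈ Pol G Ψ o := by
      rw [pol_eq h ht hU o u]
      exact subset_convexHull ℝ _ ⟨v', hadj, rfl⟩
    have h3 : f (Ψ v' - Ψ u) = 0 := h1 h2
    have h4 : Ψ w' - Ψ u = (Ψ w' - Ψ v') + (Ψ v' - Ψ u) := by abel
    rw [h4, map_add, ih, h3, add_zero]

/-- Coordinates adapted to types of edges. -/
structure Coord (G : SimpleGraph V) [G.LocallyFinite] (D : ℕ) (d : ℕ) (H : Fin d → V → ℝ)
    (T : Fin d → Bool → V → V → Prop) : Prop where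
  lip : ∃ L, 0 ≤ L ∧ ∀ j, IsLip G L (H j)
  adj : ∀ j s x y, T j s x y → G.Adj x y
  inc : ∀ j s x y, T j s x y → ∀ i, H i y - H i x = if i = j then (if s then 1 else -1) else 0
  out : ∀ j s x, ∃ y, T j s x y
  mat : ∀ j s x y, T j s x y → ∃ σ : V → V, Set.BijOn σ (G.neighborFinset x) (G.neighborFinset y) ∧
      ∀ a ∈ G.neighborFinset x, ∃ n, Chain (T j s) n a (σ a)
  rep : ∀ F : V → ℝ, IsHarm G D F → (∃ L, IsLip G L F) → ∃ a : Fin d → ℝ,
    ∀ z w, F w - F z = ∑ j, a j * (H j w - H j z)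

theorem exists_coord (h : Nice G D) (ht : Trans G) : ∃ d H T, Coord G D d H T := by
  obtain ⟨o⟩ := h.conn.nonempty
  obtain ⟨d, Ψ, hU⟩ := exists_univ h ht
  obtain ⟨b, hb, hspan, hli⟩ := exists_linearIndependent ℝ ((Pol G Ψ o).extremePoints ℝ)
  rw [span_ext h ht hU o] at hspan
  have hfin : Finite b := ((inc_finite (G := G) (Ψ := Ψ) o).subset
    (fun v hv => ext_mem_inc h ht hU o (hb hv) o)).to_subtype
  have hfint : Fintype b := Fintype.ofFinite b
  let B0 : Module.Basis b ℝ (Fin d → ℝ) := Module.Basis.mk hli (by simp [hspan])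
  have hcard : Fintype.card b = d := by
    rw [← Module.finrank_eq_card_basis B0]; simp
  let e : b ≃ Fin d := Fintype.equivFinOfCardEq hcard
  let B : Module.Basis (Fin d) ℝ (Fin d → ℝ) := B0.reindex e
  have hB : ∀ j, B j ∈ (Pol G Ψ o).extremePoints ℝ := by
    intro j
    have : B j = (e.symm j).1 := by
      simp [B, B0]
    rw [this]
    exact hb (e.symm j).2
  let vv : Fin d → Bool → (Fin d → ℝ) := fun j s => if s then B j else - B j
  have hvv : ∀ j s, vv j s ∈ (Pol G Ψ o).extremePoints ℝ := by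
    intro j s
    cases s
    · exact neg_mem_ext h ht hU o (hB j)
    · exact hB j
  refine ⟨d, fun j z => B.coord j (Ψ z), fun j s => Ty G Ψ (vv j s), ?_, ?_, ?_, ?_, ?_, ?_⟩
  · choose L hL using fun j => (hU.lin (B.coord j)).2
    refine ⟨∑ j, |L j|, Finset.sum_nonneg fun j _ => abs_nonneg _, fun j => ?_⟩
    apply (hL j).mono
    exact (le_abs_self _).trans (Finset.single_le_sum (f := fun j => |L j|)
      (fun i _ => abs_nonneg _) (Finset.mem_univ j))
  · intro j s x y hxy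
    exact hxy.1
  · intro j s x y hxy i
    have h1 : B.coord i (Ψ y) - B.coord i (Ψ x) = B.coord i (vv j s) := by
      rw [← map_sub, hxy.2]
    change B.coord i (Ψ y) - B.coord i (Ψ x) = _
    rw [h1]
    have h2 : B.coord i (B j) = if i = j then 1 else 0 := by
      rw [Module.Basis.coord_apply, Module.Basis.repr_self, Finsupp.single_apply]
      simp only [eq_comm]
    cases s
    · change B.coord i (- B j) = _
      rw [map_neg, h2]
      by_cases hij : i = j
      · simp [hij]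
      · simp [hij]
    · change B.coord i (B j) = _
      rw [h2]
      by_cases hij : i = j
      · simp [hij]
      · simp [hij]
  · intro j s x
    obtain ⟨y, hy, he⟩ := ext_mem_inc h ht hU o (hvv j s) x
    exact ⟨y, hy, he.symm⟩
  · intro j s x y hxy
    exact ty_matching h ht hU o (hvv j s) hxy
  · intro F hF hL
    obtain ⟨f, hf⟩ := hU.rep F hF hL
    refine ⟨fun j => f (B j), fun z w => ?_⟩
    rw [hf z w]
    conv_lhs => rw [← B.sum_repr (Ψ w - Ψ z)]
    rw [map_sum]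
    refine Finset.sum_congr rfl fun j _ => ?_
    rw [map_smul, smul_eq_mul, mul_comm]
    congr 1
    change B.coord j (Ψ w - Ψ z) = B.coord j (Ψ w) - B.coord j (Ψ z)
    rw [map_sub]

end Pool.Agent.H80.ORC
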