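import Pool.Agent.H80.ORC.Polytope

/-!
# Shadowing of block paths
-/

set_option autoImplicit false
set_option linter.unusedSectionVars false

namespace Pool.Agent.H80.ORC

open Finset Filter Topology

variable {V : Type*} {G : SimpleGraph V} [G.LocallyFinite] {D : ℕ} {d : ℕ} {H : Fin d → V → ℝ}
  {T : Fin d → Bool → V → V → Prop}

lemma adj_shadow (hC : Coord G D d H T) (j : Fin d) (s : Bool) :
    ∀ (n : ℕ) (x x' y : V), G.Adj x x' → Chain (T j s) n x y →
      ∃ m y', Chain (T j s) m x' y' ∧ G.Adj y y' := by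
  intro n
  induction n with
  | zero =>
    intro x x' y hxx h
    have h' : x = y := h
    subst h'
    exact ⟨0, x', rfl, hxx⟩
  | succ n ih =>
    rintro x x' y hxx ⟨z, hz, hc⟩
    obtain ⟨σ, hσ, hs⟩ := hC.mat j s x z hz
    have hx' : x' ∈ G.neighborFinset x := by simpa using hxx
    obtain ⟨k, hk⟩ := hs x' hx'
    have h1 : σ x' ∈ G.neighborFinset z := hσ.mapsTo hx'
    obtain ⟨m, y', hm, hy'⟩ := ih z (σ x') y (by simpa using h1) hc
    exact ⟨k + m, y', hk.trans hm, hy'⟩

lemma shadow (h : Nice G D) (hC : Coord G D d H T) (j : Fin d) (s : Bool) (n : ℕ) (x x' y : V)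
    (hc : Chain (T j s) n x y) :
    ∃ m y', Chain (T j s) m x' y' ∧ G.dist y y' ≤ G.dist x x' := by
  obtain ⟨p, hp⟩ := h.conn.exists_walk_length_eq_dist x x'
  rw [← hp]
  clear hp
  induction p generalizing n y with
  | nil => exact ⟨n, y, hc, by simp⟩
  | cons hadj q ih =>
    rename_i u v w
    obtain ⟨m, y1, hm, hy1⟩ := adj_shadow hC j s n u v y hadj hc
    obtain ⟨m', y', hm', hy'⟩ := ih m y1 hm
    refine ⟨m', y', hm', ?_⟩
    rw [SimpleGraph.Walk.length_cons]
    have h1 : G.dist y y' ≤ G.dist y y1 + G.dist y1 y' := h.conn.dist_triangle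
    have h2 : G.dist y y1 = 1 := SimpleGraph.dist_eq_one_iff_adj.2 hy1
    omega

/-- signed chain -/
def SCh (T : Fin d → Bool → V → V → Prop) (j : Fin d) (N : ℤ) (x y : V) : Prop :=
  Chain (T j (decide (0 ≤ N))) N.natAbs x y

lemma chain_inc (hC : Coord G D d H T) {j : Fin d} {s : Bool} {n : ℕ} {x y : V}
    (hc : Chain (T j s) n x y) (i : Fin d) :
    H i y - H i x = n * (if i = j then (if s then 1 else -1) else 0) :=
  hc.inc fun x y hxy => hC.inc j s x y hxy i

lemma sch_inc (hC : Coord G D d H T) {j : Fin d} {N : ℤ} {x y : V}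
    (hc : SCh T j N x y) (i : Fin d) :
    H i y - H i x = if i = j then (N : ℝ) else 0 := by
  rw [chain_inc hC hc i]
  by_cases hij : i = j
  · rw [if_pos hij, if_pos hij]
    by_cases hN : 0 ≤ N
    · have h1 : ((N.natAbs : ℤ) : ℝ) = (N : ℝ) := by
        rw [Int.natAbs_of_nonneg hN]
      rw [decide_eq_true hN]
      simp only [if_true, mul_one]
      rw [← h1]; simp
    · have h1 : ((N.natAbs : ℤ) : ℝ) = -(N : ℝ) := by
        have : (N.natAbs : ℤ) = -N := by omega
        rw [this]; push_cast; ring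
      rw [decide_eq_false hN]
      have h2 : ((N.natAbs : ℕ) : ℝ) = -(N : ℝ) := by rw [← h1]; simp
      rw [h2]
      simp
  · rw [if_neg hij, if_neg hij, mul_zero]

lemma sch_exists (hC : Coord G D d H T) (j : Fin d) (N : ℤ) (x : V) : ∃ y, SCh T j N x y :=
  Chain.exists (hC.out j _) _ x

lemma sch_dist (h : Nice G D) (hC : Coord G D d H T) {j : Fin d} {N : ℤ} {x y : V}
    (hc : SCh T j N x y) : G.dist x y ≤ N.natAbs :=
  Chain.dist_le h.conn (hC.adj j _) hc

lemma sch_adjust (h : Nice G D) (hC : Coord G D d H T) {L : ℝ} (hL0 : 0 ≤ L)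
    (hL : ∀ j, IsLip G L (H j)) (j : Fin d) (R B : ℝ)
    (N N' : ℤ) (hN : |(N : ℝ) - N'| ≤ B) (x x' y : V) (hx : (G.dist x x' : ℝ) ≤ R)
    (hc : SCh T j N x y) : ∃ y', SCh T j N' x' y' ∧ (G.dist y y' : ℝ) ≤ R + (2 * L * R + B) := by
  obtain ⟨m, y0, hm, hy0⟩ := shadow h hC j _ _ x x' y hc
  have hy0R : (G.dist y y0 : ℝ) ≤ R := le_trans (by exact_mod_cast hy0) hx
  have e1 := sch_inc hC hc j
  have e2 := chain_inc hC hm j
  rw [if_pos rfl] at e1 e2
  have e3 : |(H j y0 - H j x') - (H j y - H j x)| ≤ 2 * L * R := by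
    have f1 := (hL j).dist_le h.conn y y0
    have f2 := (hL j).dist_le h.conn x x'
    have f3 : (H j y0 - H j x') - (H j y - H j x) = -(H j y - H j y0) + (H j x - H j x') := by ring
    rw [f3]
    refine (abs_add_le _ _).trans ?_
    rw [abs_neg]
    have f4 : L * (G.dist y y0 : ℝ) ≤ L * R := mul_le_mul_of_nonneg_left hy0R hL0
    have f5 : L * (G.dist x x' : ℝ) ≤ L * R := mul_le_mul_of_nonneg_left hx hL0
    linarith
  rw [e1, e2] at e3
  have hdist : ∀ y', (G.dist y y' : ℝ) ≤ G.dist y y0 + G.dist y0 y' := by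
    intro y'
    exact_mod_cast h.conn.dist_triangle
  -- key: a bound on the discrepancy
  have e4 : |(m : ℝ) * (if decide (0 ≤ N) = true then 1 else -1) - N'| ≤ 2 * L * R + B := by
    have : (m : ℝ) * (if decide (0 ≤ N) = true then 1 else -1) - N' =
      ((m : ℝ) * (if decide (0 ≤ N) = true then 1 else -1) - N) + ((N : ℝ) - N') := by ring
    rw [this]
    exact (abs_add_le _ _).trans (add_le_add e3 hN)
  by_cases hs : decide (0 ≤ N) = decide (0 ≤ N')
  · -- same sign
    have e5 : |(m : ℝ) - N'.natAbs| ≤ 2 * L * R + B := by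
      by_cases h0 : 0 ≤ N'
      · rw [hs, decide_eq_true h0] at e4
        have : (N'.natAbs : ℝ) = (N' : ℝ) := by
          have h1 : ((N'.natAbs : ℤ) : ℝ) = (N' : ℝ) := by rw [Int.natAbs_of_nonneg h0]
          rw [← h1]; simp
        rw [this]
        simpa using e4
      · rw [hs, decide_eq_false h0] at e4
        have : (N'.natAbs : ℝ) = -(N' : ℝ) := by
          have h1 : ((N'.natAbs : ℤ) : ℝ) = -(N' : ℝ) := by
            have : (N'.natAbs : ℤ) = -N' := by omega
            rw [this]; push_cast; ring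
          rw [← h1]; simp
        rw [this]
        have h2 : (m : ℝ) - -(N' : ℝ) = -((m : ℝ) * (if false = true then (1:ℝ) else -1) - N') := by
          simp; ring
        rw [h2, abs_neg]
        exact e4
    unfold SCh
    rw [← hs]
    rcases le_total N'.natAbs m with hle | hle
    · obtain ⟨r, hr⟩ := Nat.exists_eq_add_of_le hle
      rw [hr] at hm
      obtain ⟨y', hy1, hy2⟩ := hm.split
      refine ⟨y', hy1, ?_⟩
      have h1 := Chain.dist_le h.conn (hC.adj j _) hy2
      have h2 : (G.dist y0 y' : ℝ) ≤ r := by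
        rw [SimpleGraph.dist_comm]; exact_mod_cast h1
      have h3 : (r : ℝ) = (m : ℝ) - N'.natAbs := by rw [hr]; push_cast; ring
      have h4 := (abs_le.1 e5).2
      have h5 := hdist y'
      linarith
    · obtain ⟨r, hr⟩ := Nat.exists_eq_add_of_le hle
      obtain ⟨y', hy'⟩ := Chain.exists (hC.out j (decide (0 ≤ N))) r y0
      refine ⟨y', ?_, ?_⟩
      · rw [hr]; exact hm.trans hy'
      · have h1 := Chain.dist_le h.conn (hC.adj j _) hy'
        have h2 : (G.dist y0 y' : ℝ) ≤ r := by exact_mod_cast h1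
        have h3 : (r : ℝ) = (N'.natAbs : ℝ) - m := by rw [hr]; push_cast; ring
        have h4 := (abs_le.1 e5).1
        have h5 := hdist y'
        linarith
  · -- opposite signs
    have e5 : (m : ℝ) + N'.natAbs ≤ 2 * L * R + B := by
      by_cases h0 : 0 ≤ N'
      · have hN0 : ¬ 0 ≤ N := by
          intro h1; exact hs (by rw [decide_eq_true h1, decide_eq_true h0])
        rw [decide_eq_false hN0] at e4
        have : (N'.natAbs : ℝ) = (N' : ℝ) := by
          have h1 : ((N'.natAbs : ℤ) : ℝ) = (N' : ℝ) := by rw [Int.natAbs_of_nonneg h0]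
          rw [← h1]; simp
        rw [this]
        have h2 := (abs_le.1 e4).1
        simp at h2
        linarith
      · have hN0 : 0 ≤ N := by
          by_contra h1; exact hs (by rw [decide_eq_false h1, decide_eq_false h0])
        rw [decide_eq_true hN0] at e4
        have : (N'.natAbs : ℝ) = -(N' : ℝ) := by
          have h1 : ((N'.natAbs : ℤ) : ℝ) = -(N' : ℝ) := by
            have : (N'.natAbs : ℤ) = -N' := by omega
            rw [this]; push_cast; ring
          rw [← h1]; simp
        rw [this]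
        have h2 := (abs_le.1 e4).2
        simp at h2
        linarith
    obtain ⟨y', hy'⟩ := sch_exists hC j N' x'
    refine ⟨y', hy', ?_⟩
    have h1 := sch_dist h hC hy'
    have h2 := Chain.dist_le h.conn (hC.adj j _) hm
    have h3 : (G.dist y0 y' : ℝ) ≤ m + N'.natAbs := by
      have h6 : G.dist y0 y' ≤ G.dist y0 x' + G.dist x' y' := h.conn.dist_triangle
      have h7 : G.dist y0 x' ≤ m := by rw [SimpleGraph.dist_comm]; exact h2
      have h8 : G.dist y0 y' ≤ m + N'.natAbs := h6.trans (add_le_add h7 h1)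
      exact_mod_cast h8
    have h5 := hdist y'
    linarith

/-- block paths -/
def Blk (T : Fin d → Bool → V → V → Prop) (N : Fin d → ℤ) : List (Fin d) → V → V → Prop
  | [], x, y => x = y
  | j :: l, x, y => ∃ z, SCh T j (N j) x z ∧ Blk T N l z y

lemma blk_exists (hC : Coord G D d H T) (N : Fin d → ℤ) (l : List (Fin d)) (x : V) :
    ∃ y, Blk T N l x y := by
  induction l generalizing x with
  | nil => exact ⟨x, rfl⟩
  | cons j l ih =>
    obtain ⟨z, hz⟩ := sch_exists hC j (N j) x
    obtain ⟨y, hy⟩ := ih z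
    exact ⟨y, z, hz, hy⟩

lemma blk_zero (l : List (Fin d)) (x : V) : Blk T (fun _ => 0) l x x := by
  induction l with
  | nil => exact rfl
  | cons j l ih => exact ⟨x, rfl, ih⟩

lemma blk_shadow (h : Nice G D) (hC : Coord G D d H T) (l : List (Fin d)) :
    ∀ R B : ℝ, ∃ R' : ℝ, ∀ (N N' : Fin d → ℤ), (∀ j, |(N j : ℝ) - N' j| ≤ B) →
      ∀ x x' y, (G.dist x x' : ℝ) ≤ R → Blk T N l x y →
        ∃ y', Blk T N' l x' y' ∧ (G.dist y y' : ℝ) ≤ R' := by
  obtain ⟨L, hL0, hL⟩ := hC.lip
  induction l with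
  | nil =>
    intro R B
    refine ⟨R, fun N N' _ x x' y hx hb => ?_⟩
    have hb' : x = y := hb
    subst hb'
    exact ⟨x', rfl, hx⟩
  | cons j l ih =>
    intro R B
    obtain ⟨R', hR'⟩ := ih (R + (2 * L * R + B)) B
    refine ⟨R', fun N N' hN x x' y hx hb => ?_⟩
    obtain ⟨z, hz, hb'⟩ := hb
    obtain ⟨z', hz', hd⟩ := sch_adjust h hC hL0 hL j R B (N j) (N' j) (hN j) x x' z hx hz
    obtain ⟨y', hy', hd'⟩ := hR' N N' hN z z' y hd hb'
    exact ⟨y', ⟨z', hz', hy'⟩, hd'⟩

lemma blk_inc (hC : Coord G D d H T) {N : Fin d → ℤ} {l : List (Fin d)} {x y : V}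
    (hb : Blk T N l x y) (i : Fin d) : H i y - H i x = (l.count i : ℝ) * N i := by
  induction l generalizing x with
  | nil =>
    have hb' : x = y := hb
    subst hb'
    simp
  | cons j l ih =>
    obtain ⟨z, hz, hb'⟩ := hb
    have h1 := sch_inc hC hz i
    have h2 := ih hb'
    have h3 : H i y - H i x = (H i y - H i z) + (H i z - H i x) := by ring
    rw [h3, h2, h1, List.count_cons]
    by_cases hij : i = j
    · subst hij
      simp
      ring
    · rw [if_neg hij]
      have hji : ¬ j = i := fun h' => hij h'.symm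
      have : (j == i) = false := by
        simpa using hji
      rw [this]
      simp

lemma blk_inc' (hC : Coord G D d H T) {N : Fin d → ℤ} {x y : V}
    (hb : Blk T N (List.finRange d) x y) (i : Fin d) : H i y - H i x = N i := by
  rw [blk_inc hC hb i, List.count_eq_one_of_mem (List.nodup_finRange d) (List.mem_finRange i)]
  simp

lemma blk_dist (h : Nice G D) (hC : Coord G D d H T) {N : Fin d → ℤ} {l : List (Fin d)} {x y : V}
    (hb : Blk T N l x y) : (G.dist x y : ℝ) ≤ (l.map (fun j => |(N j : ℝ)|)).sum := by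
  induction l generalizing x with
  | nil =>
    have hb' : x = y := hb
    subst hb'
    simp
  | cons j l ih =>
    obtain ⟨z, hz, hb'⟩ := hb
    have h1 := sch_dist h hC hz
    have h2 := ih hb'
    have h3 : G.dist x y ≤ G.dist x z + G.dist z y := h.conn.dist_triangle
    have h4 : (G.dist x y : ℝ) ≤ G.dist x z + G.dist z y := by exact_mod_cast h3
    have h5 : (G.dist x z : ℝ) ≤ |(N j : ℝ)| := by
      have : (((N j).natAbs : ℕ) : ℝ) = |(N j : ℝ)| := by
        rw [Nat.cast_natAbs]; simp
      rw [← this]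
      exact_mod_cast h1
    rw [List.map_cons, List.sum_cons]
    linarith

lemma blk_dist' (h : Nice G D) (hC : Coord G D d H T) {N : Fin d → ℤ} {x y : V}
    (hb : Blk T N (List.finRange d) x y) : (G.dist x y : ℝ) ≤ ∑ j, |(N j : ℝ)| := by
  rw [Fin.sum_univ_def]
  exact blk_dist h hC hb

end Pool.Agent.H80.ORC
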