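import Pool.Agent.H80.ORC.Growth

/-!
# The simple random walk: averaging operator, kernel, entropy
-/

set_option autoImplicit false

namespace Pool.Agent.H80.ORC

open Finset

variable {V : Type*} {G : SimpleGraph V} [G.LocallyFinite] {D : ℕ}

/-- averaging operator -/
noncomputable def avg (G : SimpleGraph V) [G.LocallyFinite] (D : ℕ) (F : V → ℝ) (x : V) : ℝ :=
  (∑ y ∈ G.neighborFinset x, F y) / D

lemma avg_add (F F' : V → ℝ) (x : V) : avg G D (fun z => F z + F' z) x = avg G D F x + avg G D F' x := by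
  unfold avg; rw [Finset.sum_add_distrib, add_div]

lemma avg_sub (F F' : V → ℝ) (x : V) : avg G D (fun z => F z - F' z) x = avg G D F x - avg G D F' x := by
  unfold avg; rw [Finset.sum_sub_distrib, sub_div]

lemma avg_mul_left (c : ℝ) (F : V → ℝ) (x : V) : avg G D (fun z => c * F z) x = c * avg G D F x := by
  unfold avg; rw [← Finset.mul_sum, mul_div_assoc]

lemma avg_const (h : Nice G D) (c : ℝ) (x : V) : avg G D (fun _ => c) x = c := by
  unfold avg
  rw [Finset.sum_const, h.deg x, nsmul_eq_mul]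
  have : (D : ℝ) ≠ 0 := by exact_mod_cast h.pos.ne'
  field_simp

lemma avg_mono (F F' : V → ℝ) (hF : ∀ z, F z ≤ F' z) (x : V) : avg G D F x ≤ avg G D F' x := by
  unfold avg
  apply div_le_div_of_nonneg_right _ (by positivity)
  exact Finset.sum_le_sum fun z _ => hF z

lemma avg_sum {ι : Type*} (s : Finset ι) (F : ι → V → ℝ) (x : V) :
    avg G D (fun z => ∑ i ∈ s, F i z) x = ∑ i ∈ s, avg G D (F i) x := by
  unfold avg
  rw [Finset.sum_comm, Finset.sum_div]

/-- iterates -/
noncomputable def avgI (G : SimpleGraph V) [G.LocallyFinite] (D : ℕ) (k : ℕ) (F : V → ℝ) : V → ℝ :=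
  (avg G D)^[k] F

lemma avgI_zero (F : V → ℝ) : avgI G D 0 F = F := rfl

lemma avgI_succ (k : ℕ) (F : V → ℝ) : avgI G D (k + 1) F = avg G D (avgI G D k F) := by
  unfold avgI; rw [Function.iterate_succ_apply']

lemma avgI_succ' (k : ℕ) (F : V → ℝ) : avgI G D (k + 1) F = avgI G D k (avg G D F) := by
  unfold avgI; rw [Function.iterate_succ_apply]

lemma avgI_add (k : ℕ) (F F' : V → ℝ) (x : V) :
    avgI G D k (fun z => F z + F' z) x = avgI G D k F x + avgI G D k F' x := by
  induction k generalizing x with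
  | zero => rfl
  | succ k ih =>
    rw [avgI_succ, avgI_succ, avgI_succ, ← avg_add]
    congr 1
    funext z
    exact ih z

lemma avgI_sub (k : ℕ) (F F' : V → ℝ) (x : V) :
    avgI G D k (fun z => F z - F' z) x = avgI G D k F x - avgI G D k F' x := by
  induction k generalizing x with
  | zero => rfl
  | succ k ih =>
    rw [avgI_succ, avgI_succ, avgI_succ, ← avg_sub]
    congr 1
    funext z
    exact ih z

lemma avgI_mul_left (k : ℕ) (c : ℝ) (F : V → ℝ) (x : V) :
    avgI G D k (fun z => c * F z) x = c * avgI G D k F x := by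
  induction k generalizing x with
  | zero => rfl
  | succ k ih =>
    rw [avgI_succ, avgI_succ, ← avg_mul_left]
    congr 1
    funext z
    exact ih z

lemma avgI_const (h : Nice G D) (k : ℕ) (c : ℝ) (x : V) : avgI G D k (fun _ => c) x = c := by
  induction k generalizing x with
  | zero => rfl
  | succ k ih =>
    rw [avgI_succ]
    have : avgI G D k (fun _ => c) = fun _ => c := by funext z; exact ih z
    rw [this, avg_const h]

lemma avgI_mono (k : ℕ) (F F' : V → ℝ) (hF : ∀ z, F z ≤ F' z) (x : V) :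
    avgI G D k F x ≤ avgI G D k F' x := by
  induction k generalizing x with
  | zero => exact hF x
  | succ k ih =>
    rw [avgI_succ, avgI_succ]
    exact avg_mono _ _ ih x

lemma avgI_bound (h : Nice G D) (k : ℕ) (F : V → ℝ) (C : ℝ) (hF : ∀ z, |F z| ≤ C) (x : V) :
    |avgI G D k F x| ≤ C := by
  rw [abs_le]
  constructor
  · rw [← avgI_const h k (-C) x]
    exact avgI_mono k _ _ (fun z => (abs_le.1 (hF z)).1) x
  · rw [← avgI_const h k C x]
    exact avgI_mono k _ _ (fun z => (abs_le.1 (hF z)).2) x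

open Classical in
/-- `k`-step transition probabilities -/
noncomputable def ker (G : SimpleGraph V) [G.LocallyFinite] (D : ℕ) : ℕ → V → V → ℝ
  | 0, x, z => if z = x then 1 else 0
  | k + 1, x, z => avg G D (fun y => ker G D k y z) x

lemma ker_nonneg (k : ℕ) (x z : V) : 0 ≤ ker G D k x z := by
  induction k generalizing x with
  | zero => unfold ker; split_ifs <;> norm_num
  | succ k ih =>
    unfold ker avg
    apply div_nonneg _ (by positivity)
    exact Finset.sum_nonneg fun y _ => ih y

lemma ker_eq_zero (h : Nice G D) (k : ℕ) (x z : V) (hd : k < G.dist x z) : ker G D k x z = 0 := by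
  induction k generalizing x with
  | zero =>
    unfold ker
    rw [if_neg]
    rintro rfl
    simp at hd
  | succ k ih =>
    unfold ker avg
    rw [Finset.sum_eq_zero, zero_div]
    intro y hy
    apply ih
    have h1 : G.dist x z ≤ G.dist x y + G.dist y z := h.conn.dist_triangle
    rw [dist_of_mem hy] at h1
    omega

lemma ker_le (h : Nice G D) (k : ℕ) (x y z : V) (hy : y ∈ G.neighborFinset x) :
    ker G D k y z ≤ D * ker G D (k + 1) x z := by
  have hD : (0 : ℝ) < D := by exact_mod_cast h.pos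
  have : ker G D (k + 1) x z = (∑ y ∈ G.neighborFinset x, ker G D k y z) / D := rfl
  rw [this, mul_div_cancel₀ _ hD.ne']
  exact Finset.single_le_sum (f := fun y => ker G D k y z) (fun i _ => ker_nonneg k i z) hy

lemma sum_ker (h : Nice G D) (k : ℕ) (F : V → ℝ) (x : V) (S : Finset V)
    (hS : ∀ z, G.dist x z ≤ k → z ∈ S) : ∑ z ∈ S, ker G D k x z * F z = avgI G D k F x := by
  classical
  induction k generalizing x with
  | zero =>
    have hx : x ∈ S := hS x (by simp)
    rw [avgI_zero]
    unfold ker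
    simp [hx]
  | succ k ih =>
    have h1 : ∀ z ∈ S, ker G D (k + 1) x z * F z =
        (∑ y ∈ G.neighborFinset x, ker G D k y z * F z) / D := by
      intro z _
      have : ker G D (k + 1) x z = (∑ y ∈ G.neighborFinset x, ker G D k y z) / D := rfl
      rw [this, div_mul_eq_mul_div, Finset.sum_mul]
    rw [Finset.sum_congr rfl h1, ← Finset.sum_div, Finset.sum_comm, avgI_succ]
    unfold avg
    congr 1
    refine Finset.sum_congr rfl fun y hy => ?_
    apply ih
    intro z hz
    apply hS
    have h1 : G.dist x z ≤ G.dist x y + G.dist y z := h.conn.dist_triangle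
    rw [dist_of_mem hy] at h1
    omega

lemma sum_ker_one (h : Nice G D) (k : ℕ) (x : V) (S : Finset V)
    (hS : ∀ z, G.dist x z ≤ k → z ∈ S) : ∑ z ∈ S, ker G D k x z = 1 := by
  have := sum_ker h k (fun _ => 1) x S hS
  rw [avgI_const h] at this
  simpa using this

/-- the ball as a finset -/
noncomputable def bl (h : Nice G D) (x : V) (k : ℕ) : Finset V := (ball_growth h x k).1.toFinset

lemma mem_bl (h : Nice G D) (x z : V) (k : ℕ) : z ∈ bl h x k ↔ G.dist x z ≤ k := by
  unfold bl; simp

lemma card_bl (h : Nice G D) (x : V) (k : ℕ) :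
    (bl h x k).card ≤ 3 ^ D * (3 ^ D) ^ (2 * D) * (k + 1) ^ (2 * D + 1) := by
  have := (ball_growth h x k).2
  rwa [Set.ncard_eq_toFinset_card _ (ball_growth h x k).1] at this

/-- entropy -/
noncomputable def ent (G : SimpleGraph V) [G.LocallyFinite] (D : ℕ) (k : ℕ) (x : V) : ℝ :=
  ∑ᶠ z, Real.negMulLog (ker G D k x z)

lemma ent_eq (h : Nice G D) (k : ℕ) (x : V) (S : Finset V)
    (hS : ∀ z, G.dist x z ≤ k → z ∈ S) :
    ent G D k x = ∑ z ∈ S, Real.negMulLog (ker G D k x z) := by
  unfold ent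
  apply finsum_eq_sum_of_support_subset
  intro z hz
  apply hS
  by_contra hcon
  push Not at hcon
  apply hz
  simp only [ker_eq_zero h k x z hcon, Real.negMulLog_zero]

/-- entropy is at most the logarithm of the size of the ball -/
lemma ent_le (h : Nice G D) (k : ℕ) (x : V) : ent G D k x ≤ Real.log (bl h x k).card := by
  set S := bl h x k with hSdef
  have hS : ∀ z, G.dist x z ≤ k → z ∈ S := fun z hz => (mem_bl h x z k).2 hz
  have hx : x ∈ S := hS x (by simp)
  have hn : (0 : ℝ) < S.card := by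
    have : 0 < S.card := Finset.card_pos.2 ⟨x, hx⟩
    exact_mod_cast this
  rw [ent_eq h k x S hS]
  have h1 : ∀ z ∈ S, Real.negMulLog (ker G D k x z) ≤
      ker G D k x z * Real.log S.card + (1 / S.card - ker G D k x z) := by
    intro z _
    rcases (ker_nonneg (G := G) (D := D) k x z).eq_or_lt with h0 | h0
    · rw [← h0]; simp
    · have h2 : Real.log (1 / (S.card * ker G D k x z)) ≤ 1 / (S.card * ker G D k x z) - 1 :=
        Real.log_le_sub_one_of_pos (by positivity)
      have h3 : Real.log (1 / (S.card * ker G D k x z)) =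
          - Real.log S.card - Real.log (ker G D k x z) := by
        rw [one_div, Real.log_inv, Real.log_mul hn.ne' h0.ne']; ring
      rw [h3] at h2
      unfold Real.negMulLog
      have h4 := mul_le_mul_of_nonneg_left h2 h0.le
      have h5 : ker G D k x z * (1 / (S.card * ker G D k x z) - 1) = 1 / S.card - ker G D k x z := by
        field_simp
      rw [h5] at h4
      linarith
  refine (Finset.sum_le_sum h1).trans ?_
  rw [Finset.sum_add_distrib, Finset.sum_sub_distrib, ← Finset.sum_mul, sum_ker_one h k x S hS]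
  simp only [Finset.sum_const, nsmul_eq_mul]
  have : (S.card : ℝ) * (1 / S.card) = 1 := by field_simp
  rw [this]
  linarith

lemma pointwise_kl (a b : ℝ) (ha : 0 ≤ a) (hb : 0 ≤ b) (hab : b = 0 → a = 0) :
    (Real.sqrt a - Real.sqrt b) ^ 2 ≤ a * (Real.log a - Real.log b) - a + b := by
  rcases ha.eq_or_lt with h0 | h0
  · rw [← h0]
    simp [Real.sq_sqrt hb]
  have hb0 : 0 < b := by
    rcases hb.eq_or_lt with h1 | h1
    · exact absurd (hab h1.symm) h0.ne'
    · exact h1
  have h1 : Real.log (Real.sqrt (b / a)) ≤ Real.sqrt (b / a) - 1 :=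
    Real.log_le_sub_one_of_pos (Real.sqrt_pos.2 (by positivity))
  have h2 : Real.log (Real.sqrt (b / a)) = (Real.log b - Real.log a) / 2 := by
    rw [Real.log_sqrt (by positivity), Real.log_div hb0.ne' h0.ne']
  rw [h2] at h1
  have h3 : a * Real.sqrt (b / a) = Real.sqrt a * Real.sqrt b := by
    rw [Real.sqrt_div hb]
    have : a = Real.sqrt a * Real.sqrt a := (Real.mul_self_sqrt ha).symm
    have hsa : Real.sqrt a ≠ 0 := (Real.sqrt_pos.2 h0).ne'
    field_simp
    rw [Real.sq_sqrt ha]
  have h4 : a * ((Real.log b - Real.log a) / 2) ≤ a * (Real.sqrt (b / a) - 1) :=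
    mul_le_mul_of_nonneg_left h1 ha
  have h5 : (Real.sqrt a - Real.sqrt b) ^ 2 = a + b - 2 * (Real.sqrt a * Real.sqrt b) := by
    have e1 := Real.sq_sqrt ha
    have e2 := Real.sq_sqrt hb
    nlinarith
  rw [h5, ← h3]
  nlinarith

/-- key Cauchy-Schwarz estimate -/
lemma cs_estimate (S : Finset V) (a b F : V → ℝ) (ha : ∀ z, 0 ≤ a z) (hb : ∀ z, 0 ≤ b z)
    (hab : ∀ z, b z = 0 → a z = 0) (hsa : ∑ z ∈ S, a z = 1) (hsb : ∑ z ∈ S, b z = 1) :
    (∑ z ∈ S, (a z - b z) * F z) ^ 2 ≤
      (∑ z ∈ S, a z * (Real.log (a z) - Real.log (b z))) * (2 * ∑ z ∈ S, (a z + b z) * F z ^ 2) := by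
  have h1 : ∑ z ∈ S, (Real.sqrt (a z) - Real.sqrt (b z)) ^ 2 ≤
      ∑ z ∈ S, a z * (Real.log (a z) - Real.log (b z)) := by
    have := Finset.sum_le_sum (s := S) fun z _ => pointwise_kl (a z) (b z) (ha z) (hb z) (hab z)
    refine this.trans (le_of_eq ?_)
    rw [Finset.sum_add_distrib, Finset.sum_sub_distrib, hsa, hsb]
    ring
  have h2 : (∑ z ∈ S, (a z - b z) * F z) ^ 2 ≤
      (∑ z ∈ S, (Real.sqrt (a z) - Real.sqrt (b z)) ^ 2) *
        (∑ z ∈ S, ((Real.sqrt (a z) + Real.sqrt (b z)) * F z) ^ 2) := by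
    have h3 : ∑ z ∈ S, (a z - b z) * F z =
        ∑ z ∈ S, (Real.sqrt (a z) - Real.sqrt (b z)) * ((Real.sqrt (a z) + Real.sqrt (b z)) * F z) := by
      refine Finset.sum_congr rfl fun z _ => ?_
      have e1 := Real.sq_sqrt (ha z)
      have e2 := Real.sq_sqrt (hb z)
      have : a z - b z = (Real.sqrt (a z) - Real.sqrt (b z)) * (Real.sqrt (a z) + Real.sqrt (b z)) := by
        nlinarith
      rw [this]; ring
    rw [h3]
    exact Finset.sum_mul_sq_le_sq_mul_sq S _ _
  have h4 : ∑ z ∈ S, ((Real.sqrt (a z) + Real.sqrt (b z)) * F z) ^ 2 ≤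
      2 * ∑ z ∈ S, (a z + b z) * F z ^ 2 := by
    rw [Finset.mul_sum]
    apply Finset.sum_le_sum
    intro z _
    have e1 := Real.sq_sqrt (ha z)
    have e2 := Real.sq_sqrt (hb z)
    have : (Real.sqrt (a z) + Real.sqrt (b z)) ^ 2 ≤ 2 * (a z + b z) := by
      nlinarith [sq_nonneg (Real.sqrt (a z) - Real.sqrt (b z))]
    rw [mul_pow, ← mul_assoc]
    exact mul_le_mul_of_nonneg_right this (sq_nonneg _)
  refine h2.trans ?_
  apply mul_le_mul h1 h4
  · exact Finset.sum_nonneg fun z _ => sq_nonneg _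
  · exact (Finset.sum_nonneg fun z _ => sq_nonneg _).trans h1

/-- squared gradient -/
noncomputable def grad2 (G : SimpleGraph V) [G.LocallyFinite] (D : ℕ) (H : V → ℝ) (x : V) : ℝ :=
  (∑ y ∈ G.neighborFinset x, (H y - H x) ^ 2) / D

lemma grad2_nonneg (H : V → ℝ) (x : V) : 0 ≤ grad2 G D H x := by
  unfold grad2
  exact div_nonneg (Finset.sum_nonneg fun y _ => sq_nonneg _) (by positivity)

lemma grad2_eq (h : Nice G D) (H : V → ℝ) (hH : ∀ x, avg G D H x = H x) (x : V) :
    grad2 G D H x = avg G D (fun z => H z ^ 2) x - H x ^ 2 := by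
  have hD : (D : ℝ) ≠ 0 := by exact_mod_cast h.pos.ne'
  unfold grad2
  have h1 : ∑ y ∈ G.neighborFinset x, (H y - H x) ^ 2 =
      ∑ y ∈ G.neighborFinset x, H y ^ 2 - 2 * H x * ∑ y ∈ G.neighborFinset x, H y + D * H x ^ 2 := by
    have e1 : ∀ y ∈ G.neighborFinset x, (H y - H x) ^ 2 = H y ^ 2 - 2 * H x * H y + H x ^ 2 := by
      intro y _; ring
    rw [Finset.sum_congr rfl e1, Finset.sum_add_distrib, Finset.sum_sub_distrib, ← Finset.mul_sum,
      Finset.sum_const, h.deg x, nsmul_eq_mul]
  have h2 : ∑ y ∈ G.neighborFinset x, H y = D * H x := by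
    have := hH x
    unfold avg at this
    field_simp at this
    linarith
  rw [h1, h2]
  unfold avg
  field_simp
  ring

lemma avgI_sq (h : Nice G D) (H : V → ℝ) (hH : ∀ x, avg G D H x = H x) (k : ℕ) (x : V) :
    avgI G D k (fun z => H z ^ 2) x - H x ^ 2 = ∑ j ∈ Finset.range k, avgI G D j (grad2 G D H) x := by
  induction k with
  | zero => simp [avgI_zero]
  | succ k ih =>
    rw [Finset.sum_range_succ, ← ih, avgI_succ']
    have : grad2 G D H = fun z => avg G D (fun z => H z ^ 2) z - H z ^ 2 := by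
      funext z; exact grad2_eq h H hH z
    rw [this, avgI_sub]
    ring

lemma avgI_harm (H : V → ℝ) (hH : ∀ x, avg G D H x = H x) (k : ℕ) : avgI G D k H = H := by
  induction k with
  | zero => rfl
  | succ k ih =>
    rw [avgI_succ, ih]
    funext x
    exact hH x

theorem entropy_estimate (h : Nice G D) (H : V → ℝ) (hH : ∀ x, avg G D H x = H x) (k : ℕ) (x : V) :
    grad2 G D H x ≤ 2 * (D + 1) * (ent G D (k + 1) x - avg G D (ent G D k) x) *
      ∑ j ∈ Finset.range (k + 1), avgI G D j (grad2 G D H) x := by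
  have hD : (0 : ℝ) < D := by exact_mod_cast h.pos
  set S := bl h x (k + 1) with hSdef
  have hS : ∀ z, G.dist x z ≤ k + 1 → z ∈ S := fun z hz => (mem_bl h x z (k + 1)).2 hz
  have hSy : ∀ y ∈ G.neighborFinset x, ∀ z, G.dist y z ≤ k → z ∈ S := by
    intro y hy z hz
    apply hS
    have h1 : G.dist x z ≤ G.dist x y + G.dist y z := h.conn.dist_triangle
    rw [dist_of_mem hy] at h1
    omega
  set F : V → ℝ := fun z => H z - H x with hF
  set b : V → ℝ := ker G D (k + 1) x with hb
  set KL : V → ℝ := fun y => ∑ z ∈ S, ker G D k y z * (Real.log (ker G D k y z) - Real.log (b z))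
    with hKL
  set E : ℝ := ∑ z ∈ S, b z * F z ^ 2 with hE
  have hE0 : 0 ≤ E := Finset.sum_nonneg fun z _ => mul_nonneg (ker_nonneg _ _ _) (sq_nonneg _)
  have hb_zero : ∀ y ∈ G.neighborFinset x, ∀ z, b z = 0 → ker G D k y z = 0 := by
    intro y hy z hz
    have := ker_le h k x y z hy
    rw [← hb, hz, mul_zero] at this
    exact le_antisymm this (ker_nonneg _ _ _)
  have hKL0 : ∀ y ∈ G.neighborFinset x, 0 ≤ KL y := by
    intro y hy
    have h1 := Finset.sum_le_sum (s := S) fun z _ =>
      pointwise_kl (ker G D k y z) (b z) (ker_nonneg _ _ _) (ker_nonneg _ _ _) (hb_zero y hy z)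
    rw [Finset.sum_add_distrib, Finset.sum_sub_distrib, sum_ker_one h k y S (hSy y hy),
      sum_ker_one h (k + 1) x S hS] at h1
    have h2 : 0 ≤ ∑ z ∈ S, (Real.sqrt (ker G D k y z) - Real.sqrt (b z)) ^ 2 :=
      Finset.sum_nonneg fun z _ => sq_nonneg _
    simp only [hKL]
    linarith
  -- per neighbour estimate
  have hy_est : ∀ y ∈ G.neighborFinset x, (H y - H x) ^ 2 ≤ KL y * (2 * ((D + 1) * E)) := by
    intro y hy
    have h1 := cs_estimate S (ker G D k y) b F (fun z => ker_nonneg _ _ _) (fun z => ker_nonneg _ _ _)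
      (hb_zero y hy) (sum_ker_one h k y S (hSy y hy)) (sum_ker_one h (k + 1) x S hS)
    have h2 : ∑ z ∈ S, (ker G D k y z - b z) * F z = H y - H x := by
      have e1 : ∀ z ∈ S, (ker G D k y z - b z) * F z =
          (ker G D k y z * H z - b z * H z) - (ker G D k y z - b z) * H x := by
        intro z _; simp only [hF]; ring
      rw [Finset.sum_congr rfl e1, Finset.sum_sub_distrib, Finset.sum_sub_distrib, ← Finset.sum_mul,
        Finset.sum_sub_distrib, sum_ker_one h k y S (hSy y hy), sum_ker_one h (k + 1) x S hS,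
        sum_ker h k H y S (hSy y hy), sum_ker h (k + 1) H x S hS, avgI_harm H hH, avgI_harm H hH]
      ring
    rw [h2] at h1
    refine h1.trans ?_
    apply mul_le_mul_of_nonneg_left _ (hKL0 y hy)
    apply mul_le_mul_of_nonneg_left _ (by norm_num)
    rw [hE, Finset.mul_sum]
    apply Finset.sum_le_sum
    intro z _
    rw [← mul_assoc]
    apply mul_le_mul_of_nonneg_right _ (sq_nonneg _)
    have := ker_le h k x y z hy
    rw [← hb] at this
    linarith
  -- sum of KL
  have hKLsum : (∑ y ∈ G.neighborFinset x, KL y) / D = ent G D (k + 1) x - avg G D (ent G D k) x := by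
    have e1 : ∀ y ∈ G.neighborFinset x, KL y =
        - ent G D k y - ∑ z ∈ S, ker G D k y z * Real.log (b z) := by
      intro y hy
      rw [ent_eq h k y S (hSy y hy), hKL, ← Finset.sum_neg_distrib, ← Finset.sum_sub_distrib]
      refine Finset.sum_congr rfl fun z _ => ?_
      unfold Real.negMulLog
      ring
    rw [Finset.sum_congr rfl e1, Finset.sum_sub_distrib, Finset.sum_neg_distrib, Finset.sum_comm]
    have e2 : ∀ z ∈ S, ∑ y ∈ G.neighborFinset x, ker G D k y z * Real.log (b z) =
        D * (b z * Real.log (b z)) := by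
      intro z _
      rw [← Finset.sum_mul]
      have : b z = (∑ y ∈ G.neighborFinset x, ker G D k y z) / D := rfl
      have e3 : ∑ y ∈ G.neighborFinset x, ker G D k y z = D * b z := by
        rw [this]; field_simp
      rw [e3]; ring
    rw [Finset.sum_congr rfl e2, ← Finset.mul_sum, ent_eq h (k + 1) x S hS]
    unfold avg Real.negMulLog
    have e4 : ∑ z ∈ S, -ker G D (k + 1) x z * Real.log (ker G D (k + 1) x z) =
        - ∑ z ∈ S, b z * Real.log (b z) := by
      rw [← Finset.sum_neg_distrib]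
      refine Finset.sum_congr rfl fun z _ => ?_
      simp only [hb]; ring
    rw [e4]
    field_simp
    ring
  have hEval : E = ∑ j ∈ Finset.range (k + 1), avgI G D j (grad2 G D H) x := by
    rw [← avgI_sq h H hH, hE, sum_ker h (k + 1) (fun z => F z ^ 2) x S hS]
    have e1 : (fun z => F z ^ 2) = fun z => (H z ^ 2 - (2 * H x) * H z) + H x ^ 2 := by
      funext z; simp only [hF]; ring
    rw [e1, avgI_add (k + 1) (fun z => H z ^ 2 - (2 * H x) * H z) (fun _ => H x ^ 2), avgI_sub,
      avgI_mul_left, avgI_harm H hH, avgI_const h]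
    ring
  rw [← hEval, ← hKLsum]
  unfold grad2
  have h1 : ∑ y ∈ G.neighborFinset x, (H y - H x) ^ 2 ≤
      ∑ y ∈ G.neighborFinset x, KL y * (2 * ((D + 1) * E)) := Finset.sum_le_sum hy_est
  rw [← Finset.sum_mul] at h1
  calc (∑ y ∈ G.neighborFinset x, (H y - H x) ^ 2) / D
      ≤ ((∑ y ∈ G.neighborFinset x, KL y) * (2 * ((D + 1) * E))) / D :=
        div_le_div_of_nonneg_right h1 hD.le
    _ = 2 * (D + 1) * ((∑ y ∈ G.neighborFinset x, KL y) / D) * E := by ring

end Pool.Agent.H80.ORC
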